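import Pool.Agent.Helper58.AR.Place
import Pool.Agent.Helper58.GI.Tower2
import Pool.Agent.Helper64.BI.Final

/-!
AR-18. Directed unions of linear groups over `K` in which the inclusions are polynomial and proper at all
places, a place being a non-archimedean absolute value or the absolute value given by an embedding of
`K` into `ℂ`. The members of the union are required to be discrete at their finitely many places: every
finitely generated subgroup has finitely many elements with given bounds on the entries of the matrix and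
of its inverse. This holds if `K` is a field of algebraic numbers or of characteristic `p` and the
homomorphism has finite kernel on finitely generated subgroups (`placeProper_good`). It also holds if
`K = ℂ` or `K = ℝ` and `ρ` is injective with discrete image in `GL_n(K)`, the only place being the
usual absolute value: the matrices `g` for which the entries of `g` and `g⁻¹` are bounded by `B` form a
compact subset of `GL_n(K)`, which contains finitely many elements of a discrete subgroup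
(`placeProper_discrete`).
-/

set_option autoImplicit false

namespace Pool.Agent.Helper58.AR

open Pool.Agent.Helper65.TH Pool.Agent.Helper61.Apc Pool.Agent.Helper58.GI Pool.Agent.Helper64.BI

universe u w

private theorem map_eval_poly {K L : Type*} [Field K] [Field L] (σ : K →+* L) {d : ℕ}
    (y : Fin d → K) (P : MvPolynomial (Fin d) K) :
    σ (MvPolynomial.eval y P) =
      MvPolynomial.eval (fun l => σ (y l)) (MvPolynomial.map σ P) := by
  rw [MvPolynomial.eval_map]
  have h := MvPolynomial.eval₂_comp_left σ (RingHom.id K) y P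
  rw [RingHom.comp_id] at h
  exact h

/-- the local theorem for a place -/
private theorem local_place {K : Type u} [Field K] {v : AbsoluteValue K ℝ} (hv : IsPlace v)
    {Γ : Type*} [Group Γ] {m d : ℕ} (φ : Γ →* GL (Fin m) K) (L : Subgroup Γ)
    (y : Γ → Fin d → K) (P : Fin m → Fin m → MvPolynomial (Fin d) K)
    (hP : ∀ h ∈ L, ∀ a b, (φ h : Matrix (Fin m) (Fin m) K) a b = MvPolynomial.eval (y h) (P a b))
    (S : Finset Γ) (ε : ℝ) (hε : 0 < ε) :
    ∃ (g : Γ → Fin (d * 2 + (d * 2 + 1)) → ℝ) (ρ : ℝ), (∀ x, ∀ s ∈ S, Near (g (x * s)) (g x) ε) ∧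
      ∀ x z, Chain {s | s ∈ S ∧ s ∈ L} (fun b => Near (g b) (g x) 1) x z →
        ∀ a b, v ((φ (x⁻¹ * z) : Matrix (Fin m) (Fin m) K) a b) ≤ ρ := by
  classical
  rcases hv with hv | ⟨σ, hσ⟩
  · obtain ⟨g, ρ, hg, hρ⟩ := local_light hv φ L y P hP S ε hε
    refine ⟨fun x l => if h : (l : ℕ) < d then g x ⟨l, h⟩ else 0, ρ, ?_, ?_⟩
    · intro x s hs l
      by_cases hl : (l : ℕ) < d
      · simp only [dif_pos hl]
        exact hg x s hs ⟨l, hl⟩
      · simp only [dif_neg hl, sub_self, abs_zero]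
        exact hε.le
    · intro x z hxz
      refine hρ x z (hxz.mono (Set.Subset.refl _) ?_)
      intro b hb l
      have h1 := hb ⟨(l : ℕ), by have := l.2; omega⟩
      simp only [dif_pos l.2] at h1
      exact h1
  · obtain ⟨g, ρ, hg, hρ⟩ := local_light_complex ((Matrix.GeneralLinearGroup.map σ).comp φ) L
      (fun h l => σ (y h l)) (fun a b => MvPolynomial.map σ (P a b)) (by
        intro h hh a b
        rw [← map_eval_poly, ← hP h hh a b]
        rfl) S ε hε
    refine ⟨g, ρ, hg, ?_⟩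
    intro x z hxz a b
    rw [hσ]
    exact hρ x z hxz a b

/-- thinness in one finitely generated group; the parameters are only assumed to be bounded in terms of
the matrices -/
private theorem thin_of_dataA' {K : Type u} [Field K] {d n m : ℕ} (v : Fin n → AbsoluteValue K ℝ)
    (hv : ∀ i, IsPlace (v i)) {Γ : Type*} [Group Γ] (L : Subgroup Γ)
    (y : Γ → Fin d → K) (hfin : ∀ B : ℝ, {h : Γ | h ∈ L ∧ ∀ i l, v i (y h l) ≤ B}.Finite)
    (φ : Γ →* GL (Fin m) K) (P : Fin m → Fin m → MvPolynomial (Fin d) K)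
    (hP : ∀ h ∈ L, ∀ a b, (φ h : Matrix (Fin m) (Fin m) K) a b = MvPolynomial.eval (y h) (P a b))
    (hQ : ∀ i, ∀ R : ℝ, ∃ B : ℝ, ∀ h ∈ L,
      (∀ a b, v i ((φ h : Matrix (Fin m) (Fin m) K) a b) ≤ R) → ∀ l, v i (y h l) ≤ B) :
    Thin L (n * (d * 2 + (d * 2 + 1))) := by
  classical
  intro F ε hε
  have hloc : ∀ i : Fin n, ∃ (g : Γ → Fin (d * 2 + (d * 2 + 1)) → ℝ) (ρ : ℝ),
      (∀ x, ∀ s ∈ F, Near (g (x * s)) (g x) ε) ∧
      ∀ x z, Chain {s | s ∈ F ∧ s ∈ L} (fun b => Near (g b) (g x) 1) x z →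
        ∀ a b, v i ((φ (x⁻¹ * z) : Matrix (Fin m) (Fin m) K) a b) ≤ ρ := fun i =>
    local_place (hv i) φ L y P hP F ε hε
  choose g ρ hg hρ using hloc
  choose B hB using fun i : Fin n => hQ i (ρ i)
  refine ⟨fun x p => g (finProdFinEquiv.symm p).1 x (finProdFinEquiv.symm p).2,
    (hfin (∑ i, |B i|)).toFinset, ?_, ?_⟩
  · intro x s hs p
    exact hg _ x s hs _
  · intro x z hxz
    rw [Set.Finite.mem_toFinset]
    have hL : x⁻¹ * z ∈ L := hxz.mem_subgroup L (fun s hs => hs.2)
    refine ⟨hL, fun i l => ?_⟩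
    have h1 : ∀ a b, v i ((φ (x⁻¹ * z) : Matrix (Fin m) (Fin m) K) a b) ≤ ρ i := by
      refine hρ i x z (hxz.mono (Set.Subset.refl _) ?_)
      intro b hb j
      have h2 := hb (finProdFinEquiv (i, j))
      simp only [Equiv.symm_apply_apply] at h2
      exact h2
    refine (hB i _ hL h1 l).trans ((le_abs_self _).trans ?_)
    exact Finset.single_le_sum (f := fun i' => |B i'|) (fun i' _ => abs_nonneg _)
      (Finset.mem_univ i)

section Defs

variable {K : Type*} [Field K] {G : Type*} [Group G]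

/-- The places suffice for `ρ`: for every finitely generated subgroup of `H` there are finitely many
places of `K` such that only finitely many elements `h` of the subgroup have entries of `ρ h` and
`(ρ h)⁻¹` with given bounds. -/
def PlaceProper {H : Subgroup G} {n : ℕ} (ρ : H →* GL (Fin n) K) : Prop :=
  ∀ T : Finset G, (∀ t ∈ T, t ∈ H) → ∃ (k : ℕ) (v : Fin k → AbsoluteValue K ℝ),
    (∀ j, IsPlace (v j)) ∧
    ∀ B : ℝ, {h : H | (h : G) ∈ Subgroup.closure (T : Set G) ∧
      ∀ j s, v j (ent (ρ h) s) ≤ B}.Finite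

/-- for every place of `K`, the entries of `σ h` and `(σ h)⁻¹` are bounded on every set on which the
entries of `ρ h` and `(ρ h)⁻¹` are bounded -/
def BddInA {H : Type*} [Group H] {n m : ℕ} (ρ : H →* GL (Fin n) K) (σ : H →* GL (Fin m) K) : Prop :=
  ∀ v : AbsoluteValue K ℝ, IsPlace v → ∀ R : ℝ, ∃ B : ℝ, ∀ h,
    (∀ s, v (ent (ρ h) s) ≤ R) → ∀ s, v (ent (σ h) s) ≤ B

/-- `H ≤ H'`; on `H` the entries of `ρ' g` are polynomials in the entries of `ρ g` and `(ρ g)⁻¹`; and for
every place of `K` the entries of `ρ g` and `(ρ g)⁻¹` are bounded in terms of the entries of `ρ' g` and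
`(ρ' g)⁻¹`. -/
def ProperLeA {H H' : Subgroup G} {n m : ℕ} (ρ : H →* GL (Fin n) K) (ρ' : H' →* GL (Fin m) K) :
    Prop :=
  ∃ h : H ≤ H', PolyIn ρ (ρ'.comp (Subgroup.inclusion h)) ∧
    BddInA (ρ'.comp (Subgroup.inclusion h)) ρ

end Defs

/-- `G` is the union of a family of subgroups `H i` with homomorphisms `ρ i : H i → GL_{n_i}(K)` for
which the places suffice, and in which any two members lie below a third one in the sense of
`ProperLeA`: for instance a direct limit of linear groups over the algebraic numbers, or of discrete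
subgroups of the groups `GL_n(ℂ)` or `GL_n(ℝ)`, along restrictions of homomorphisms with finite kernel of
linear algebraic groups. -/
def ProperUnionA (K : Type u) [Field K] (G : Type w) [Group G] : Prop :=
  ∃ (ι : Type w) (H : ι → Subgroup G) (n : ι → ℕ) (ρ : ∀ i, H i →* GL (Fin (n i)) K),
    (∀ g, ∃ i, g ∈ H i) ∧ (∀ i, PlaceProper (ρ i)) ∧
    ∀ i j, ∃ k, ProperLeA (ρ i) (ρ k) ∧ ProperLeA (ρ j) (ρ k)

theorem BddInA.refl {K : Type*} [Field K] {H : Type*} [Group H] {n : ℕ} (ρ : H →* GL (Fin n) K) :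
    BddInA ρ ρ :=
  fun _ _ R => ⟨R, fun _ h => h⟩

theorem BddInA.trans {K : Type*} [Field K] {H : Type*} [Group H] {n m l : ℕ}
    {ρ : H →* GL (Fin n) K} {σ : H →* GL (Fin m) K} {τ : H →* GL (Fin l) K} (h1 : BddInA ρ σ)
    (h2 : BddInA σ τ) : BddInA ρ τ := by
  intro v hv R
  obtain ⟨B, hB⟩ := h1 v hv R
  obtain ⟨C, hC⟩ := h2 v hv B
  exact ⟨C, fun h hh => hC h (hB h hh)⟩

theorem BddInA.comap {K : Type*} [Field K] {H H' : Type*} [Group H] [Group H'] {n m : ℕ}
    {ρ : H →* GL (Fin n) K} {σ : H →* GL (Fin m) K} (h : BddInA ρ σ) (f : H' →* H) :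
    BddInA (ρ.comp f) (σ.comp f) := by
  intro v hv R
  obtain ⟨B, hB⟩ := h v hv R
  exact ⟨B, fun h hh => hB (f h) hh⟩

/-- polynomial functions are bounded -/
theorem PolyIn.bddInA {K : Type*} [Field K] {H : Type*} [Group H] {n m : ℕ}
    {ρ : H →* GL (Fin n) K} {σ : H →* GL (Fin m) K} (h : PolyIn ρ σ) : BddInA ρ σ := by
  obtain ⟨P, hP⟩ := h.ent
  intro v _ R
  choose B hB0 hB using fun s => exists_bound_eval v (P s) R
  refine ⟨∑ s, B s, fun h hh s => ?_⟩
  rw [hP]
  exact (hB s _ hh).trans (Finset.single_le_sum (f := B) (fun s _ => hB0 s) (Finset.mem_univ s))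

/-- the entries of `σ h` are integral over the polynomials in the entries of `ρ h` and `(ρ h)⁻¹`, with
equations independent of `h` -/
theorem bddInA_of_integral {K : Type*} [Field K] {H : Type*} [Group H] {n m : ℕ}
    (ρ : H →* GL (Fin n) K) (σ : H →* GL (Fin m) K)
    (q : Fin m → Fin m → Polynomial (MvPolynomial ((Fin n × Fin n) ⊕ (Fin n × Fin n)) K))
    (hq : ∀ a b, (q a b).Monic)
    (hroot : ∀ h a b, ((q a b).map (MvPolynomial.eval (ent (ρ h)))).eval
      ((σ h : Matrix (Fin m) (Fin m) K) a b) = 0) : BddInA ρ σ := by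
  intro v _ R
  choose B hB0 hB using fun a b => exists_bound_root v (q a b) (hq a b) R
  have hsum : ∀ a b, B a b ≤ ∑ a', ∑ b', B a' b' := by
    intro a b
    have h3 : B a b ≤ ∑ b', B a b' :=
      Finset.single_le_sum (f := fun b' => B a b') (fun b' _ => hB0 a b') (Finset.mem_univ b)
    exact h3.trans (Finset.single_le_sum (f := fun a' => ∑ b', B a' b')
      (fun a' _ => Finset.sum_nonneg fun b' _ => hB0 a' b') (Finset.mem_univ a))
  refine ⟨∑ a', ∑ b', B a' b', ?_⟩
  intro h hh s
  rcases s with ⟨a, b⟩ | ⟨a, b⟩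
  · exact (hB a b _ hh _ (hroot h a b)).trans (hsum a b)
  · have h1 := hroot h⁻¹ a b
    rw [map_inv, map_inv] at h1
    refine (hB a b _ ?_ _ h1).trans (hsum a b)
    intro p
    rw [ent_inv]
    exact hh _

theorem PolyLe.properLeA {K : Type*} [Field K] {G : Type*} [Group G] {H H' : Subgroup G}
    {n m : ℕ} {ρ : H →* GL (Fin n) K} {ρ' : H' →* GL (Fin m) K} (h : PolyLe ρ ρ') :
    ProperLeA ρ ρ' := by
  obtain ⟨h, a, b⟩ := h
  exact ⟨h, a, PolyIn.bddInA b⟩

theorem ProperLeA.refl {K : Type*} [Field K] {G : Type*} [Group G] {H : Subgroup G} {n : ℕ}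
    (ρ : H →* GL (Fin n) K) : ProperLeA ρ ρ :=
  ⟨le_rfl, PolyIn.refl _, BddInA.refl _⟩

theorem ProperLeA.trans {K : Type*} [Field K] {G : Type*} [Group G] {H H' H'' : Subgroup G}
    {n m l : ℕ} {ρ : H →* GL (Fin n) K} {ρ' : H' →* GL (Fin m) K} {ρ'' : H'' →* GL (Fin l) K}
    (h1 : ProperLeA ρ ρ') (h2 : ProperLeA ρ' ρ'') : ProperLeA ρ ρ'' := by
  obtain ⟨h, a, b⟩ := h1
  obtain ⟨h', a', b'⟩ := h2
  exact ⟨h.trans h', a.trans (a'.comap (Subgroup.inclusion h)),
    BddInA.trans (b'.comap (Subgroup.inclusion h)) b⟩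

theorem thin_of_properUnionA {K : Type u} [Field K] {G : Type w} [Group G]
    (hG : ProperUnionA K G) (T : Finset G) : ∃ N, Thin (Subgroup.closure (T : Set G)) N := by
  classical
  obtain ⟨ι, H, n, ρ, hcov, hprop, hdir⟩ := hG
  have key : ∀ (S : Finset G) (i : ι), ∃ j, ProperLeA (ρ i) (ρ j) ∧ ∀ s ∈ S, s ∈ H j := by
    intro S i
    induction S using Finset.induction_on with
    | empty => exact ⟨i, ProperLeA.refl _, by simp⟩
    | insert a S _ ih =>
      obtain ⟨j, hij, hj⟩ := ih
      obtain ⟨k, hk⟩ := hcov a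
      obtain ⟨l, hjl, hkl⟩ := hdir j k
      refine ⟨l, hij.trans hjl, ?_⟩
      intro s hs
      rcases Finset.mem_insert.1 hs with rfl | hs
      · exact hkl.1 hk
      · exact hjl.1 (hj s hs)
  obtain ⟨i₀, _⟩ := hcov 1
  obtain ⟨i, _, hTi⟩ := key T i₀
  have hcl : ∀ h ∈ Subgroup.closure (T : Set G), h ∈ H i := fun h hh =>
    (Subgroup.closure_le (H i)).2 hTi hh
  let σ := (Fin (n i) × Fin (n i)) ⊕ (Fin (n i) × Fin (n i))
  let e : σ ≃ Fin (Fintype.card σ) := Fintype.equivFin σ
  obtain ⟨k, v, hv, hfin⟩ := hprop i T hTi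
  refine ⟨k * (Fintype.card σ * 2 + (Fintype.card σ * 2 + 1)), thin_of_local _ _ fun K' hK => ?_⟩
  obtain ⟨F, hF⟩ := hK
  obtain ⟨j, ⟨hij, hij1, hij2⟩, hSj⟩ := key (T ∪ F) i
  have hcS : Subgroup.closure ((T ∪ F : Finset G) : Set G) ≤ H j :=
    (Subgroup.closure_le (H j)).2 hSj
  have hKΓ : K' ≤ Subgroup.closure ((T ∪ F : Finset G) : Set G) := by
    rw [← hF]
    apply Subgroup.closure_mono
    rw [Finset.coe_union]
    exact Set.subset_union_right
  obtain ⟨P, hP⟩ := hij1.ent
  let y : Subgroup.closure ((T ∪ F : Finset G) : Set G) → Fin (Fintype.card σ) → K :=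
    fun g l => if hg : (g : G) ∈ H i then ent (ρ i ⟨g, hg⟩) (e.symm l) else 0
  have hy : ∀ (g : Subgroup.closure ((T ∪ F : Finset G) : Set G)) (hg : (g : G) ∈ H i) (s : σ),
      y g (e s) = ent (ρ i ⟨g, hg⟩) s := by
    intro g hg s
    simp only [y, dif_pos hg, Equiv.symm_apply_apply]
  have h1 : Thin ((Subgroup.closure (T : Set G)).subgroupOf
      (Subgroup.closure ((T ∪ F : Finset G) : Set G))) (k * (Fintype.card σ * 2 + (Fintype.card σ * 2 + 1))) := by
    refine thin_of_dataA' v hv _ y ?_ ((dbl (n j)).comp ((ρ j).comp (Subgroup.inclusion hcS)))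
      (fun a b => MvPolynomial.rename e
        (match finSumFinEquiv.symm a, finSumFinEquiv.symm b with
          | Sum.inl a, Sum.inl b => P (Sum.inl (a, b))
          | Sum.inr a, Sum.inr b => P (Sum.inr (b, a))
          | Sum.inl _, Sum.inr _ => 0
          | Sum.inr _, Sum.inl _ => 0)) ?_ ?_
    · intro B
      have h2 : ((fun h : Subgroup.closure ((T ∪ F : Finset G) : Set G) => (h : G)) ⁻¹'
          (Subtype.val '' {h : H i | (h : G) ∈ Subgroup.closure (T : Set G) ∧
            ∀ j s, v j (ent (ρ i h) s) ≤ B})).Finite :=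
        ((hfin B).image _).preimage (Subtype.val_injective.injOn)
      refine h2.subset ?_
      rintro ⟨h, hS⟩ ⟨hT, hB⟩
      rw [Subgroup.mem_subgroupOf] at hT
      refine ⟨⟨h, hcl h hT⟩, ⟨hT, fun j s => ?_⟩, rfl⟩
      rw [← hy ⟨h, hS⟩ (hcl h hT) s]
      exact hB j (e s)
    · rintro ⟨h, hS⟩ hT
      rw [Subgroup.mem_subgroupOf] at hT
      have hi := hcl h hT
      have hyh : (y ⟨h, hS⟩ ∘ e : σ → K) = ent (ρ i ⟨h, hi⟩) := funext fun s => hy ⟨h, hS⟩ hi s
      have hφ : ((dbl (n j)).comp ((ρ j).comp (Subgroup.inclusion hcS))) ⟨h, hS⟩ =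
          dbl (n j) (((ρ j).comp (Subgroup.inclusion hij)) ⟨h, hi⟩) := rfl
      rw [hφ]
      intro a b
      rw [MvPolynomial.eval_rename, hyh]
      obtain ⟨a, rfl⟩ := (finSumFinEquiv (m := n j) (n := n j)).surjective a
      obtain ⟨b, rfl⟩ := (finSumFinEquiv (m := n j) (n := n j)).surjective b
      rw [Equiv.symm_apply_apply, Equiv.symm_apply_apply]
      rcases a with a | a <;> rcases b with b | b
      · have h1 := dbl_pos (((ρ j).comp (Subgroup.inclusion hij)) ⟨h, hi⟩) (Sum.inl (a, b))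
        rw [hP] at h1
        exact h1
      · rw [dbl_apply]
        simp
      · rw [dbl_apply]
        simp
      · have h1 := dbl_pos (((ρ j).comp (Subgroup.inclusion hij)) ⟨h, hi⟩) (Sum.inr (b, a))
        rw [hP] at h1
        exact h1
    · intro c R
      obtain ⟨B, hB⟩ := hij2 (v c) (hv c) R
      refine ⟨B, ?_⟩
      rintro ⟨h, hS⟩ hT hR l
      rw [Subgroup.mem_subgroupOf] at hT
      have hi := hcl h hT
      have h1 := hy ⟨h, hS⟩ hi (e.symm l)
      rw [Equiv.apply_symm_apply] at h1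
      rw [h1]
      refine hB ⟨h, hi⟩ (fun s => ?_) _
      rw [← dbl_pos]
      exact hR _ _
  have h2 := h1.comap (Subgroup.inclusion hKΓ) (Subgroup.inclusion_injective hKΓ)
  have h3 : ((Subgroup.closure (T : Set G)).subgroupOf
      (Subgroup.closure ((T ∪ F : Finset G) : Set G))).comap (Subgroup.inclusion hKΓ) =
      (Subgroup.closure (T : Set G)).subgroupOf K' := by
    ext x
    simp only [Subgroup.mem_comap, Subgroup.mem_subgroupOf, Subgroup.coe_inclusion]
  rw [h3] at h2
  exact h2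

/-- The places suffice for homomorphisms with finite kernel on finitely generated subgroups, over fields
of characteristic `p` and over fields of algebraic numbers. -/
theorem placeProper_good {K : Type u} [Field K] (hK : GoodField K) {G : Type w} [Group G]
    {H : Subgroup G} {n : ℕ} (ρ : H →* GL (Fin n) K)
    (hker : ∀ T : Finset G, (∀ t ∈ T, t ∈ H) →
      {h : H | (h : G) ∈ Subgroup.closure (T : Set G) ∧ ρ h = 1}.Finite) : PlaceProper ρ := by
  classical
  intro T hT
  obtain ⟨E, hE⟩ := finite_of_ring ρ T hT (hker T hT)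
  obtain ⟨k, v, hv, hfin⟩ := exists_places_good hK E
  refine ⟨k, v, hv, fun B => ?_⟩
  refine (hE {x | ∀ j, v j x ≤ B} (hfin B)).subset ?_
  rintro h ⟨hh, hB⟩
  exact ⟨hh, fun s j => hB j s⟩

/-- the matrices `g` such that the entries of `g` and `g⁻¹` are bounded by `B` form a compact set -/
theorem isCompact_ent {K : Type*} [NormedField K] [ProperSpace K] (n : ℕ) (B : ℝ) :
    IsCompact {g : GL (Fin n) K | ∀ s, ‖ent g s‖ ≤ B} := by
  let C : Set (Matrix (Fin n) (Fin n) K) := {M | ∀ a b, ‖M a b‖ ≤ B}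
  have hC : IsCompact C := by
    have h1 : IsCompact (Set.univ.pi fun _ : Fin n => Set.univ.pi fun _ : Fin n =>
        Metric.closedBall (0 : K) B) :=
      isCompact_univ_pi fun _ => isCompact_univ_pi fun _ => isCompact_closedBall _ _
    have h2 : C = (Set.univ.pi fun _ : Fin n => Set.univ.pi fun _ : Fin n =>
        Metric.closedBall (0 : K) B) := by
      ext M
      constructor
      · intro hM a _ b _
        rw [mem_closedBall_zero_iff]
        exact hM a b
      · intro hM a b
        have := hM a (Set.mem_univ a) b (Set.mem_univ b)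
        rwa [mem_closedBall_zero_iff] at this
    rw [h2]
    exact h1
  have h3 := (Units.isClosedEmbedding_embedProduct (α := Matrix (Fin n) (Fin n) K)).isCompact_preimage
    (hC.prod (hC.image MulOpposite.continuous_op))
  have h4 : {g : GL (Fin n) K | ∀ s, ‖ent g s‖ ≤ B} =
      (Units.embedProduct (Matrix (Fin n) (Fin n) K)) ⁻¹' (C ×ˢ (MulOpposite.op '' C)) := by
    ext g
    constructor
    · intro hg
      exact ⟨fun a b => hg (Sum.inl (a, b)), _, fun a b => hg (Sum.inr (a, b)), rfl⟩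
    · rintro ⟨h1, M, h2, h3⟩ (⟨a, b⟩ | ⟨a, b⟩)
      · exact h1 a b
      · have h4 : M = ((g⁻¹ : GL (Fin n) K) : Matrix (Fin n) (Fin n) K) := MulOpposite.op_injective h3
        rw [h4] at h2
        exact h2 a b
  rw [h4]
  exact h3

/-- the usual absolute value of `ℂ` -/
theorem isPlace_complex : IsPlace (IsAbsoluteValue.toAbsoluteValue (norm : ℂ → ℝ)) :=
  Or.inr ⟨RingHom.id ℂ, fun _ => rfl⟩

/-- the usual absolute value of `ℝ` -/
theorem isPlace_real : IsPlace (IsAbsoluteValue.toAbsoluteValue (norm : ℝ → ℝ)) :=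
  Or.inr ⟨Complex.ofRealHom, fun x => (Complex.norm_real x).symm⟩

/-- The places suffice for homomorphisms with finite kernel and discrete image in `GL_n(K)`, where `K` is
the field `ℝ` or `ℂ` or another locally compact field whose absolute value is a place. -/
theorem placeProper_discrete {K : Type*} [NormedField K] [ProperSpace K]
    (hK : IsPlace (IsAbsoluteValue.toAbsoluteValue (norm : K → ℝ))) {G : Type*} [Group G]
    {H : Subgroup G} {n : ℕ} (ρ : H →* GL (Fin n) K) (hρ : (ρ.ker : Set H).Finite)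
    (hdisc : DiscreteTopology ρ.range) : PlaceProper ρ := by
  intro T _
  refine ⟨1, fun _ => IsAbsoluteValue.toAbsoluteValue (norm : K → ℝ), fun _ => hK, fun B => ?_⟩
  have h1 : IsClosed (ρ.range : Set (GL (Fin n) K)) := Subgroup.isClosed_of_discrete
  have h2 : ((ρ.range : Set (GL (Fin n) K)) ∩ {g | ∀ s, ‖ent g s‖ ≤ B}).Finite := by
    have h3 : IsCompact ((Subtype.val : ρ.range → GL (Fin n) K) ⁻¹' {g | ∀ s, ‖ent g s‖ ≤ B}) :=
      (h1.isClosedEmbedding_subtypeVal).isCompact_preimage (isCompact_ent n B)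
    have h4 := (h3.finite_of_discrete).image Subtype.val
    refine h4.subset ?_
    rintro g ⟨hg, hgB⟩
    exact ⟨⟨g, hg⟩, hgB, rfl⟩
  refine Set.Finite.of_finite_fibers (fun h : H => ρ h) (h2.subset ?_) ?_
  · rintro _ ⟨h, ⟨_, hh⟩, rfl⟩
    exact ⟨⟨h, rfl⟩, fun s => hh 0 s⟩
  · rintro _ ⟨h₀, _, rfl⟩
    refine (hρ.image (fun a : H => h₀ * a)).subset ?_
    rintro h ⟨_, hhh⟩
    refine ⟨h₀⁻¹ * h, ?_, by simp⟩
    have h5 : ρ h = ρ h₀ := hhh
    rw [SetLike.mem_coe, MonoidHom.mem_ker, map_mul, map_inv, h5, inv_mul_cancel]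

theorem NonarchProper.placeProper {K : Type*} [Field K] {G : Type*} [Group G] {H : Subgroup G}
    {n : ℕ} {ρ : H →* GL (Fin n) K} (h : NonarchProper ρ) : PlaceProper ρ := by
  intro T hT
  obtain ⟨k, v, hv, hfin⟩ := h T hT
  exact ⟨k, v, fun j => Or.inl (hv j), hfin⟩

theorem AlgUnion.properUnionA {K : Type u} [Field K] {G : Type w} [Group G]
    (h : AlgUnion K G) : ProperUnionA K G := by
  obtain ⟨ι, H, n, ρ, hcov, hprop, hdir⟩ := h
  refine ⟨ι, H, n, ρ, hcov, fun i => NonarchProper.placeProper (hprop i), fun i j => ?_⟩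
  obtain ⟨k, hi, hj⟩ := hdir i j
  exact ⟨k, PolyLe.properLeA hi, PolyLe.properLeA hj⟩

/-- the infinite braid group -/
theorem properUnionA_braid : ∃ (K : Type) (_ : Field K), ProperUnionA K BInf := by
  obtain ⟨K, _, hK⟩ := exists_algUnion
  exact ⟨K, inferInstance, AlgUnion.properUnionA hK⟩

end Pool.Agent.Helper58.AR
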