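import Pool.Agent.Helper58.AR.Defs
import Pool.Agent.Helper58.AR.UnitsA
import Pool.Agent.Helper58.AR.TowerA
import Pool.Agent.Helper58.GI.Assemble

/-!
AR-20. The criterion in the form used in the statement of `MP_2c6f0d_gt.LinearUnions`.
-/

set_option autoImplicit false

namespace Pool.Agent.Helper58.LU

open Pool.Agent.Helper65.TH Pool.Agent.Helper61.Apc Pool.Agent.Helper58.GI Pool.Agent.Helper58.AR

universe u v w

private theorem map_eval_poly {K L : Type*} [Field K] [Field L] (σ : K →+* L) {d : ℕ}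
    (y : Fin d → K) (P : MvPolynomial (Fin d) K) :
    σ (MvPolynomial.eval y P) =
      MvPolynomial.eval (fun l => σ (y l)) (MvPolynomial.map σ P) := by
  rw [MvPolynomial.eval_map]
  have h := MvPolynomial.eval₂_comp_left σ (RingHom.id K) y P
  rw [RingHom.comp_id] at h
  exact h

/-- the local theorem for a place -/
private theorem local_place {K : Type u} [Field K] {v : AbsoluteValue K ℝ} (hv : Place v)
    {Γ : Type*} [Group Γ] {m d : ℕ} (φ : Γ →* GL (Fin m) K) (L : Subgroup Γ)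
    (y : Γ → Fin d → K) (P : Fin m → Fin m → MvPolynomial (Fin d) K)
    (hP : ∀ h ∈ L, ∀ a b, (φ h : Matrix (Fin m) (Fin m) K) a b = MvPolynomial.eval (y h) (P a b))
    (S : Finset Γ) (ε : ℝ) (hε : 0 < ε) :
    ∃ (g : Γ → Fin (d * 2 + (d * 2 + 1)) → ℝ) (ρ : ℝ), (∀ x, ∀ s ∈ S, Near (g (x * s)) (g x) ε) ∧
      ∀ x z, Chain {s | s ∈ S ∧ s ∈ L} (fun b => Near (g b) (g x) 1) x z →
        ∀ a b, v ((φ (x⁻¹ * z) : Matrix (Fin m) (Fin m) K) a b) ≤ ρ := by
  classical
  rcases hv with hv | ⟨σ, hσ⟩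
  · obtain ⟨g, ρ, hg, hρ⟩ := local_light hv φ L y P hP S ε hε
    refine ⟨fun x l => if h : (l : ℕ) < d then g x ⟨l, h⟩ else 0, ρ, ?_, ?_⟩
    · intro x s hs l
      by_cases hl : (l : ℕ) < d
      · simp only [dif_pos hl]
        exact hg x s hs ⟨l, hl⟩
      · simp only [dif_neg hl, sub_self, abs_zero]
        exact hε.le
    · intro x z hxz
      refine hρ x z (hxz.mono (Set.Subset.refl _) ?_)
      intro b hb l
      have h1 := hb ⟨(l : ℕ), by have := l.2; omega⟩
      simp only [dif_pos l.2] at h1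
      exact h1
  · obtain ⟨g, ρ, hg, hρ⟩ := local_light_complex ((Matrix.GeneralLinearGroup.map σ).comp φ) L
      (fun h l => σ (y h l)) (fun a b => MvPolynomial.map σ (P a b)) (by
        intro h hh a b
        rw [← map_eval_poly, ← hP h hh a b]
        rfl) S ε hε
    refine ⟨g, ρ, hg, ?_⟩
    intro x z hxz a b
    rw [hσ]
    exact hρ x z hxz a b

/-- thinness in one finitely generated group -/
private theorem thin_of_data {K : Type u} [Field K] {d n m : ℕ} (v : Fin n → AbsoluteValue K ℝ)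
    (hv : ∀ i, Place (v i)) {Γ : Type*} [Group Γ] (L : Subgroup Γ)
    (y : Γ → Fin d → K) (hfin : ∀ B : ℝ, {h : Γ | h ∈ L ∧ ∀ i l, v i (y h l) ≤ B}.Finite)
    (φ : Γ →* GL (Fin m) K) (P : Fin m → Fin m → MvPolynomial (Fin d) K)
    (hP : ∀ h ∈ L, ∀ a b, (φ h : Matrix (Fin m) (Fin m) K) a b = MvPolynomial.eval (y h) (P a b))
    (hQ : ∀ i, ∀ R : ℝ, ∃ B : ℝ, ∀ h ∈ L,
      (∀ a b, v i ((φ h : Matrix (Fin m) (Fin m) K) a b) ≤ R) → ∀ l, v i (y h l) ≤ B) :
    Thin L (n * (d * 2 + (d * 2 + 1))) := by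
  classical
  intro F ε hε
  have hloc : ∀ i : Fin n, ∃ (g : Γ → Fin (d * 2 + (d * 2 + 1)) → ℝ) (ρ : ℝ),
      (∀ x, ∀ s ∈ F, Near (g (x * s)) (g x) ε) ∧
      ∀ x z, Chain {s | s ∈ F ∧ s ∈ L} (fun b => Near (g b) (g x) 1) x z →
        ∀ a b, v i ((φ (x⁻¹ * z) : Matrix (Fin m) (Fin m) K) a b) ≤ ρ := fun i =>
    local_place (hv i) φ L y P hP F ε hε
  choose g ρ hg hρ using hloc
  choose B hB using fun i : Fin n => hQ i (ρ i)
  refine ⟨fun x p => g (finProdFinEquiv.symm p).1 x (finProdFinEquiv.symm p).2,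
    (hfin (∑ i, |B i|)).toFinset, ?_, ?_⟩
  · intro x s hs p
    exact hg _ x s hs _
  · intro x z hxz
    rw [Set.Finite.mem_toFinset]
    have hL : x⁻¹ * z ∈ L := hxz.mem_subgroup L (fun s hs => hs.2)
    refine ⟨hL, fun i l => ?_⟩
    have h1 : ∀ a b, v i ((φ (x⁻¹ * z) : Matrix (Fin m) (Fin m) K) a b) ≤ ρ i := by
      refine hρ i x z (hxz.mono (Set.Subset.refl _) ?_)
      intro b hb j
      have h2 := hb (finProdFinEquiv (i, j))
      simp only [Equiv.symm_apply_apply] at h2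
      exact h2
    refine (hB i _ hL h1 l).trans ((le_abs_self _).trans ?_)
    exact Finset.single_le_sum (f := fun i' => |B i'|) (fun i' _ => abs_nonneg _)
      (Finset.mem_univ i)

theorem thin_of_linearOver {G : Type w} [Group G] (T : Finset G) (h : LinearOver.{u} T) :
    ∃ N, Thin (Subgroup.closure (T : Set G)) N := by
  classical
  obtain ⟨K, _, d, n, y, v, hv, hfin, hS⟩ := h
  refine ⟨n * (d * 2 + (d * 2 + 1)), thin_of_local _ _ fun K' hK => ?_⟩
  obtain ⟨F, hF⟩ := hK
  obtain ⟨m, φ, hP, hQ⟩ := hS (T ∪ F) Finset.subset_union_left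
  choose P hP using hP
  have hKΓ : K' ≤ Subgroup.closure ((T ∪ F : Finset G) : Set G) := by
    rw [← hF]
    apply Subgroup.closure_mono
    rw [Finset.coe_union]
    exact Set.subset_union_right
  have h1 : Thin ((Subgroup.closure (T : Set G)).subgroupOf
      (Subgroup.closure ((T ∪ F : Finset G) : Set G))) (n * (d * 2 + (d * 2 + 1))) := by
    refine thin_of_data v hv _ (fun h => y h) ?_ φ P ?_ ?_
    · intro B
      have h2 := (hfin B).preimage
        (f := fun h : Subgroup.closure ((T ∪ F : Finset G) : Set G) => (h : G))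
        (Subtype.val_injective.injOn)
      refine h2.subset ?_
      rintro x ⟨hx1, hx2⟩
      rw [Subgroup.mem_subgroupOf] at hx1
      exact ⟨hx1, hx2⟩
    · intro h hh a b
      rw [Subgroup.mem_subgroupOf] at hh
      exact hP a b h hh
    · intro i R
      obtain ⟨C, hC⟩ := hQ i R
      refine ⟨C, fun h hh => ?_⟩
      rw [Subgroup.mem_subgroupOf] at hh
      exact hC h hh
  have h2 := h1.comap (Subgroup.inclusion hKΓ) (Subgroup.inclusion_injective hKΓ)
  have h3 : ((Subgroup.closure (T : Set G)).subgroupOf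
      (Subgroup.closure ((T ∪ F : Finset G) : Set G))).comap (Subgroup.inclusion hKΓ) =
      (Subgroup.closure (T : Set G)).subgroupOf K' := by
    ext x
    simp only [Subgroup.mem_comap, Subgroup.mem_subgroupOf, Subgroup.coe_inclusion]
  rw [h3] at h2
  exact h2

theorem thin_of_inUnits {G : Type w} [Group G] (h : InUnits.{u, w} G) (T : Finset G) :
    ∃ N, Thin (Subgroup.closure (T : Set G)) N := by
  obtain ⟨K, _, A, _, _, hK, hA, f, hf⟩ := h
  exact thin_of_injective f hf (fun T' => thin_of_polyOverA T' (polyOverA_units hK hA T')) T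

theorem thin_of_uniformOver {G : Type w} [Group G] (T : Finset G)
    (h : Pool.Agent.Helper58.LU.UniformOver T) :
    ∃ N, Thin (Subgroup.closure (T : Set G)) N := by
  obtain ⟨t, ht⟩ := h
  refine Pool.Agent.Helper65.TH.thin_of_uniform T ⟨t, fun S hS => ?_⟩
  obtain ⟨ℓ, h1, h2, h3, h4⟩ := ht S hS
  exact ⟨ℓ, ⟨h1, h2⟩, h3, h4⟩

end Pool.Agent.Helper58.LU
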