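import Pool.Agent.Helper58.GI.Proj

/-!
AR-11. A linear map to `ℝ ^ d` which controls all vectors satisfying small relations up to an error.

Proof. Let `𝒥` be the finite set of the injective `J : Fin (d + 1) → Fin m` and `a` a choice of a nonzero
`n : Fin (d + 1) → ℤ` with entries in `[-E, E]` for every `J ∈ 𝒥` (finitely many `a`). The linear map
`A_a : w ↦ (∑ i, n i * w (J i))_J` has a linear generalized inverse `B_a` with `A_a B_a A_a = A_a`
(choose a complement of the kernel, or `LinearMap.exists_leftInverse_of_injective` on the quotient), with a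
bound `|B_a y| ≤ C_a |y|` (finite dimension); let `C'` be the largest `C_a`. For `w` as in the statement, with
`a` the choice given by the hypothesis, `w' = w - B_a (A_a w)` satisfies the exact relations and
`|w - w'| ≤ C' κ`. Apply `exists_proj` (`Helper58/GI/Proj.lean`) to `w'` with `η' = η + c_π C' κ`, `c_π` a bound for
`π` (`linear_bound` in `Helper58/GI/Class.lean`).
-/

set_option autoImplicit false

namespace Pool.Agent.Helper58.AR

private theorem exists_gen_inv {V W : Type*} [AddCommGroup V] [Module ℝ V] [AddCommGroup W]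
    [Module ℝ W] (A : V →ₗ[ℝ] W) : ∃ B : W →ₗ[ℝ] V, ∀ v, A (B (A v)) = A v := by
  obtain ⟨s, hs⟩ := A.rangeRestrict.exists_rightInverse_of_surjective
    (LinearMap.range_rangeRestrict A)
  obtain ⟨B, hB⟩ := LinearMap.exists_extend s
  refine ⟨B, fun v => ?_⟩
  have h1 : B (A v) = s (A.rangeRestrict v) := by
    rw [← hB]
    rfl
  have h2 : A.rangeRestrict (s (A.rangeRestrict v)) = A.rangeRestrict v := by
    have := LinearMap.congr_fun hs (A.rangeRestrict v)
    exact this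
  rw [h1]
  exact congrArg Subtype.val h2

theorem exists_proj_approx (m d E : ℕ) : ∃ (π : (Fin m → ℝ) →ₗ[ℝ] (Fin d → ℝ)) (C : ℝ), 0 ≤ C ∧
    ∀ (w : Fin m → ℝ) (κ : ℝ), 0 ≤ κ →
      (∀ J : Fin (d + 1) → Fin m, Function.Injective J → ∃ n : Fin (d + 1) → ℤ, n ≠ 0 ∧
        (∀ i, |n i| ≤ (E : ℤ)) ∧ |∑ i, (n i : ℝ) * w (J i)| ≤ κ) →
      ∀ η : ℝ, 0 ≤ η → (∀ l, |π w l| ≤ η) → ∀ j, |w j| ≤ C * (η + κ) := by
  classical
  obtain ⟨π, C, hC, h⟩ := Pool.Agent.Helper58.GI.exists_proj m d E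
  let JJ : Type := {J : Fin (d + 1) → Fin m // Function.Injective J}
  let I : Type := JJ → Fin (d + 1) → (Finset.Icc (-(E : ℤ)) E)
  have hI : Finite I := inferInstance
  cases nonempty_fintype I
  let L : I → (Fin m → ℝ) →ₗ[ℝ] (JJ → ℝ) := fun a =>
    LinearMap.pi fun J => ∑ i, ((a J i : ℤ) : ℝ) • LinearMap.proj (J.1 i)
  have hL : ∀ a w J, L a w J = ∑ i, ((a J i : ℤ) : ℝ) * w (J.1 i) := by
    intro a w J
    simp [L, LinearMap.sum_apply]
  have hB : ∀ a, ∃ B : (JJ → ℝ) →ₗ[ℝ] (Fin m → ℝ), ∀ v, L a (B (L a v)) = L a v :=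
    fun a => exists_gen_inv (L a)
  choose B hB using hB
  let CB : ℝ := ∑ a, ‖LinearMap.toContinuousLinearMap (B a)‖
  let cp : ℝ := ‖LinearMap.toContinuousLinearMap π‖
  have hCB : 0 ≤ CB := Finset.sum_nonneg fun a _ => norm_nonneg _
  have hcp : 0 ≤ cp := norm_nonneg _
  refine ⟨π, C * (1 + cp * CB) + CB, by positivity, ?_⟩
  intro w κ hκ hw η hη hπ j
  have hw' : ∀ J : JJ, ∃ n : Fin (d + 1) → ℤ, n ≠ 0 ∧
        (∀ i, |n i| ≤ (E : ℤ)) ∧ |∑ i, (n i : ℝ) * w (J.1 i)| ≤ κ := fun J => hw J.1 J.2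
  choose n hn0 hnE hnw using hw'
  let a : I := fun J i => ⟨n J i, by
    rw [Finset.mem_Icc]
    exact abs_le.1 (hnE J i)⟩
  have hLa : ‖L a w‖ ≤ κ := (pi_norm_le_iff_of_nonneg hκ).2 fun J => by
    rw [Real.norm_eq_abs, hL]
    exact hnw J
  have hBa : ‖B a (L a w)‖ ≤ CB * κ := by
    have h1 : ‖B a (L a w)‖ ≤ ‖LinearMap.toContinuousLinearMap (B a)‖ * ‖L a w‖ :=
      (LinearMap.toContinuousLinearMap (B a)).le_opNorm (L a w)
    have h2 : ‖LinearMap.toContinuousLinearMap (B a)‖ ≤ CB :=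
      Finset.single_le_sum (f := fun a => ‖LinearMap.toContinuousLinearMap (B a)‖)
        (fun _ _ => norm_nonneg _) (Finset.mem_univ a)
    calc ‖B a (L a w)‖ ≤ ‖LinearMap.toContinuousLinearMap (B a)‖ * ‖L a w‖ := h1
      _ ≤ CB * κ := mul_le_mul h2 hLa (norm_nonneg _) hCB
  have hπB : ∀ l, |π (B a (L a w)) l| ≤ cp * (CB * κ) := by
    intro l
    have h1 : ‖π (B a (L a w))‖ ≤ cp * ‖B a (L a w)‖ :=
      (LinearMap.toContinuousLinearMap π).le_opNorm (B a (L a w))
    have h2 : |π (B a (L a w)) l| ≤ ‖π (B a (L a w))‖ := by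
      rw [← Real.norm_eq_abs]
      exact norm_le_pi_norm (π (B a (L a w))) l
    exact h2.trans (h1.trans (mul_le_mul_of_nonneg_left hBa hcp))
  have hex : ∀ J : Fin (d + 1) → Fin m, Function.Injective J →
      Pool.Agent.Helper58.GI.SmallRel E J (w - B a (L a w)) := by
    intro J hJ
    refine ⟨n ⟨J, hJ⟩, hn0 ⟨J, hJ⟩, fun i => hnE ⟨J, hJ⟩ i, ?_⟩
    have h1 : L a (w - B a (L a w)) ⟨J, hJ⟩ = 0 := by
      rw [map_sub, hB, sub_self]
      rfl
    rw [hL] at h1
    exact h1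
  have hη' : 0 ≤ η + cp * (CB * κ) := by positivity
  have h3 := h (w - B a (L a w)) hex (η + cp * (CB * κ)) hη' (fun l => by
    rw [map_sub, Pi.sub_apply]
    exact (abs_sub _ _).trans (add_le_add (hπ l) (hπB l))) j
  have h4 : |B a (L a w) j| ≤ CB * κ := by
    refine le_trans ?_ hBa
    rw [← Real.norm_eq_abs]
    exact norm_le_pi_norm (B a (L a w)) j
  have h5 : w j = (w - B a (L a w)) j + B a (L a w) j := by
    rw [Pi.sub_apply]
    ring
  have h6 : |w j| ≤ |(w - B a (L a w)) j| + |B a (L a w) j| := by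
    conv_lhs => rw [h5]
    exact abs_add_le _ _
  have h7 : 0 ≤ C * η * (cp * CB) := by positivity
  have h8 : 0 ≤ C * κ := by positivity
  have h9 : 0 ≤ CB * η := by positivity
  nlinarith [h3, h4, h6, h7, h8, h9]

end Pool.Agent.Helper58.AR
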