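import Pool.Agent.Helper58.AR.LQ

/-!
AR-2c. Multiplication on the right by bounded matrices.

Proofs. `X = b * κ`, `X * s = b' * κ'`; `b' = b * c` with `c = κ * s * κ'ᵀ` and `b = b' * c'` with
`c' = κ' * s' * κᵀ`; the entries of orthogonal matrices have absolute value at most `1`, so the entries of `c`, `c'`
are at most `m * m * τ`; `c = b⁻¹ * b'` and `c' = b'⁻¹ * b` are lower triangular and inverse to each other,
`c i i * c' i i = 1`, `b' i i = b i i * c i i`. `na_step`: `e i j = b i i * c i j / (c j j * b j j)`.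
`bound_of_parts`: `X * h = b' * κ'`, `b' = b * c` with `c i j = e i j * b' j j / b i i`,
`|c i j| ≤ A * exp R`, and `h = κᵀ * c * κ'`.
-/

set_option autoImplicit false

namespace Pool.Agent.Helper58.AR

variable {m : ℕ}

private theorem orth_bd {κ : Matrix (Fin m) (Fin m) ℝ} (h : κ * κ.transpose = 1) (i j : Fin m) :
    |κ i j| ≤ 1 := by
  have h1 := congrFun (congrFun h i) i
  rw [Matrix.mul_apply, Matrix.one_apply_eq] at h1
  simp only [Matrix.transpose_apply] at h1
  have h2 : κ i j * κ i j ≤ ∑ l, κ i l * κ i l :=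
    Finset.single_le_sum (f := fun l => κ i l * κ i l) (fun l _ => mul_self_nonneg _) (Finset.mem_univ j)
  rw [h1] at h2
  exact abs_le_one_iff_mul_self_le_one.mpr h2

private theorem orth_bd' {κ : Matrix (Fin m) (Fin m) ℝ} (h : κ * κ.transpose = 1) (i j : Fin m) :
    |κ.transpose i j| ≤ 1 := orth_bd h j i

private theorem low_of_mul {b c d : Matrix (Fin m) (Fin m) ℝ} (hb : ∀ i j, i < j → b i j = 0)
    (hb0 : ∀ i, 0 < b i i) (hd : ∀ i j, i < j → d i j = 0) (h : b * c = d) :
    (∀ i j, i < j → c i j = 0) ∧ ∀ i, d i i = b i i * c i i := by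
  have hlow : ∀ k : ℕ, ∀ i j : Fin m, (i : ℕ) = k → i < j → c i j = 0 := by
    intro k
    induction k using Nat.strong_induction_on with
    | _ k ih =>
      intro i j hi hij
      have h1 : ∑ l, b i l * c l j = 0 := by
        rw [← Matrix.mul_apply, h]
        exact hd i j hij
      have h2 : ∑ l, b i l * c l j = b i i * c i j := by
        refine Finset.sum_eq_single i ?_ (fun h => absurd (Finset.mem_univ i) h)
        intro l _ hl
        rcases lt_or_gt_of_ne hl with h3 | h3
        · have h4 : (l : ℕ) < (i : ℕ) := h3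
          rw [ih l (by omega) l j rfl (h3.trans hij), mul_zero]
        · rw [hb i l h3, zero_mul]
      rw [h2] at h1
      exact (mul_eq_zero.mp h1).resolve_left (hb0 i).ne'
  refine ⟨fun i j hij => hlow i i j rfl hij, fun i => ?_⟩
  rw [← h, Matrix.mul_apply]
  refine Finset.sum_eq_single i ?_ (fun h => absurd (Finset.mem_univ i) h)
  intro l _ hl
  rcases lt_or_gt_of_ne hl with h3 | h3
  · rw [hlow l l i rfl h3, mul_zero]
  · rw [hb i l h3, zero_mul]

private theorem conj_bd {κ s κ' : Matrix (Fin m) (Fin m) ℝ} {τ : ℝ} (h : ∀ i j, |κ i j| ≤ 1)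
    (hs : ∀ i j, |s i j| ≤ τ) (h' : ∀ i j, |κ' i j| ≤ 1) (i j : Fin m) :
    |(κ * s * κ') i j| ≤ m * m * τ := by
  have h1 : ∀ i j, |(κ * s) i j| ≤ m * (1 * τ) := mul_bound h hs
  have h2 := mul_bound h1 h' i j
  calc |(κ * s * κ') i j| ≤ m * (m * (1 * τ) * 1) := h2
    _ = m * m * τ := by ring

private theorem step_aux (X s s' : Matrix (Fin m) (Fin m) ℝ) (hX : IsUnit X.det) (hs : s * s' = 1) {τ : ℝ}
    (h1 : ∀ i j, |s i j| ≤ τ) (h2 : ∀ i j, |s' i j| ≤ τ) :
    ∃ c c' : Matrix (Fin m) (Fin m) ℝ, lqb (X * s) = lqb X * c ∧ (∀ i j, i < j → c i j = 0) ∧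
      (∀ i, 0 < lqb X i i) ∧ (∀ i, 0 < lqb (X * s) i i) ∧ (∀ i, lqb (X * s) i i = lqb X i i * c i i) ∧
      (∀ i, lqb X i i = lqb (X * s) i i * c' i i) ∧ (∀ i j, |c i j| ≤ m * m * τ) ∧
      ∀ i j, |c' i j| ≤ m * m * τ := by
  have hsu : IsUnit s.det := by
    have h3 : s.det * s'.det = 1 := by rw [← Matrix.det_mul, hs, Matrix.det_one]
    exact IsUnit.of_mul_eq_one _ h3
  have hXs : IsUnit (X * s).det := by
    rw [Matrix.det_mul]
    exact hX.mul hsu
  obtain ⟨κ, hκ⟩ := lqb_spec X hX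
  obtain ⟨κ', hκ'⟩ := lqb_spec (X * s) hXs
  have e1 : lqb X * (κ * s * κ'.transpose) = lqb (X * s) := by
    rw [← Matrix.mul_assoc, ← Matrix.mul_assoc, ← hκ.eq]
    conv_lhs => rw [hκ'.eq]
    rw [Matrix.mul_assoc, hκ'.orth, Matrix.mul_one]
  have e2 : lqb (X * s) * (κ' * s' * κ.transpose) = lqb X := by
    rw [← Matrix.mul_assoc, ← Matrix.mul_assoc, ← hκ'.eq, Matrix.mul_assoc X s s', hs, Matrix.mul_one]
    conv_lhs => rw [hκ.eq]
    rw [Matrix.mul_assoc, hκ.orth, Matrix.mul_one]
  have l1 := low_of_mul hκ.low hκ.pos hκ'.low e1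
  have l2 := low_of_mul hκ'.low hκ'.pos hκ.low e2
  exact ⟨_, _, e1.symm, l1.1, hκ.pos, hκ'.pos, l1.2, l2.2,
    conj_bd (orth_bd hκ.orth) h1 (orth_bd' hκ'.orth), conj_bd (orth_bd hκ'.orth) h2 (orth_bd' hκ.orth)⟩

/-- right multiplication by a bounded matrix: the diagonal part -/
theorem la_step (X s s' : Matrix (Fin m) (Fin m) ℝ) (hX : IsUnit X.det) (hs : s * s' = 1) {τ : ℝ}
    (hτ : 1 ≤ τ) (h1 : ∀ i j, |s i j| ≤ τ) (h2 : ∀ i j, |s' i j| ≤ τ) (i : Fin m) :
    |la (X * s) i - la X i| ≤ Real.log (m * m * τ) := by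
  obtain ⟨c, c', -, -, p1, p2, d1, d2, b1, b2⟩ := step_aux X s s' hX hs h1 h2
  have hc : 0 < c i i := by
    have := p2 i
    rw [d1 i] at this
    exact (mul_pos_iff_of_pos_left (p1 i)).mp this
  have hc' : 0 < c' i i := by
    have := p1 i
    rw [d2 i] at this
    exact (mul_pos_iff_of_pos_left (p2 i)).mp this
  have e1 : la (X * s) i - la X i = Real.log (c i i) := by
    unfold la
    rw [d1 i, Real.log_mul (p1 i).ne' hc.ne']
    ring
  have e2 : la X i - la (X * s) i = Real.log (c' i i) := by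
    unfold la
    conv_lhs => rw [d2 i, Real.log_mul (p2 i).ne' hc'.ne']
    ring
  have u1 : Real.log (c i i) ≤ Real.log (m * m * τ) :=
    Real.log_le_log hc ((le_abs_self _).trans (b1 i i))
  have u2 : Real.log (c' i i) ≤ Real.log (m * m * τ) :=
    Real.log_le_log hc' ((le_abs_self _).trans (b2 i i))
  rw [abs_le]
  constructor
  · linarith
  · linarith

/-- right multiplication by a bounded matrix: the unitriangular part -/
theorem na_step (X s s' : Matrix (Fin m) (Fin m) ℝ) (hX : IsUnit X.det) (hs : s * s' = 1) {τ : ℝ}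
    (hτ : 1 ≤ τ) (h1 : ∀ i j, |s i j| ≤ τ) (h2 : ∀ i j, |s' i j| ≤ τ) :
    ∃ e : Matrix (Fin m) (Fin m) ℝ, Uni e ∧ na (X * s) = na X * e ∧
      ∀ i j, |e i j| ≤ (m * m * τ) ^ 2 * Real.exp (la X i - la X j) := by
  obtain ⟨c, c', e1, l1, p1, p2, d1, d2, b1, b2⟩ := step_aux X s s' hX hs h1 h2
  refine ⟨Matrix.of fun i j => lqb X i i * c i j / lqb (X * s) j j, ⟨?_, ?_⟩, ?_, ?_⟩
  · intro i j hij
    rw [Matrix.of_apply, l1 i j hij, mul_zero, zero_div]
  · intro i
    rw [Matrix.of_apply, ← d1 i, div_self (p2 i).ne']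
  · ext i j
    rw [Matrix.mul_apply]
    unfold na
    simp only [Matrix.of_apply]
    have h3 : lqb (X * s) i j = ∑ l, lqb X i l * c l j := by
      rw [e1, Matrix.mul_apply]
    rw [h3, Finset.sum_div]
    refine Finset.sum_congr rfl fun l _ => ?_
    have h4 := (p1 l).ne'
    have h5 := (p2 j).ne'
    field_simp
  · intro i j
    rw [Matrix.of_apply]
    have hc' : 0 < c' j j := by
      have := p1 j
      rw [d2 j] at this
      exact (mul_pos_iff_of_pos_left (p2 j)).mp this
    have h3 : lqb X i i * c i j / lqb (X * s) j j = c i j * c' j j * (lqb X i i / lqb X j j) := by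
      have h4 := (p1 j).ne'
      have h5 := (p2 j).ne'
      have h6 : lqb X j j = lqb (X * s) j j * c' j j := d2 j
      rw [h6]
      have h7 := hc'.ne'
      field_simp
    have h4 : lqb X i i / lqb X j j = Real.exp (la X i - la X j) := by
      unfold la
      rw [Real.exp_sub, Real.exp_log (p1 i), Real.exp_log (p1 j)]
    rw [h3, h4, abs_mul, Real.abs_exp, abs_mul]
    refine mul_le_mul_of_nonneg_right ?_ (Real.exp_pos _).le
    rw [pow_two]
    exact mul_le_mul (b1 i j) (b2 j j) (abs_nonneg _) ((abs_nonneg _).trans (b1 i j))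

/-- a matrix is bounded if its decomposition changes by a bounded amount: if `X h = X'`, the
logarithms change by at most `R` and `na X' = na X * e` with `e` bounded relative to the diagonal
part, then `h` is bounded -/
theorem bound_of_parts (m : ℕ) (R A : ℝ) : ∃ ρ : ℝ, ∀ X h e : Matrix (Fin m) (Fin m) ℝ,
    IsUnit X.det → IsUnit h.det → (∀ i, |la (X * h) i - la X i| ≤ R) → na (X * h) = na X * e →
    (∀ i j, |e i j| ≤ A * Real.exp (la X i - la X j)) → ∀ i j, |h i j| ≤ ρ := by
  refine ⟨m * m * (A * Real.exp R), ?_⟩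
  intro X h e hX hh hla hna he i0 j0
  have hA : 0 ≤ A := by
    have h1 := (abs_nonneg _).trans (he i0 j0)
    exact nonneg_of_mul_nonneg_left h1 (Real.exp_pos _)
  have hXh : IsUnit (X * h).det := by
    rw [Matrix.det_mul]
    exact hX.mul hh
  obtain ⟨κ, hκ⟩ := lqb_spec X hX
  obtain ⟨κ', hκ'⟩ := lqb_spec (X * h) hXh
  have e1 : lqb X * (κ * h * κ'.transpose) = lqb (X * h) := by
    rw [← Matrix.mul_assoc, ← Matrix.mul_assoc, ← hκ.eq]
    conv_lhs => rw [hκ'.eq]
    rw [Matrix.mul_assoc, hκ'.orth, Matrix.mul_one]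
  have e2 : lqb X * (Matrix.of fun i j => e i j * lqb (X * h) j j / lqb X i i) = lqb (X * h) := by
    ext i j
    rw [Matrix.mul_apply]
    have h1 := congrFun (congrFun hna i) j
    rw [Matrix.mul_apply] at h1
    unfold na at h1
    simp only [Matrix.of_apply] at h1 ⊢
    rw [div_eq_iff (hκ'.pos j).ne', Finset.sum_mul] at h1
    rw [h1]
    refine Finset.sum_congr rfl fun l _ => ?_
    ring
  have hbu : IsUnit (lqb X).det := by
    have h1 : X.det = (lqb X).det * κ.det := by
      rw [← Matrix.det_mul, ← hκ.eq]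
    rw [h1] at hX
    exact isUnit_of_mul_isUnit_left hX
  have e3 : κ * h * κ'.transpose = Matrix.of fun i j => e i j * lqb (X * h) j j / lqb X i i := by
    have h1 := e1.trans e2.symm
    have h2 : (lqb X)⁻¹ * (lqb X * (κ * h * κ'.transpose)) =
        (lqb X)⁻¹ * (lqb X * Matrix.of fun i j => e i j * lqb (X * h) j j / lqb X i i) := by rw [h1]
    rwa [Matrix.nonsing_inv_mul_cancel_left _ _ hbu, Matrix.nonsing_inv_mul_cancel_left _ _ hbu] at h2
  have hb : ∀ i j, |(κ * h * κ'.transpose) i j| ≤ A * Real.exp R := by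
    intro i j
    rw [e3, Matrix.of_apply]
    have h1 : lqb (X * h) j j = Real.exp (la (X * h) j) := by
      unfold la
      rw [Real.exp_log (hκ'.pos j)]
    have h2 : lqb X i i = Real.exp (la X i) := by
      unfold la
      rw [Real.exp_log (hκ.pos i)]
    rw [h1, h2, abs_div, abs_mul, Real.abs_exp, Real.abs_exp, div_le_iff₀ (Real.exp_pos _)]
    calc |e i j| * Real.exp (la (X * h) j)
        ≤ (A * Real.exp (la X i - la X j)) * Real.exp (la (X * h) j) :=
          mul_le_mul_of_nonneg_right (he i j) (Real.exp_pos _).le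
      _ = A * (Real.exp (la (X * h) j - la X j) * Real.exp (la X i)) := by
          rw [mul_assoc, ← Real.exp_add, ← Real.exp_add]
          ring_nf
      _ ≤ A * (Real.exp R * Real.exp (la X i)) := by
          refine mul_le_mul_of_nonneg_left ?_ hA
          refine mul_le_mul_of_nonneg_right ?_ (Real.exp_pos _).le
          exact Real.exp_le_exp.mpr ((le_abs_self _).trans (hla j))
      _ = A * Real.exp R * Real.exp (la X i) := by ring
  have hκt : κ.transpose * κ = 1 := mul_eq_one_comm.mp hκ.orth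
  have hκt' : κ'.transpose * κ' = 1 := mul_eq_one_comm.mp hκ'.orth
  have e4 : h = κ.transpose * (κ * h * κ'.transpose) * κ' := by
    have h1 : κ.transpose * (κ * h * κ'.transpose) * κ' =
        (κ.transpose * κ) * h * (κ'.transpose * κ') := by
      simp only [Matrix.mul_assoc]
    rw [h1, hκt, hκt', Matrix.one_mul, Matrix.mul_one]
  rw [e4]
  exact conj_bd (orth_bd' hκ.orth) hb (orth_bd hκ'.orth) i0 j0

end Pool.Agent.Helper58.AR
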