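import Mathlib

/-!
AR-10. If finitely many real numbers add up to zero then the two largest absolute values are equal up
to a factor; the tropical relation with a bounded error.

Proof. `i` with `|t i|` maximal (nonzero), `t i = - ∑ j ≠ i, t j`, so `|t i| ≤ card ι * |t j|` for the `j ≠ i` with the
largest `|t j|`. Apply this to `t α = c α * ∏ i, z i ^ α i` (nonzero exactly when `c α ≠ 0`) and take
logarithms.
-/

set_option autoImplicit false

namespace Pool.Agent.Helper58.AR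

theorem two_largest_real {ι : Type*} [Fintype ι] (t : ι → ℝ) (h0 : ∃ i, t i ≠ 0)
    (hsum : ∑ i, t i = 0) :
    ∃ i j, i ≠ j ∧ t j ≠ 0 ∧ |t j| ≤ |t i| ∧ |t i| ≤ Fintype.card ι * |t j| := by
  classical
  obtain ⟨i0, hi0⟩ := h0
  obtain ⟨i, -, hi⟩ := Finset.exists_max_image (Finset.univ : Finset ι) (fun i => |t i|)
    ⟨i0, Finset.mem_univ i0⟩
  have hipos : 0 < |t i| := lt_of_lt_of_le (abs_pos.2 hi0) (hi i0 (Finset.mem_univ i0))
  have hs : t i = -∑ j ∈ Finset.univ.erase i, t j := by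
    have h1 := Finset.add_sum_erase Finset.univ t (Finset.mem_univ i)
    rw [hsum] at h1
    linarith
  have hle : |t i| ≤ ∑ j ∈ Finset.univ.erase i, |t j| := by
    rw [hs, abs_neg]
    exact Finset.abs_sum_le_sum_abs _ _
  have hne : (Finset.univ.erase i).Nonempty := by
    by_contra hcon
    rw [Finset.not_nonempty_iff_eq_empty] at hcon
    rw [hcon, Finset.sum_empty] at hle
    linarith
  obtain ⟨j, hj, hjm⟩ := Finset.exists_max_image (Finset.univ.erase i) (fun i => |t i|) hne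
  have hle2 : |t i| ≤ Fintype.card ι * |t j| := by
    refine hle.trans ?_
    calc ∑ k ∈ Finset.univ.erase i, |t k| ≤ ∑ _k ∈ Finset.univ.erase i, |t j| :=
          Finset.sum_le_sum fun k hk => hjm k hk
      _ = ((Finset.univ.erase i).card : ℝ) * |t j| := by rw [Finset.sum_const, nsmul_eq_mul]
      _ ≤ Fintype.card ι * |t j| := by
          refine mul_le_mul_of_nonneg_right ?_ (abs_nonneg _)
          exact_mod_cast Finset.card_le_univ _
  refine ⟨i, j, (Finset.ne_of_mem_erase hj).symm, ?_, hi j (Finset.mem_univ j), hle2⟩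
  intro h
  rw [h, abs_zero, mul_zero] at hle2
  linarith

theorem tropical_real {d E : ℕ} (c : (Fin (d + 1) → Fin (E + 1)) → ℝ) (hc : c ≠ 0)
    (z : Fin (d + 1) → ℝ) (hz : ∀ i, 0 < z i) (h : ∑ α, c α * ∏ i, z i ^ (α i : ℕ) = 0) :
    ∃ α β : Fin (d + 1) → Fin (E + 1), α ≠ β ∧
      |∑ i, (((α i : ℕ) : ℝ) - ((β i : ℕ) : ℝ)) * Real.log (z i) -
        (Real.log |c β| - Real.log |c α|)| ≤ Real.log (((E + 1) ^ (d + 1) : ℕ) : ℝ) := by
  classical
  have hprod : ∀ α : Fin (d + 1) → Fin (E + 1), 0 < ∏ i, z i ^ (α i : ℕ) :=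
    fun α => Finset.prod_pos fun i _ => pow_pos (hz i) _
  obtain ⟨γ, hγ⟩ : ∃ γ, c γ ≠ 0 := by
    by_contra hcon
    push Not at hcon
    exact hc (funext hcon)
  obtain ⟨α, β, hne, hβ0, hβα, hαβ⟩ := two_largest_real (fun α => c α * ∏ i, z i ^ (α i : ℕ))
    ⟨γ, mul_ne_zero hγ (hprod γ).ne'⟩ h
  have hcβ : c β ≠ 0 := left_ne_zero_of_mul hβ0
  have hβpos : 0 < |c β * ∏ i, z i ^ (β i : ℕ)| := abs_pos.2 hβ0
  have hαpos : 0 < |c α * ∏ i, z i ^ (α i : ℕ)| := lt_of_lt_of_le hβpos hβα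
  have hcα : c α ≠ 0 := left_ne_zero_of_mul (abs_pos.1 hαpos)
  have hlog : ∀ α : Fin (d + 1) → Fin (E + 1), c α ≠ 0 →
      Real.log |c α * ∏ i, z i ^ (α i : ℕ)| = Real.log |c α| + ∑ i, ((α i : ℕ) : ℝ) * Real.log (z i) := by
    intro α hα
    rw [abs_mul, abs_of_pos (hprod α), Real.log_mul (abs_ne_zero.2 hα) (hprod α).ne',
      Real.log_prod (fun i _ => (pow_pos (hz i) _).ne')]
    simp only [Real.log_pow]
  have hcard : Fintype.card (Fin (d + 1) → Fin (E + 1)) = (E + 1) ^ (d + 1) := by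
    rw [Fintype.card_fun, Fintype.card_fin, Fintype.card_fin]
  rw [hcard] at hαβ
  have hN : (0 : ℝ) < (((E + 1) ^ (d + 1) : ℕ) : ℝ) := by
    exact_mod_cast pow_pos (Nat.succ_pos E) _
  have l1 : Real.log |c β * ∏ i, z i ^ (β i : ℕ)| ≤ Real.log |c α * ∏ i, z i ^ (α i : ℕ)| :=
    Real.log_le_log hβpos hβα
  have l2 : Real.log |c α * ∏ i, z i ^ (α i : ℕ)| ≤
      Real.log (((E + 1) ^ (d + 1) : ℕ) : ℝ) + Real.log |c β * ∏ i, z i ^ (β i : ℕ)| := by
    rw [← Real.log_mul hN.ne' hβpos.ne']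
    exact Real.log_le_log hαpos hαβ
  rw [hlog α hcα, hlog β hcβ] at l1 l2
  refine ⟨α, β, hne, ?_⟩
  have hsum : ∑ i, (((α i : ℕ) : ℝ) - ((β i : ℕ) : ℝ)) * Real.log (z i) =
      ∑ i, ((α i : ℕ) : ℝ) * Real.log (z i) - ∑ i, ((β i : ℕ) : ℝ) * Real.log (z i) := by
    rw [← Finset.sum_sub_distrib]
    exact Finset.sum_congr rfl fun i _ => by ring
  rw [hsum, abs_le]
  constructor
  · have hN1 : 0 ≤ Real.log (((E + 1) ^ (d + 1) : ℕ) : ℝ) := Real.log_natCast_nonneg _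
    linarith
  · linarith

end Pool.Agent.Helper58.AR
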