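import Pool.Agent.Helper58.AR.Gram
import Pool.Agent.Helper58.AR.Step
import Pool.Agent.Helper58.AR.TropA
import Pool.Agent.Helper58.AR.ProjA
import Pool.Agent.Helper58.GI.Dep
import Pool.Agent.Helper58.GI.Class

/-!
AR-12 (helper58). The diagonal part: `d` slow functions control `la (φ z) - la (φ x)` along a chain in a
coset on which the matrices are polynomials in `d` parameters.
-/

set_option autoImplicit false

namespace Pool.Agent.Helper58.AR

open Pool.Agent.Helper65.TH Pool.Agent.Helper58.GI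

section poly

variable {m d : ℕ}

/-- the polynomial of a Gram determinant on a coset -/
noncomputable def gramPoly (X : Matrix (Fin m) (Fin m) ℝ)
    (P : Fin m → Fin m → MvPolynomial (Fin d) ℝ) (j : Fin m) : MvPolynomial (Fin d) ℝ :=
  ((polyMat X P * (polyMat X P).transpose).submatrix (emb j) (emb j)).det

lemma eval_gramPoly (X H : Matrix (Fin m) (Fin m) ℝ)
    (P : Fin m → Fin m → MvPolynomial (Fin d) ℝ) (y : Fin d → ℝ)
    (hH : ∀ a b, H a b = MvPolynomial.eval y (P a b)) (j : Fin m) :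
    MvPolynomial.eval y (gramPoly X P j) = gram (X * H) j := by
  unfold gramPoly gram
  rw [RingHom.map_det]
  congr 1
  have h0 : ∀ a b, MvPolynomial.eval y (polyMat X P a b) = (X * H) a b := by
    intro a b
    simp only [polyMat, Matrix.of_apply, map_sum, map_mul, MvPolynomial.eval_C, Matrix.mul_apply,
      hH]
  ext a b
  simp only [RingHom.mapMatrix_apply, Matrix.map_apply, Matrix.submatrix_apply, Matrix.mul_apply,
    Matrix.transpose_apply, map_sum, map_mul]
  refine Finset.sum_congr rfl fun c _ => ?_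
  rw [h0, h0, Matrix.mul_apply, Matrix.mul_apply]

lemma degree_gramPoly (X : Matrix (Fin m) (Fin m) ℝ)
    (P : Fin m → Fin m → MvPolynomial (Fin d) ℝ) {D : ℕ} (hD : ∀ a b, (P a b).totalDegree ≤ D)
    (j : Fin m) : (gramPoly X P j).totalDegree ≤ m * (D + D) := by
  have h1 : ∀ a b, (polyMat X P a b).totalDegree ≤ D := by
    intro a b
    have h0 : polyMat X P a b = ∑ c, MvPolynomial.C (X a c) * P c b := rfl
    rw [h0]
    refine MvPolynomial.totalDegree_finsetSum_le fun c _ => ?_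
    refine (MvPolynomial.totalDegree_mul _ _).trans ?_
    rw [MvPolynomial.totalDegree_C, zero_add]
    exact hD c b
  have h2 : ∀ a b, ((polyMat X P * (polyMat X P).transpose) a b).totalDegree ≤ D + D := by
    intro a b
    rw [Matrix.mul_apply]
    refine MvPolynomial.totalDegree_finsetSum_le fun c _ => ?_
    refine (MvPolynomial.totalDegree_mul _ _).trans ?_
    exact add_le_add (h1 _ _) (h1 _ _)
  unfold gramPoly
  rw [Matrix.det_apply]
  refine MvPolynomial.totalDegree_finsetSum_le fun σ _ => ?_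
  have h3 : (∏ i, ((polyMat X P * (polyMat X P).transpose).submatrix (emb j) (emb j))
      (σ i) i).totalDegree ≤ m * (D + D) := by
    refine (MvPolynomial.totalDegree_finsetProd _ _).trans ?_
    refine (Finset.sum_le_sum fun i _ => h2 _ _).trans ?_
    rw [Finset.sum_const, Finset.card_univ, Fintype.card_fin, smul_eq_mul]
    exact Nat.mul_le_mul_right _ (Nat.succ_le_of_lt j.2)
  rcases Int.units_eq_one_or (Equiv.Perm.sign σ) with h | h
  · rw [h, one_smul]
    exact h3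
  · rw [h, Units.neg_smul, one_smul, MvPolynomial.totalDegree_neg]
    exact h3

/-- the increments of the partial sums -/
lemma near_of_sums (f f' : Fin m → ℝ) {R : ℝ} (hR : 0 ≤ R)
    (h : ∀ j, |2 * ∑ l ∈ Finset.Iic j, f' l - 2 * ∑ l ∈ Finset.Iic j, f l| ≤ R) (i : Fin m) :
    |f' i - f i| ≤ R := by
  by_cases hi : 0 < (i : ℕ)
  · have hi' : (i : ℕ) - 1 < m := by omega
    have h1 : Finset.Iic i = insert i (Finset.Iic ⟨(i : ℕ) - 1, hi'⟩) := by
      ext l
      simp only [Finset.mem_Iic, Finset.mem_insert, Fin.le_def, Fin.ext_iff]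
      omega
    have h2 : i ∉ Finset.Iic (⟨(i : ℕ) - 1, hi'⟩ : Fin m) := by
      simp only [Finset.mem_Iic, Fin.le_def]
      omega
    have h3 := h i
    have h4 := h ⟨(i : ℕ) - 1, hi'⟩
    rw [h1, Finset.sum_insert h2, Finset.sum_insert h2] at h3
    rw [abs_le] at h3 h4 ⊢
    constructor <;> linarith [h3.1, h3.2, h4.1, h4.2]
  · have h1 : Finset.Iic i = {i} := by
      ext l
      simp only [Finset.mem_Iic, Finset.mem_singleton, Fin.le_def, Fin.ext_iff]
      omega
    have h3 := h i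
    rw [h1, Finset.sum_singleton, Finset.sum_singleton] at h3
    rw [abs_le] at h3 ⊢
    constructor <;> linarith [h3.1, h3.2]

end poly

/-- the classes of the points of a coset -/
abbrev ClsA (m d E : ℕ) : Type :=
  {J : Fin (d + 1) → Fin m // Function.Injective J} →
      (Fin (d + 1) → Fin (E + 1)) × (Fin (d + 1) → Fin (E + 1))

theorem apart {Γ : Type*} [Group Γ] {m d : ℕ} (φ : Γ →* GL (Fin m) ℝ) (L : Subgroup Γ)
    (y : Γ → Fin d → ℝ) (P : Fin m → Fin m → MvPolynomial (Fin d) ℝ)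
    (hP : ∀ h ∈ L, ∀ a b, (φ h : Matrix (Fin m) (Fin m) ℝ) a b = MvPolynomial.eval (y h) (P a b))
    (S : Finset Γ) (ε : ℝ) (hε : 0 < ε) :
    ∃ (g : Γ → Fin d → ℝ) (R : ℝ), 0 ≤ R ∧ (∀ x, ∀ s ∈ S, Near (g (x * s)) (g x) ε) ∧
      ∀ x z, Chain {s | s ∈ S ∧ s ∈ L} (fun b => Near (g b) (g x) 1) x z →
        ∀ i, |la (φ z : Matrix (Fin m) (Fin m) ℝ) i - la (φ x : Matrix (Fin m) (Fin m) ℝ) i| ≤ R := by
  classical
  -- the size of the generators
  obtain ⟨τ, hτ1, hτ⟩ : ∃ τ : ℝ, 1 ≤ τ ∧ ∀ s ∈ S, ∀ a b,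
      |(φ s : Matrix (Fin m) (Fin m) ℝ) a b| ≤ τ ∧
      |(φ s⁻¹ : Matrix (Fin m) (Fin m) ℝ) a b| ≤ τ := by
    refine ⟨1 + ∑ s ∈ S, ∑ a, ∑ b, (|(φ s : Matrix (Fin m) (Fin m) ℝ) a b| +
      |(φ s⁻¹ : Matrix (Fin m) (Fin m) ℝ) a b|), ?_, ?_⟩
    · have : 0 ≤ ∑ s ∈ S, ∑ a, ∑ b, (|(φ s : Matrix (Fin m) (Fin m) ℝ) a b| +
        |(φ s⁻¹ : Matrix (Fin m) (Fin m) ℝ) a b|) := by positivity
      linarith
    · intro s hs a b
      have h1 : |(φ s : Matrix (Fin m) (Fin m) ℝ) a b| +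
          |(φ s⁻¹ : Matrix (Fin m) (Fin m) ℝ) a b| ≤
          ∑ s ∈ S, ∑ a, ∑ b, (|(φ s : Matrix (Fin m) (Fin m) ℝ) a b| +
          |(φ s⁻¹ : Matrix (Fin m) (Fin m) ℝ) a b|) := by
        refine le_trans ?_ (Finset.single_le_sum (f := fun s => ∑ a, ∑ b,
          (|(φ s : Matrix (Fin m) (Fin m) ℝ) a b| + |(φ s⁻¹ : Matrix (Fin m) (Fin m) ℝ) a b|))
          (fun s _ => by positivity) hs)
        refine le_trans ?_ (Finset.single_le_sum (f := fun a => ∑ b,
          (|(φ s : Matrix (Fin m) (Fin m) ℝ) a b| + |(φ s⁻¹ : Matrix (Fin m) (Fin m) ℝ) a b|))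
          (fun a _ => by positivity) (Finset.mem_univ a))
        exact Finset.single_le_sum (f := fun b => |(φ s : Matrix (Fin m) (Fin m) ℝ) a b| +
          |(φ s⁻¹ : Matrix (Fin m) (Fin m) ℝ) a b|) (fun b _ => by positivity)
          (Finset.mem_univ b)
      have h2 := abs_nonneg ((φ s : Matrix (Fin m) (Fin m) ℝ) a b)
      have h3 := abs_nonneg ((φ s⁻¹ : Matrix (Fin m) (Fin m) ℝ) a b)
      constructor <;> linarith
  obtain ⟨F, hF⟩ : ∃ F : Γ → Fin m → ℝ, F = fun x j =>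
      Real.log (gram (φ x : Matrix (Fin m) (Fin m) ℝ) j) := ⟨_, rfl⟩
  have hunit : ∀ x, IsUnit ((φ x : Matrix (Fin m) (Fin m) ℝ)).det := fun x =>
    (Matrix.isUnit_iff_isUnit_det _).1 (φ x).isUnit
  have hFla : ∀ x j, F x j = 2 * ∑ l ∈ Finset.Iic j, la (φ x : Matrix (Fin m) (Fin m) ℝ) l := by
    intro x j
    rw [hF]
    exact log_gram _ (hunit x) j
  set c0 : ℝ := 2 * (m * |Real.log (m * m * τ)|) with hc0
  have hc0' : 0 ≤ c0 := by positivity
  have hslow : ∀ x, ∀ s ∈ S, ∀ j, |F (x * s) j - F x j| ≤ c0 := by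
    intro x s hs j
    rw [hFla, hFla, ← mul_sub, ← Finset.sum_sub_distrib, abs_mul, abs_of_pos (by norm_num : (0:ℝ) < 2),
      hc0]
    refine mul_le_mul_of_nonneg_left ?_ (by norm_num)
    refine (Finset.abs_sum_le_sum_abs _ _).trans ?_
    have h1 : ∀ l ∈ Finset.Iic j, |la (φ (x * s) : Matrix (Fin m) (Fin m) ℝ) l -
        la (φ x : Matrix (Fin m) (Fin m) ℝ) l| ≤ |Real.log (m * m * τ)| := by
      intro l _
      rw [map_mul, Units.val_mul]
      refine (la_step _ _ (φ s⁻¹ : Matrix (Fin m) (Fin m) ℝ) (hunit x) ?_ hτ1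
        (fun a b => (hτ s hs a b).1) (fun a b => (hτ s hs a b).2) l).trans (le_abs_self _)
      rw [map_inv]
      exact Units.mul_inv _
    refine (Finset.sum_le_sum h1).trans ?_
    rw [Finset.sum_const, nsmul_eq_mul]
    refine mul_le_mul_of_nonneg_right ?_ (abs_nonneg _)
    have h2 : (Finset.Iic j).card ≤ m := by
      refine (Finset.card_le_univ _).trans ?_
      rw [Fintype.card_fin]
    exact_mod_cast h2
  -- the degrees, the exponents, the projection
  obtain ⟨D, hD⟩ : ∃ D : ℕ, ∀ a b, (P a b).totalDegree ≤ D := by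
    refine ⟨∑ a, ∑ b, (P a b).totalDegree, fun a b => ?_⟩
    refine le_trans ?_ (Finset.single_le_sum (f := fun a => ∑ b, (P a b).totalDegree)
      (fun a _ => Nat.zero_le _) (Finset.mem_univ a))
    exact Finset.single_le_sum (f := fun b => (P a b).totalDegree)
      (fun b _ => Nat.zero_le _) (Finset.mem_univ b)
  obtain ⟨E, hE⟩ := exists_relation.{0} d (m * (D + D))
  obtain ⟨π, C, hC0, hC⟩ := exists_proj_approx m d E
  obtain ⟨cπ, hcπ0, hcπ⟩ := linear_bound π
  -- the relations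
  have hrel : ∀ (x : Γ) (J : Fin (d + 1) → Fin m),
      ∃ c : (Fin (d + 1) → Fin (E + 1)) → ℝ, c ≠ 0 ∧ ∀ t : Fin d → ℝ,
        ∑ α, c α * ∏ i, (MvPolynomial.eval t
          (gramPoly (φ x : Matrix (Fin m) (Fin m) ℝ) P (J i))) ^ (α i : ℕ) = 0 :=
    fun x J => hE ℝ _ fun i => degree_gramPoly _ P hD _
  choose co hco0 hco using hrel
  set κ : ℝ := 2 * Real.log (((E + 1) ^ (d + 1) : ℕ) : ℝ) with hκ
  have hκ0 : 0 ≤ κ := by
    have : 0 ≤ Real.log (((E + 1) ^ (d + 1) : ℕ) : ℝ) := Real.log_natCast_nonneg _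
    linarith
  set Λ : ℝ := cπ * c0 / ε + 1 with hΛ
  have hΛ0 : 0 < Λ := by positivity
  -- the classes
  have hclass : ∀ x b : Γ, ∃ c : ClsA m d E, x⁻¹ * b ∈ L →
      ∀ J : {J : Fin (d + 1) → Fin m // Function.Injective J},
        (c J).1 ≠ (c J).2 ∧
        |∑ i, ((((c J).1 i : ℕ) : ℝ) - (((c J).2 i : ℕ) : ℝ)) * F b (J.1 i) -
          (Real.log |co x J.1 (c J).2| - Real.log |co x J.1 (c J).1|)| ≤ κ / 2 := by
    intro x b
    by_cases hb : x⁻¹ * b ∈ L
    · have hz : ∀ j, 0 < gram (φ b : Matrix (Fin m) (Fin m) ℝ) j := fun j =>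
        gram_pos _ (hunit b) j
      have hev : ∀ j, MvPolynomial.eval (y (x⁻¹ * b))
          (gramPoly (φ x : Matrix (Fin m) (Fin m) ℝ) P j) =
          gram (φ b : Matrix (Fin m) (Fin m) ℝ) j := by
        intro j
        rw [eval_gramPoly _ (φ (x⁻¹ * b) : Matrix (Fin m) (Fin m) ℝ) P _ (hP _ hb)]
        have h1 : φ x * φ (x⁻¹ * b) = φ b := by
          rw [← map_mul, mul_inv_cancel_left]
        rw [← Units.val_mul, h1]
      have htr : ∀ J : {J : Fin (d + 1) → Fin m // Function.Injective J},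
          ∃ αβ : (Fin (d + 1) → Fin (E + 1)) × (Fin (d + 1) → Fin (E + 1)),
          αβ.1 ≠ αβ.2 ∧ |∑ i, (((αβ.1 i : ℕ) : ℝ) - ((αβ.2 i : ℕ) : ℝ)) * F b (J.1 i) -
            (Real.log |co x J.1 αβ.2| - Real.log |co x J.1 αβ.1|)| ≤ κ / 2 := by
        intro J
        have h1 := hco x J.1 (y (x⁻¹ * b))
        simp only [hev] at h1
        obtain ⟨α, β, hne, h2⟩ := tropical_real (co x J.1) (hco0 x J.1)
          (fun i => gram (φ b : Matrix (Fin m) (Fin m) ℝ) (J.1 i)) (fun i => hz _) h1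
        refine ⟨(α, β), hne, ?_⟩
        have h3 : κ / 2 = Real.log (((E + 1) ^ (d + 1) : ℕ) : ℝ) := by
          rw [hκ]
          ring
        rw [h3, hF]
        exact h2
      choose αβ h1 h2 using htr
      exact ⟨αβ, fun _ J => ⟨h1 J, h2 J⟩⟩
    · refine ⟨fun _ => (fun _ => 0, fun _ => 0), fun h => absurd h hb⟩
  choose cl hcl using hclass
  -- two points of one class
  have hsame : ∀ x a b : Γ, x⁻¹ * a ∈ L → x⁻¹ * b ∈ L → cl x a = cl x b → ∀ η : ℝ, 0 ≤ η →
      (∀ l, |π (fun j => F a j - F b j) l| ≤ η) → ∀ j, |F a j - F b j| ≤ C * (η + κ) := by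
    intro x a b ha hb hab η hη hl
    refine hC (fun j => F a j - F b j) κ hκ0 ?_ η hη hl
    intro J hJ
    obtain ⟨h1, h2⟩ := hcl x a ha ⟨J, hJ⟩
    obtain ⟨h3, h4⟩ := hcl x b hb ⟨J, hJ⟩
    rw [← hab] at h3 h4
    refine ⟨fun i => (((cl x a) ⟨J, hJ⟩).1 i : ℤ) - (((cl x a) ⟨J, hJ⟩).2 i : ℤ), ?_, ?_, ?_⟩
    · intro h0
      apply h1
      funext i
      have h5 := congrFun h0 i
      simp only [Pi.zero_apply] at h5
      apply Fin.ext
      omega
    · intro i
      have h5 := (((cl x a) ⟨J, hJ⟩).1 i).2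
      have h6 := (((cl x a) ⟨J, hJ⟩).2 i).2
      have h7 : |((((cl x a) ⟨J, hJ⟩).1 i : ℕ) : ℤ) - ((((cl x a) ⟨J, hJ⟩).2 i : ℕ) : ℤ)| ≤
          (E : ℤ) := by
        rw [abs_le]
        constructor <;> omega
      exact h7
    · have h5 : ∑ i, ((((((cl x a) ⟨J, hJ⟩).1 i : ℤ) - (((cl x a) ⟨J, hJ⟩).2 i : ℤ) : ℤ)) : ℝ) *
          (F a (J i) - F b (J i)) =
          (∑ i, (((((cl x a) ⟨J, hJ⟩).1 i : ℕ) : ℝ) - ((((cl x a) ⟨J, hJ⟩).2 i : ℕ) : ℝ)) *
            F a (J i)) -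
          ∑ i, (((((cl x a) ⟨J, hJ⟩).1 i : ℕ) : ℝ) - ((((cl x a) ⟨J, hJ⟩).2 i : ℕ) : ℝ)) *
            F b (J i) := by
        rw [← Finset.sum_sub_distrib]
        refine Finset.sum_congr rfl fun i _ => ?_
        push_cast
        ring
      rw [h5]
      simp only [] at h2 h4
      rw [abs_le] at h2 h4 ⊢
      constructor <;> linarith [h2.1, h2.2, h4.1, h4.2]
  obtain ⟨g, hg⟩ : ∃ g : Γ → Fin d → ℝ, g = fun x l => π (F x) l / Λ := ⟨_, rfl⟩
  set R : ℝ := (Fintype.card (ClsA m d E) : ℝ) * (C * (2 * Λ + κ) + c0 + 1) with hR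
  have hR0 : 0 ≤ R := by positivity
  have hπsub : ∀ (a b : Γ) (l : Fin d), π (fun j => F a j - F b j) l = π (F a) l - π (F b) l := by
    intro a b l
    have h1 : (fun j => F a j - F b j) = F a - F b := rfl
    rw [h1, map_sub, Pi.sub_apply]
  refine ⟨g, R, hR0, ?_, ?_⟩
  · intro x s hs l
    have h1 := hcπ (fun j => F (x * s) j - F x j) c0 hc0' (hslow x s hs) l
    rw [hπsub] at h1
    rw [hg]
    simp only []
    rw [← sub_div, abs_div, abs_of_pos hΛ0, div_le_iff₀ hΛ0]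
    refine h1.trans ?_
    rw [hΛ, mul_add, mul_one, mul_div_cancel₀ _ hε.ne']
    linarith
  · intro x z hxz
    set T : Set Γ := {s | s ∈ S ∧ s ∈ L} with hT
    have hTL : ∀ s ∈ T, s ∈ L := fun s hs => hs.2
    have hQ : ∀ a, Chain T (fun b => Near (g b) (g x) 1) x a → Near (g a) (g x) 1 := fun a ha =>
      Chain.last (P := fun b => Near (g b) (g x) 1) (Near.refl _ zero_le_one) ha
    have hπ : ∀ a, Chain T (fun b => Near (g b) (g x) 1) x a → ∀ l,
        |π (F a) l - π (F x) l| ≤ Λ := by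
      intro a ha l
      have h1 := hQ a ha l
      rw [hg] at h1
      simp only [] at h1
      rw [← sub_div, abs_div, abs_of_pos hΛ0, div_le_one hΛ0] at h1
      exact h1
    have hbound : ∀ j, |F z j - F x j| ≤ R := by
      intro j
      refine chain_range T (fun b => Near (g b) (g x) 1) x (cl x) (fun b => F b j)
        (C * (2 * Λ + κ)) c0 (by positivity) hc0' ?_ ?_ hxz
      · intro a b ha hb hab
        refine hsame x a b (ha.mem_subgroup L hTL) (hb.mem_subgroup L hTL) hab (2 * Λ)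
          (by positivity) ?_ j
        intro l
        rw [hπsub]
        have h1 := hπ a ha l
        have h2 := hπ b hb l
        rw [abs_le] at h1 h2 ⊢
        constructor <;> linarith [h1.1, h1.2, h2.1, h2.2]
      · intro a b _ hs
        have h1 := hslow a (a⁻¹ * b) hs.1 j
        rwa [mul_inv_cancel_left] at h1
    refine near_of_sums _ _ hR0 ?_
    intro j
    rw [← hFla, ← hFla]
    exact hbound j

end Pool.Agent.Helper58.AR
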