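import Pool.Agent.Helper58.AR.UnitsA
import Pool.Agent.Helper58.AR.TowerA
import Pool.Agent.Helper58.GI.Assemble

/-!
AR-19, assembly: groups of linear type over fields of positive characteristic and over fields of algebraic numbers,
with all places.
-/

set_option autoImplicit false

namespace Pool.Agent.Helper58.AR

open Pool.Agent.Helper65.TH Pool.Agent.Helper61.Apc Pool.Agent.Helper58.GI

universe u v w

/-- unit groups of locally finite-dimensional algebras over fields of positive characteristic and over
fields of algebraic numbers -/
theorem thin_units_good {K : Type u} [Field K] (hK : GoodField K) {A : Type w} [Ring A]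
    [Algebra K A] (hA : LocFinDim K A) (T : Finset Aˣ) :
    ∃ N, Thin (Subgroup.closure (T : Set Aˣ)) N :=
  thin_of_polyOverA T (polyOverA_units hK hA T)

/-- Groups of linear type: `G` is a proper union of linear groups over some field `K`, or `G` embeds
into the unit group of a locally finite-dimensional algebra over a field `K` which has positive
characteristic or consists of algebraic numbers. -/
def LinTypeA (G : Type w) [Group G] : Prop :=
  ∃ (K : Type u) (_ : Field K), ProperUnionA K G ∨ GoodField K ∧
    ∃ (A : Type w) (_ : Ring A) (_ : Algebra K A), LocFinDim K A ∧
      ∃ f : G →* Aˣ, Function.Injective f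

theorem thin_of_linTypeA {G : Type w} [Group G] (hG : LinTypeA.{u, w} G) (T : Finset G) :
    ∃ N, Thin (Subgroup.closure (T : Set G)) N := by
  obtain ⟨K, _, hG | ⟨hK, A, _, _, hA, f, hf⟩⟩ := hG
  · exact thin_of_properUnionA hG T
  · exact thin_of_injective f hf (fun T' => thin_units_good hK hA T') T

end Pool.Agent.Helper58.AR
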