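import Mathlib

/-!
AR-3. The weights of the Freudenthal triangulation.

(Joint work of helper58, statements and blueprint, and helper4, proofs.)

`chi v u = max 0 (1 - ‖(u - v)⁺‖ - ‖(v - u)⁺‖)` (sup norms) for `v` integer, `u` real.

Proofs. `chi_lip`: every norm is `1`-Lipschitz in `u` for the sup norm. `chi_near`: immediate.
`chi_comparable`: if `v i > v' i` and `v j < v' j` then `(u i - v' i) - (u i - v i) ≥ 1` and
`(u j - v j) - (u j - v' j) ≥ 1`; the sum of the positive parts `(u i - v' i)⁺ + (v' j - u j)⁺ < 1` (norms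
for `v'`) and `(u j - v j)⁺ + (v i - u i)⁺ < 1`; add. `chi_parity`: comparable, so all `v i ≤ v' i`; if
`v i < v' i` for some `i` then `v' i - v i ≥ 2` by parity, but `|u i - v i| < 1` and `|u i - v' i| < 1`.
`exists_chi`: the `m` fractional parts of `u` miss one of the `m + 1` intervals
`[k / (m + 1), (k + 1) / (m + 1))`, `k = 0, ..., m` (pigeonhole); put `v i = ⌊u i⌋ + 1` if the fractional
part of `u i` is at least `(k + 1) / (m + 1)` and `v i = ⌊u i⌋` otherwise: the first norm is at most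
`k / (m + 1)`, the second at most `1 - (k + 1) / (m + 1)`.
`finite_chi`: contained in `{v | ∀ i, v i = ⌊u i⌋ ∨ v i = ⌊u i⌋ + 1}`, at most `2 ^ m` elements.
`exists_level`: let `A` be the finite set of the `v` with `chi v u ≠ 0`, linearly ordered by
`chi_comparable`. If no `v ∈ A` has the required property then, by induction along `A`, the sum of
`t` and the first `k` values is at most `(1 + K) ^ k * t`, hence `1 / (m + 1) ≤ (1 + K) ^ (2 ^ m) * κ`.
-/

set_option autoImplicit false

namespace Pool.Agent.Helper58.AR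

variable {m : ℕ}

/-- the weight of the lattice point `v` at `u` -/
noncomputable def chi (v : Fin m → ℤ) (u : Fin m → ℝ) : ℝ :=
  max 0 (1 - ‖fun i => max (u i - v i) 0‖ - ‖fun i => max ((v i : ℝ) - u i) 0‖)

theorem chi_nonneg (v : Fin m → ℤ) (u : Fin m → ℝ) : 0 ≤ chi v u := le_max_left _ _

theorem chi_le_one (v : Fin m → ℤ) (u : Fin m → ℝ) : chi v u ≤ 1 := by
  refine max_le zero_le_one ?_
  have h1 := norm_nonneg (fun i => max (u i - v i) 0)
  have h2 := norm_nonneg (fun i => max ((v i : ℝ) - u i) 0)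
  linarith

theorem chi_lip (v : Fin m → ℤ) (u u' : Fin m → ℝ) {η : ℝ} (hη : 0 ≤ η)
    (h : ∀ i, |u' i - u i| ≤ η) : |chi v u' - chi v u| ≤ 2 * η := by
  have key : ∀ f g : Fin m → ℝ, (∀ i, |f i - g i| ≤ η) → |‖f‖ - ‖g‖| ≤ η := by
    intro f g hfg
    refine (abs_norm_sub_norm_le f g).trans ?_
    rw [pi_norm_le_iff_of_nonneg hη]
    intro i
    simpa using hfg i
  have h1 := key (fun i => max (u' i - v i) 0) (fun i => max (u i - v i) 0) (fun i => by
    refine (abs_max_sub_max_le_abs _ _ _).trans ?_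
    have : u' i - v i - (u i - v i) = u' i - u i := by ring
    rw [this]; exact h i)
  have h2 := key (fun i => max ((v i : ℝ) - u' i) 0) (fun i => max ((v i : ℝ) - u i) 0) (fun i => by
    refine (abs_max_sub_max_le_abs _ _ _).trans ?_
    have : (v i : ℝ) - u' i - (v i - u i) = -(u' i - u i) := by ring
    rw [this, abs_neg]; exact h i)
  have h3 : |chi v u' - chi v u| ≤
      |(1 - ‖fun i => max (u' i - v i) 0‖ - ‖fun i => max ((v i : ℝ) - u' i) 0‖)
        - (1 - ‖fun i => max (u i - v i) 0‖ - ‖fun i => max ((v i : ℝ) - u i) 0‖)| := by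
    unfold chi
    rw [max_comm 0, max_comm 0]
    exact abs_max_sub_max_le_abs _ _ _
  refine h3.trans ?_
  rw [abs_le] at h1 h2 ⊢
  constructor <;> linarith [h1.1, h1.2, h2.1, h2.2]

theorem norms_lt {v : Fin m → ℤ} {u : Fin m → ℝ} (h : chi v u ≠ 0) :
    ‖fun i => max (u i - v i) 0‖ + ‖fun i => max ((v i : ℝ) - u i) 0‖ < 1 := by
  by_contra hcon
  push Not at hcon
  apply h
  unfold chi
  apply max_eq_left
  linarith

theorem chi_near {v : Fin m → ℤ} {u : Fin m → ℝ} (h : chi v u ≠ 0) (i : Fin m) :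
    |u i - v i| < 1 := by
  have hpos := norms_lt h
  have h1 := norm_le_pi_norm (fun i => max (u i - v i) 0) i
  have h2 := norm_le_pi_norm (fun i => max ((v i : ℝ) - u i) 0) i
  simp only [Real.norm_eq_abs] at h1 h2
  have h3 := le_abs_self (max (u i - v i) 0)
  have h4 := le_abs_self (max ((v i : ℝ) - u i) 0)
  have h5 := le_max_left (u i - v i) (0 : ℝ)
  have h6 := le_max_left ((v i : ℝ) - u i) (0 : ℝ)
  have h7 := le_max_right (u i - v i) (0 : ℝ)
  have h8 := le_max_right ((v i : ℝ) - u i) (0 : ℝ)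
  rw [abs_lt]
  constructor <;> linarith

theorem chi_comparable {v v' : Fin m → ℤ} {u : Fin m → ℝ} (h : chi v u ≠ 0)
    (h' : chi v' u ≠ 0) : v ≤ v' ∨ v' ≤ v := by
  have coord : ∀ {w : Fin m → ℤ}, chi w u ≠ 0 → ∀ i j, (u i - w i) + ((w j : ℝ) - u j) < 1 := by
    intro w hw i j
    have hpos := norms_lt hw
    have h1 := norm_le_pi_norm (fun i => max (u i - w i) 0) i
    have h2 := norm_le_pi_norm (fun i => max ((w i : ℝ) - u i) 0) j
    simp only [Real.norm_eq_abs] at h1 h2
    have h3 := le_abs_self (max (u i - w i) 0)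
    have h4 := le_abs_self (max ((w j : ℝ) - u j) 0)
    have h5 := le_max_left (u i - w i) (0 : ℝ)
    have h6 := le_max_left ((w j : ℝ) - u j) (0 : ℝ)
    linarith
  by_contra hcon
  push Not at hcon
  obtain ⟨h1, h2⟩ := hcon
  rw [Pi.le_def] at h1 h2
  push Not at h1 h2
  obtain ⟨i, hi⟩ := h1
  obtain ⟨j, hj⟩ := h2
  have e1 := coord h' i j
  have e2 := coord h j i
  have f1 : (v' i : ℝ) + 1 ≤ v i := by exact_mod_cast hi
  have f2 : (v j : ℝ) + 1 ≤ v' j := by exact_mod_cast hj
  linarith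

theorem chi_parity {v v' : Fin m → ℤ} {u : Fin m → ℝ} (h : chi v u ≠ 0) (h' : chi v' u ≠ 0)
    (hp : ∀ i, ((v i : ℤ) : ZMod 2) = ((v' i : ℤ) : ZMod 2)) : v = v' := by
  funext i
  by_contra hne
  have hd : (2 : ℤ) ∣ v i - v' i := by
    have := hp i
    rw [← sub_eq_zero, ← Int.cast_sub] at this
    exact (ZMod.intCast_zmod_eq_zero_iff_dvd _ 2).1 this
  obtain ⟨c, hc⟩ := hd
  have hc0 : c ≠ 0 := by
    rintro rfl
    apply hne; linarith
  have h1 := chi_near h i
  have h2 := chi_near h' i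
  rw [abs_lt] at h1 h2
  have hR : (v i : ℝ) - v' i = 2 * c := by exact_mod_cast hc
  rcases lt_or_gt_of_ne hc0 with h3 | h3
  · have : (c : ℝ) ≤ -1 := by
      have : c ≤ -1 := by omega
      exact_mod_cast this
    linarith [h1.1, h1.2, h2.1, h2.2]
  · have : (1 : ℝ) ≤ c := by
      have : 1 ≤ c := by omega
      exact_mod_cast this
    linarith [h1.1, h1.2, h2.1, h2.2]

theorem exists_chi (u : Fin m → ℝ) : ∃ v : Fin m → ℤ, 1 / ((m : ℝ) + 1) ≤ chi v u := by
  have hm : (0 : ℝ) < (m : ℝ) + 1 := by positivity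
  -- pigeonhole
  obtain ⟨k, hk⟩ : ∃ k : Fin (m + 1), ∀ i, ⌊((m : ℝ) + 1) * Int.fract (u i)⌋ ≠ (k : ℤ) := by
    by_contra hcon
    push Not at hcon
    choose f hf using hcon
    have hinj : Function.Injective f := by
      intro a b hab
      have h1 := hf a
      have h2 := hf b
      rw [hab] at h1
      have : ((a : ℕ) : ℤ) = ((b : ℕ) : ℤ) := by rw [← h1, ← h2]
      exact Fin.ext (by exact_mod_cast this)
    have := Fintype.card_le_of_injective f hinj
    simp at this
  have hk1 : ((k : ℕ) : ℝ) ≤ m := by exact_mod_cast Nat.lt_succ_iff.1 k.2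
  have hk0 : (0 : ℝ) ≤ ((k : ℕ) : ℝ) := Nat.cast_nonneg _
  have hcase : ∀ i, Int.fract (u i) * ((m : ℝ) + 1) < k ∨
      (k : ℝ) + 1 ≤ Int.fract (u i) * ((m : ℝ) + 1) := by
    intro i
    rcases lt_or_gt_of_ne (hk i) with h | h
    · left
      have := Int.floor_lt.1 h
      rw [mul_comm]; exact_mod_cast this
    · right
      have h2 : ((k : ℕ) : ℤ) + 1 ≤ ⌊((m : ℝ) + 1) * Int.fract (u i)⌋ := h
      have := Int.le_floor.1 h2
      rw [mul_comm]; push_cast at this; exact this
  refine ⟨fun i => if Int.fract (u i) * ((m : ℝ) + 1) < k then ⌊u i⌋ else ⌊u i⌋ + 1, ?_⟩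
  refine le_trans ?_ (le_max_right _ _)
  have hA : ‖fun i => max (u i -
      ((if Int.fract (u i) * ((m : ℝ) + 1) < k then ⌊u i⌋ else ⌊u i⌋ + 1 : ℤ) : ℝ)) 0‖
      ≤ k / ((m : ℝ) + 1) := by
    rw [pi_norm_le_iff_of_nonneg (by positivity)]
    intro i
    rw [Real.norm_eq_abs, abs_of_nonneg (le_max_right _ _)]
    refine max_le ?_ (by positivity)
    split_ifs with h
    · rw [Int.self_sub_floor, le_div_iff₀ hm]; exact h.le
    · have := Int.fract_lt_one (u i)
      rw [← Int.self_sub_floor] at this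
      push_cast
      have h0 : (0 : ℝ) ≤ k / ((m : ℝ) + 1) := by positivity
      linarith
  have hB : ‖fun i => max (
      ((if Int.fract (u i) * ((m : ℝ) + 1) < k then ⌊u i⌋ else ⌊u i⌋ + 1 : ℤ) : ℝ) - u i) 0‖
      ≤ 1 - (k + 1) / ((m : ℝ) + 1) := by
    have h0 : (0 : ℝ) ≤ 1 - (k + 1) / ((m : ℝ) + 1) := by
      rw [sub_nonneg, div_le_one hm]; linarith
    rw [pi_norm_le_iff_of_nonneg h0]
    intro i
    rw [Real.norm_eq_abs, abs_of_nonneg (le_max_right _ _)]
    refine max_le ?_ h0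
    split_ifs with h
    · have := Int.fract_nonneg (u i)
      rw [← Int.self_sub_floor] at this
      linarith
    · have h3 := (hcase i).resolve_left h
      rw [← div_le_iff₀ hm, ← Int.self_sub_floor] at h3
      push_cast
      linarith
  have : (1 : ℝ) / ((m : ℝ) + 1) = 1 - k / ((m : ℝ) + 1) - (1 - (k + 1) / ((m : ℝ) + 1)) := by
    field_simp; ring
  rw [this]
  linarith

/-- the lattice points near `u` -/
noncomputable def near (u : Fin m → ℝ) : Finset (Fin m → ℤ) :=
  Fintype.piFinset fun i => {⌊u i⌋, ⌊u i⌋ + 1}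

theorem card_near (u : Fin m → ℝ) : (near u).card ≤ 2 ^ m := by
  unfold near
  rw [Fintype.card_piFinset]
  refine (Finset.prod_le_prod' (fun i _ => Finset.card_le_two)).trans ?_
  simp

theorem mem_near {v : Fin m → ℤ} {u : Fin m → ℝ} (h : chi v u ≠ 0) : v ∈ near u := by
  unfold near
  rw [Fintype.mem_piFinset]
  intro i
  have h1 := chi_near h i
  rw [abs_lt] at h1
  have h2 := Int.floor_le (u i)
  have h3 := Int.lt_floor_add_one (u i)
  have h4 : (v i : ℝ) < ⌊u i⌋ + 2 := by linarith [h1.1]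
  have h5 : (⌊u i⌋ : ℝ) < v i + 1 := by linarith [h1.2]
  have h6 : v i < ⌊u i⌋ + 2 := by exact_mod_cast h4
  have h7 : ⌊u i⌋ < v i + 1 := by exact_mod_cast h5
  rw [Finset.mem_insert, Finset.mem_singleton]
  omega

theorem chain_bound {α : Type*} [PartialOrder α] [DecidableRel (α := α) (· < ·)] (A : Finset α)
    (hchain : ∀ v ∈ A, ∀ v' ∈ A, v ≤ v' ∨ v' ≤ v) (f : α → ℝ) (K : ℝ) (hK : 0 ≤ K) (t : ℝ)
    (hstep : ∀ v ∈ A, f v ≤ K * (t + ∑ v' ∈ A.filter (fun v' => v' < v), f v')) :
    ∀ v ∈ A, t + ∑ v' ∈ A.filter (fun v' => v' < v), f v'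
      ≤ (1 + K) ^ (A.filter (fun v' => v' < v)).card * t := by
  classical
  suffices H : ∀ n : ℕ, ∀ v ∈ A, (A.filter (fun v' => v' < v)).card = n →
      t + ∑ v' ∈ A.filter (fun v' => v' < v), f v' ≤ (1 + K) ^ n * t by
    intro v hv
    exact H _ v hv rfl
  intro n
  induction n with
  | zero =>
    intro v hv hc
    rw [Finset.card_eq_zero] at hc
    rw [hc]; simp
  | succ n ih =>
    intro v hv hc
    have hne : (A.filter (fun v' => v' < v)).Nonempty := by
      rw [← Finset.card_pos]; omega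
    obtain ⟨w, hw, hmax⟩ := (A.filter (fun v' => v' < v)).exists_maximal hne
    have hwA := (Finset.mem_filter.1 hw).1
    have hwv := (Finset.mem_filter.1 hw).2
    have heq : A.filter (fun v' => v' < v) = insert w (A.filter (fun v' => v' < w)) := by
      ext x
      simp only [Finset.mem_filter, Finset.mem_insert]
      constructor
      · rintro ⟨hx, hxv⟩
        by_cases hxw : x = w
        · exact Or.inl hxw
        · right
          refine ⟨hx, lt_of_le_of_ne ?_ hxw⟩
          rcases hchain x hx w hwA with h | h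
          · exact h
          · exact hmax (Finset.mem_filter.2 ⟨hx, hxv⟩) h
      · rintro (rfl | ⟨hx, hxw⟩)
        · exact ⟨hwA, hwv⟩
        · exact ⟨hx, hxw.trans hwv⟩
    have hnot : w ∉ A.filter (fun v' => v' < w) := by simp
    have hcw : (A.filter (fun v' => v' < w)).card = n := by
      rw [heq, Finset.card_insert_of_notMem hnot] at hc; omega
    have h1 := ih w hwA hcw
    have h2 := hstep w hwA
    rw [heq, Finset.sum_insert hnot]
    have h3 : K * (t + ∑ v' ∈ A.filter (fun v' => v' < w), f v') ≤ K * ((1 + K) ^ n * t) :=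
      mul_le_mul_of_nonneg_left h1 hK
    calc t + (f w + ∑ v' ∈ A.filter (fun v' => v' < w), f v')
        = (t + ∑ v' ∈ A.filter (fun v' => v' < w), f v') + f w := by ring
      _ ≤ (1 + K) ^ n * t + K * ((1 + K) ^ n * t) := by linarith
      _ = (1 + K) ^ (n + 1) * t := by ring

open Classical in
/-- a level whose weight dominates `t` and all the smaller levels -/
theorem exists_level (m : ℕ) (K : ℝ) (hK : 0 ≤ K) : ∃ κ : ℝ, 0 < κ ∧
    ∀ (u : Fin m → ℝ) (t : ℝ), 0 ≤ t → t ≤ κ → ∃ v : Fin m → ℤ, 0 < chi v u ∧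
      K * (t + ∑ v' ∈ (near u).filter (fun v' => v' < v), chi v' u) ≤ chi v u := by
  set κ : ℝ := 1 / (2 * ((m : ℝ) + 1) * (1 + K) ^ (2 ^ m)) with hκ
  have hK1 : (1 : ℝ) ≤ 1 + K := by linarith
  have hKp : (0 : ℝ) < (1 + K) ^ (2 ^ m) := by positivity
  have hm : (0 : ℝ) < (m : ℝ) + 1 := by positivity
  refine ⟨κ, by positivity, ?_⟩
  intro u t ht htκ
  by_contra hcon
  push Not at hcon
  obtain ⟨w, hw⟩ := exists_chi u
  have hwpos : 0 < chi w u := lt_of_lt_of_le (by positivity) hw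
  set A := (near u).filter (fun v => chi v u ≠ 0) with hA
  have hsum : ∀ v, ∑ v' ∈ (near u).filter (fun v' => v' < v), chi v' u
      = ∑ v' ∈ A.filter (fun v' => v' < v), chi v' u := by
    intro v
    symm
    apply Finset.sum_subset
    · intro x hx
      simp only [hA, Finset.mem_filter] at hx ⊢
      exact ⟨hx.1.1, hx.2⟩
    · intro x hx hx'
      simp only [hA, Finset.mem_filter] at hx hx'
      by_contra hne
      exact hx' ⟨⟨hx.1, hne⟩, hx.2⟩
  have hchain : ∀ v ∈ A, ∀ v' ∈ A, v ≤ v' ∨ v' ≤ v := by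
    intro v hv v' hv'
    exact chi_comparable (Finset.mem_filter.1 hv).2 (Finset.mem_filter.1 hv').2
  have hstep : ∀ v ∈ A, chi v u ≤ K * (t + ∑ v' ∈ A.filter (fun v' => v' < v), chi v' u) := by
    intro v hv
    rw [← hsum]
    exact (hcon v (lt_of_le_of_ne (chi_nonneg _ _) (Ne.symm (Finset.mem_filter.1 hv).2))).le
  have hmain := chain_bound A hchain (fun v => chi v u) K hK t hstep
  have hwA : w ∈ A := Finset.mem_filter.2 ⟨mem_near hwpos.ne', hwpos.ne'⟩
  have h1 := hmain w hwA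
  have h2 := hstep w hwA
  have hcard : (A.filter (fun v' => v' < w)).card + 1 ≤ 2 ^ m := by
    refine le_trans ?_ (card_near u)
    rw [← Finset.card_insert_of_notMem (s := A.filter (fun v' => v' < w)) (a := w) (by simp)]
    apply Finset.card_le_card
    intro x hx
    rcases Finset.mem_insert.1 hx with rfl | hx
    · exact (Finset.mem_filter.1 hwA).1
    · exact (Finset.mem_filter.1 (Finset.mem_filter.1 hx).1).1
  have h3 : chi w u ≤ (1 + K) ^ (2 ^ m) * t := by
    calc chi w u ≤ K * ((1 + K) ^ (A.filter (fun v' => v' < w)).card * t) :=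
          h2.trans (mul_le_mul_of_nonneg_left h1 hK)
      _ ≤ (1 + K) * ((1 + K) ^ (A.filter (fun v' => v' < w)).card * t) := by
          apply mul_le_mul_of_nonneg_right (by linarith)
          positivity
      _ = (1 + K) ^ ((A.filter (fun v' => v' < w)).card + 1) * t := by ring
      _ ≤ (1 + K) ^ (2 ^ m) * t := by
          apply mul_le_mul_of_nonneg_right _ ht
          exact pow_le_pow_right₀ hK1 hcard
  have h4 : (1 + K) ^ (2 ^ m) * t ≤ (1 + K) ^ (2 ^ m) * κ :=
    mul_le_mul_of_nonneg_left htκ hKp.le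
  have h5 : (1 + K) ^ (2 ^ m) * κ = 1 / (2 * ((m : ℝ) + 1)) := by
    rw [hκ]; field_simp
  have h6 : (1 : ℝ) / (2 * ((m : ℝ) + 1)) < 1 / ((m : ℝ) + 1) := by
    apply one_div_lt_one_div_of_lt hm; linarith
  linarith

/-- the coordinates `u` with `ρ * ∑ l ≤ i, u l = a i` -/
noncomputable def uv (ρ : ℝ) (a : Fin m → ℝ) (l : Fin m) : ℝ :=
  (a l - if h : 0 < (l : ℕ) then a ⟨l - 1, by omega⟩ else 0) / ρ

theorem sum_uv {ρ : ℝ} (hρ : ρ ≠ 0) (a : Fin m → ℝ) (i : Fin m) :
    ρ * ∑ l ∈ Finset.Iic i, uv ρ a l = a i := by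
  obtain ⟨i, hi⟩ := i
  induction i with
  | zero =>
    have : (Finset.Iic (⟨0, hi⟩ : Fin m)) = {⟨0, hi⟩} := by
      ext x
      simp only [Finset.mem_Iic, Finset.mem_singleton, Fin.le_def, Fin.ext_iff]
      omega
    rw [this, Finset.sum_singleton, uv]
    simp
    field_simp
  | succ k ih =>
    have : (Finset.Iic (⟨k + 1, hi⟩ : Fin m)) = insert ⟨k + 1, hi⟩ (Finset.Iic ⟨k, by omega⟩) := by
      ext x
      simp only [Finset.mem_Iic, Finset.mem_insert, Fin.le_def, Fin.ext_iff]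
      omega
    rw [this, Finset.sum_insert (by simp [Fin.le_def]), mul_add, ih (by omega), uv]
    simp
    field_simp
    ring

theorem uv_near {ρ : ℝ} (hρ : 0 < ρ) (a a' : Fin m → ℝ) {η : ℝ} (hη : 0 ≤ η)
    (h : ∀ i, |a' i - a i| ≤ η) (l : Fin m) : |uv ρ a' l - uv ρ a l| ≤ 2 * η / ρ := by
  unfold uv
  rw [← sub_div, abs_div, abs_of_pos hρ]
  apply div_le_div_of_nonneg_right _ hρ.le
  have h1 := abs_le.1 (h l)
  split_ifs with h0
  · have h2 := abs_le.1 (h ⟨l - 1, by omega⟩)
    rw [abs_le]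
    constructor <;> linarith [h1.1, h1.2, h2.1, h2.2]
  · rw [abs_le]
    constructor <;> linarith [h1.1, h1.2]

end Pool.Agent.Helper58.AR
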