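import Pool.Agent.Helper58.AR.Rat

/-!
AR-6b. Rational functions: more functions than variables are dependent; general position.

Proof of `exists_relation_rat`. As in `Helper58/GI/Dep.lean`: let `n = card σ`, `k = card τ > n`, `D` a bound for
the total degrees of all `N t`, `D t`. For `c : (τ → Fin (E + 1)) → ℝ` consider the polynomial
`∑ α, c α * ∏ t, N t ^ α t * D t ^ (E - α t)`, of total degree at most `k E D`; there are
`(E + 1) ^ k` unknowns and at most `(k E D + 1) ^ n` coefficients, so for large `E` some `c ≠ 0` gives the zero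
polynomial. `F = ∑ α, C (c α) * ∏ t, X t ^ α t`; at a point where no `D t` vanishes divide by `∏ D t ^ E`.
Proof of `general_position`. For every `i` let `W = {v // v ∉ range (e i)}`. Substitute `0` for the
variables in `range (e i)` in the numerator and the denominator of `G i q` (by `hind` and `hrat` this does not change
the value of `G i q`, and the denominator stays nonzero on `dom i`): rational functions in the variables
`σ ⊕ W`. Apply `exists_relation_rat` with `τ = V`, the functions `G i q` at `v = e i q` and the variable `v` at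
`v ∉ range (e i)` (`card σ + card W < card V`): `F i ≠ 0` with `F i (ξ') = 0` where `ξ' = ξ` off
`range (e i)` and `ξ' (e i q) = G i q p ξ`. The finite product of the `F i` is nonzero, so there is `ξ` with all
`F i (ξ) ≠ 0` (`MvPolynomial.funext`); by continuity there is `δ > 0` such that `F i` has no zero in the
sup-ball of radius `δ` around `ξ`.

Statement by helper58, proof by helper14.
-/

set_option autoImplicit false

namespace Pool.Agent.Helper58.AR

/-- numerical choice of the exponent bound -/
theorem num_lt_rat {n k D : ℕ} (h : n < k) :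
    (k * ((k * D + 1) ^ n * D) + 1) ^ n < ((k * D + 1) ^ n + 1) ^ k := by
  set A : ℕ := k * D + 1 with hA
  have h1 : k * (A ^ n * D) + 1 ≤ A * (A ^ n + 1) := by
    have : A * (A ^ n + 1) = k * (A ^ n * D) + A ^ n + A := by
      rw [hA]; ring
    rw [this]
    have : 1 ≤ A := by rw [hA]; omega
    omega
  calc (k * (A ^ n * D) + 1) ^ n ≤ (A * (A ^ n + 1)) ^ n := Nat.pow_le_pow_left h1 n
    _ = A ^ n * (A ^ n + 1) ^ n := by rw [mul_pow]
    _ < (A ^ n + 1) * (A ^ n + 1) ^ n :=
        Nat.mul_lt_mul_of_pos_right (Nat.lt_succ_self _) (pow_pos (Nat.succ_pos _) _)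
    _ = (A ^ n + 1) ^ (n + 1) := by rw [pow_succ, mul_comm]
    _ ≤ (A ^ n + 1) ^ k := Nat.pow_le_pow_right (Nat.succ_pos _) h

theorem totalDegree_prod_rat_le {σ τ : Type} [Fintype τ] {D₀ E : ℕ}
    (N D : τ → MvPolynomial σ ℝ) (hN : ∀ t, (N t).totalDegree ≤ D₀)
    (hD : ∀ t, (D t).totalDegree ≤ D₀) (α : τ → Fin (E + 1)) :
    (∏ t, N t ^ (α t : ℕ) * D t ^ (E - (α t : ℕ))).totalDegree ≤ Fintype.card τ * (E * D₀) := by
  refine (MvPolynomial.totalDegree_finsetProd _ _).trans ?_
  have : ∀ t ∈ (Finset.univ : Finset τ),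
      (N t ^ (α t : ℕ) * D t ^ (E - (α t : ℕ))).totalDegree ≤ E * D₀ := by
    intro t _
    refine (MvPolynomial.totalDegree_mul _ _).trans ?_
    have h1 := (MvPolynomial.totalDegree_pow (N t) (α t : ℕ)).trans
      (Nat.mul_le_mul le_rfl (hN t))
    have h2 := (MvPolynomial.totalDegree_pow (D t) (E - (α t : ℕ))).trans
      (Nat.mul_le_mul le_rfl (hD t))
    refine (Nat.add_le_add h1 h2).trans ?_
    rw [← Nat.add_mul]
    refine Nat.mul_le_mul ?_ le_rfl
    have := (α t).2
    omega
  refine (Finset.sum_le_sum this).trans ?_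
  simp

theorem exists_relation_rat {σ τ : Type} [Fintype σ] [Fintype τ]
    (hcard : Fintype.card σ < Fintype.card τ) (N D : τ → MvPolynomial σ ℝ) :
    ∃ F : MvPolynomial τ ℝ, F ≠ 0 ∧ ∀ p : σ → ℝ, (∀ t, MvPolynomial.eval p (D t) ≠ 0) →
      MvPolynomial.eval (fun t => MvPolynomial.eval p (N t) / MvPolynomial.eval p (D t)) F = 0 := by
  classical
  -- a common bound for the degrees
  obtain ⟨D₀, hD₀⟩ : ∃ D₀ : ℕ, ∀ t, (N t).totalDegree ≤ D₀ ∧ (D t).totalDegree ≤ D₀ := by
    refine ⟨∑ t, ((N t).totalDegree + (D t).totalDegree), fun t => ?_⟩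
    have := Finset.single_le_sum (f := fun t => (N t).totalDegree + (D t).totalDegree)
      (fun _ _ => Nat.zero_le _) (Finset.mem_univ t)
    constructor <;> omega
  set k := Fintype.card τ with hk
  set n := Fintype.card σ with hn
  set E : ℕ := (k * D₀ + 1) ^ n with hE
  set B : ℕ := k * (E * D₀) with hB
  let P : (τ → Fin (E + 1)) → MvPolynomial σ ℝ := fun α =>
    ∏ t, N t ^ (α t : ℕ) * D t ^ (E - (α t : ℕ))
  let Φ : ((τ → Fin (E + 1)) → ℝ) →ₗ[ℝ] ((σ → Fin (B + 1)) → ℝ) :=
    { toFun := fun c β => ∑ α, c α *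
        MvPolynomial.coeff (Finsupp.equivFunOnFinite.symm (fun i => (β i : ℕ))) (P α)
      map_add' := by
        intro c c'
        funext β
        simp [add_mul, Finset.sum_add_distrib]
      map_smul' := by
        intro a c
        funext β
        simp [Finset.mul_sum, mul_assoc] }
  have hlt : Module.finrank ℝ ((σ → Fin (B + 1)) → ℝ)
      < Module.finrank ℝ ((τ → Fin (E + 1)) → ℝ) := by
    simp only [Module.finrank_fintype_fun_eq_card, Fintype.card_fun, Fintype.card_fin]
    exact num_lt_rat hcard
  have hker : LinearMap.ker Φ ≠ ⊥ := LinearMap.ker_ne_bot_of_finrank_lt hlt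
  obtain ⟨c, hc, hc0⟩ := Submodule.exists_mem_ne_zero_of_ne_bot hker
  have hΦ : ∀ β : σ → Fin (B + 1), ∑ α, c α *
        MvPolynomial.coeff (Finsupp.equivFunOnFinite.symm (fun i => (β i : ℕ))) (P α) = 0 := by
    intro β
    exact congrFun (LinearMap.mem_ker.mp hc) β
  have hP : ∑ α, MvPolynomial.C (c α) * P α = 0 := by
    ext m
    rw [MvPolynomial.coeff_sum, MvPolynomial.coeff_zero]
    simp only [MvPolynomial.coeff_C_mul]
    by_cases hm : ∀ i, m i < B + 1
    · have := hΦ (fun i => ⟨m i, hm i⟩)
      have hmm : (Finsupp.equivFunOnFinite.symm (fun i => m i) : σ →₀ ℕ) = m := by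
        ext i; simp
      simpa [hmm] using this
    · push Not at hm
      obtain ⟨i, hi⟩ := hm
      refine Finset.sum_eq_zero ?_
      intro α _
      rw [MvPolynomial.coeff_eq_zero_of_totalDegree_lt, mul_zero]
      have hdeg : (P α).totalDegree ≤ B :=
        totalDegree_prod_rat_le N D (fun t => (hD₀ t).1) (fun t => (hD₀ t).2) α
      refine hdeg.trans_lt ?_
      have h1 : m i ≤ ∑ j ∈ m.support, m j := by
        by_cases h0 : m i = 0
        · rw [h0]; exact Nat.zero_le _
        · exact Finset.single_le_sum (f := fun j => m j) (fun _ _ => Nat.zero_le _)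
            (Finsupp.mem_support_iff.mpr h0)
      omega
  -- the relation
  let ex : (τ → Fin (E + 1)) → (τ →₀ ℕ) := fun α =>
    Finsupp.equivFunOnFinite.symm (fun t => (α t : ℕ))
  have hex : Function.Injective ex := by
    intro α α' h
    funext t
    have := congrArg (fun f : τ →₀ ℕ => f t) h
    simp only [ex, Finsupp.equivFunOnFinite_symm_apply_apply] at this
    exact Fin.ext this
  refine ⟨∑ α, MvPolynomial.monomial (ex α) (c α), ?_, ?_⟩
  · intro h0
    obtain ⟨α₀, hα₀⟩ := Function.ne_iff.mp hc0
    apply hα₀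
    have := congrArg (MvPolynomial.coeff (ex α₀)) h0
    rw [MvPolynomial.coeff_sum, MvPolynomial.coeff_zero] at this
    simp only [MvPolynomial.coeff_monomial] at this
    rw [Finset.sum_eq_single α₀] at this
    · simpa using this
    · intro α _ hα
      rw [if_neg]
      intro h
      exact hα (hex h)
    · intro h; exact absurd (Finset.mem_univ _) h
  · intro p hp
    have hev := congrArg (MvPolynomial.eval p) hP
    rw [map_sum, map_zero] at hev
    have hDE : (∏ t, MvPolynomial.eval p (D t) ^ E) ≠ 0 :=
      Finset.prod_ne_zero_iff.mpr fun t _ => pow_ne_zero _ (hp t)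
    have key : (∏ t, MvPolynomial.eval p (D t) ^ E) *
        MvPolynomial.eval (fun t => MvPolynomial.eval p (N t) / MvPolynomial.eval p (D t))
          (∑ α, MvPolynomial.monomial (ex α) (c α)) = 0 := by
      rw [map_sum, Finset.mul_sum, ← hev]
      refine Finset.sum_congr rfl ?_
      intro α _
      rw [map_mul, MvPolynomial.eval_C, MvPolynomial.eval_monomial, map_prod]
      have hprod : (ex α).prod (fun t e => (MvPolynomial.eval p (N t) /
          MvPolynomial.eval p (D t)) ^ e) = ∏ t, (MvPolynomial.eval p (N t) /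
          MvPolynomial.eval p (D t)) ^ (α t : ℕ) := by
        rw [Finsupp.prod_fintype _ _ (fun t => pow_zero _)]
        refine Finset.prod_congr rfl ?_
        intro t _
        simp [ex]
      rw [hprod]
      rw [mul_left_comm, ← Finset.prod_mul_distrib]
      congr 1
      refine Finset.prod_congr rfl ?_
      intro t _
      rw [map_mul, map_pow, map_pow]
      have hα : (α t : ℕ) ≤ E := Nat.lt_succ_iff.mp (α t).2
      have hDt := hp t
      have hsplit : MvPolynomial.eval p (D t) ^ E =
          MvPolynomial.eval p (D t) ^ (E - (α t : ℕ)) * MvPolynomial.eval p (D t) ^ (α t : ℕ) := by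
        rw [← pow_add]; congr 1; omega
      rw [hsplit, div_pow]
      field_simp
    exact (mul_eq_zero.mp key).resolve_left hDE

theorem general_position {σ V Q ι : Type} [Fintype σ] [Fintype V] [Fintype Q] [Finite ι]
    (hcard : Fintype.card σ < Fintype.card Q) (e : ι → Q → V)
    (he : ∀ i, Function.Injective (e i)) (dom : ι → Set (σ → ℝ))
    (G : ι → Q → (σ → ℝ) → (V → ℝ) → ℝ)
    (hind : ∀ i q p ξ ξ', (∀ v, v ∉ Set.range (e i) → ξ v = ξ' v) → G i q p ξ = G i q p ξ')
    (hrat : ∀ i q, IsRat (dom i) (G i q)) :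
    ∃ (ξ : V → ℝ) (δ : ℝ), 0 < δ ∧ ∀ i, ∀ p ∈ dom i, ∃ q, δ < |ξ (e i q) - G i q p ξ| := by
  classical
  -- the relation for one `i`
  have hF : ∀ i, ∃ F : MvPolynomial V ℝ, F ≠ 0 ∧ ∀ p ∈ dom i, ∀ ξ : V → ℝ,
      MvPolynomial.eval (fun v => if h : ∃ q, e i q = v then G i h.choose p ξ else ξ v) F = 0 := by
    intro i
    choose N D hND using hrat i
    let φ : MvPolynomial (σ ⊕ V) ℝ →ₐ[ℝ] MvPolynomial (σ ⊕ {v : V // v ∉ Set.range (e i)}) ℝ :=
      MvPolynomial.aeval (Sum.elim (fun s => MvPolynomial.X (Sum.inl s))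
        (fun v => if h : v ∉ Set.range (e i) then MvPolynomial.X (Sum.inr ⟨v, h⟩) else 0))
    have hφ : ∀ (p : σ → ℝ) (η : {v : V // v ∉ Set.range (e i)} → ℝ) (R : MvPolynomial (σ ⊕ V) ℝ),
        MvPolynomial.eval (Sum.elim p η) (φ R) =
          MvPolynomial.eval (Sum.elim p (fun v => if h : v ∉ Set.range (e i) then η ⟨v, h⟩ else 0))
            R := by
      intro p η R
      induction R using MvPolynomial.induction_on with
      | C a => simp [φ]
      | add a b ha hb => simp only [map_add, ha, hb]
      | mul_X a s ha =>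
        rw [map_mul, map_mul, ha, map_mul]
        congr 1
        rcases s with s | v
        · simp [φ]
        · by_cases h : v ∉ Set.range (e i)
          · simp only [φ, MvPolynomial.aeval_X, Sum.elim_inr, MvPolynomial.eval_X, dif_pos h]
          · simp only [φ, MvPolynomial.aeval_X, Sum.elim_inr, MvPolynomial.eval_X, dif_neg h,
              map_zero]
    have hc : Fintype.card (σ ⊕ {v : V // v ∉ Set.range (e i)}) < Fintype.card V := by
      rw [Fintype.card_sum]
      have h1 : Fintype.card {v : V // v ∉ Set.range (e i)} =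
          Fintype.card V - Fintype.card {v : V // v ∈ Set.range (e i)} := by
        have := Fintype.card_subtype_compl (fun v : V => v ∈ Set.range (e i))
        convert this
      have h2 : Fintype.card {v : V // v ∈ Set.range (e i)} = Fintype.card Q := by
        have := Set.card_range_of_injective (he i)
        convert this
      have h3 : Fintype.card Q ≤ Fintype.card V := Fintype.card_le_of_injective _ (he i)
      omega
    obtain ⟨F, hF0, hFz⟩ := exists_relation_rat hc
      (fun v : V => if h : ∃ q, e i q = v then φ (N h.choose) else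
        MvPolynomial.X (Sum.inr ⟨v, fun hv => h hv⟩))
      (fun v : V => if h : ∃ q, e i q = v then φ (D h.choose) else 1)
    refine ⟨F, hF0, ?_⟩
    intro p hp ξ
    have hagree : ∀ q, G i q p ξ = G i q p (fun v => if h : v ∉ Set.range (e i) then
        (fun w : {v : V // v ∉ Set.range (e i)} => ξ w) ⟨v, h⟩ else 0) := by
      intro q
      refine hind i q p _ _ ?_
      intro v hv
      simp [hv]
    have hz := hFz (Sum.elim p (fun w => ξ w)) (by
      intro v
      by_cases h : ∃ q, e i q = v
      · rw [dif_pos h, hφ]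
        exact (hND h.choose p hp _).1
      · rw [dif_neg h, map_one]
        exact one_ne_zero)
    rw [← hz]
    congr 1
    refine congrArg MvPolynomial.eval ?_
    funext v
    by_cases h : ∃ q, e i q = v
    · rw [dif_pos h, dif_pos h, dif_pos h, hφ, hφ, hagree, (hND h.choose p hp _).2]
    · rw [dif_neg h, dif_neg h, dif_neg h, map_one, div_one, MvPolynomial.eval_X, Sum.elim_inr]
  choose F hF0 hFz using hF
  haveI : Fintype ι := Fintype.ofFinite ι
  have hprod : (∏ i, F i) ≠ 0 := Finset.prod_ne_zero_iff.mpr fun i _ => hF0 i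
  obtain ⟨ξ, hξ⟩ : ∃ ξ : V → ℝ, MvPolynomial.eval ξ (∏ i, F i) ≠ 0 := by
    by_contra hcon
    push Not at hcon
    exact hprod (MvPolynomial.funext fun x => by rw [hcon x, map_zero])
  have hopen : IsOpen {x : V → ℝ | MvPolynomial.eval x (∏ i, F i) ≠ 0} :=
    isOpen_ne_fun (MvPolynomial.continuous_eval _) continuous_const
  obtain ⟨ε, hε, hball⟩ := Metric.isOpen_iff.mp hopen ξ hξ
  refine ⟨ξ, ε / 2, by positivity, ?_⟩
  intro i p hp
  by_contra hcon
  push Not at hcon
  have hz := hFz i p hp ξ
  have hmem : (fun v => if h : ∃ q, e i q = v then G i h.choose p ξ else ξ v) ∈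
      Metric.ball ξ ε := by
    rw [Metric.mem_ball, dist_pi_lt_iff hε]
    intro v
    by_cases h : ∃ q, e i q = v
    · simp only [dif_pos h]
      rw [Real.dist_eq, abs_sub_comm]
      have := hcon h.choose
      rw [h.choose_spec] at this
      linarith
    · simp only [dif_neg h, dist_self]
      exact hε
  apply hball hmem
  rw [map_prod]
  exact Finset.prod_eq_zero (Finset.mem_univ i) hz

end Pool.Agent.Helper58.AR
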