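import Mathlib

/-!
AR-4a. The bump function `theta`.

Proofs. `theta_lip`: `t ↦ max 0 (4 - t ^ 2)` is `4`-Lipschitz with values in `[0, 4]`; a product of at most
`m * m` such factors (`Finset.prod` of numbers in `[0, 4]`: `|∏ a - ∏ b| ≤ 4 ^ (k - 1) ∑ |a - b|`).
-/

set_option autoImplicit false

namespace Pool.Agent.Helper58.AR

variable {m : ℕ}

/-- the bump function -/
noncomputable def theta (n : Matrix (Fin m) (Fin m) ℝ) : ℝ :=
  ∏ i, ∏ j, if j < i then max 0 (4 - (n i j) ^ 2) else 1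

/-- the polynomial which gives `theta` on its support -/
noncomputable def thp (n : Matrix (Fin m) (Fin m) ℝ) : ℝ :=
  ∏ i, ∏ j, if j < i then 4 - (n i j) ^ 2 else 1

private lemma fac_nonneg (x : ℝ) : 0 ≤ max 0 (4 - x ^ 2) := le_max_left _ _

private lemma fac_le (x : ℝ) : max 0 (4 - x ^ 2) ≤ 4 :=
  max_le (by norm_num) (by nlinarith [sq_nonneg x])

private lemma fac_eq (x : ℝ) : max 0 (4 - x ^ 2) = 4 - (min 2 |x|) ^ 2 := by
  rcases le_total 2 |x| with h | h
  · rw [min_eq_left h, max_eq_left]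
    · norm_num
    · rw [← sq_abs]
      nlinarith
  · rw [min_eq_right h, sq_abs, max_eq_right]
    rw [← sq_abs]
    have := abs_nonneg x
    nlinarith

private lemma fac_lip (x y : ℝ) : |max 0 (4 - x ^ 2) - max 0 (4 - y ^ 2)| ≤ 4 * |x - y| := by
  rw [fac_eq, fac_eq]
  have h1 : |min 2 (|x|) - min 2 (|y|)| ≤ |x - y| := by
    refine (abs_min_sub_min_le_max 2 |x| 2 |y|).trans ?_
    rw [sub_self, abs_zero]
    exact max_le (abs_nonneg _) (abs_abs_sub_abs_le _ _)
  have hx0 : 0 ≤ min 2 |x| := le_min (by norm_num) (abs_nonneg _)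
  have hy0 : 0 ≤ min 2 |y| := le_min (by norm_num) (abs_nonneg _)
  have hx2 : min 2 |x| ≤ 2 := min_le_left _ _
  have hy2 : min 2 |y| ≤ 2 := min_le_left _ _
  have h2 : 4 - (min 2 |x|) ^ 2 - (4 - (min 2 |y|) ^ 2)
      = -((min 2 |x| + min 2 |y|) * (min 2 |x| - min 2 |y|)) := by ring
  rw [h2, abs_neg, abs_mul, abs_of_nonneg (by linarith : 0 ≤ min 2 |x| + min 2 |y|)]
  calc (min 2 |x| + min 2 |y|) * |min 2 (|x|) - min 2 (|y|)| ≤ 4 * |x - y| := by
        apply mul_le_mul (by linarith) h1 (abs_nonneg _) (by norm_num)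

/-- a factor of `theta` -/
private noncomputable def fc (n : Matrix (Fin m) (Fin m) ℝ) (p : Fin m × Fin m) : ℝ :=
  if p.2 < p.1 then max 0 (4 - (n p.1 p.2) ^ 2) else 1

private lemma theta_eq (n : Matrix (Fin m) (Fin m) ℝ) : theta n = ∏ p : Fin m × Fin m, fc n p := by
  unfold theta
  rw [Fintype.prod_prod_type]
  rfl

private lemma fc_nonneg (n : Matrix (Fin m) (Fin m) ℝ) (p : Fin m × Fin m) : 0 ≤ fc n p := by
  unfold fc
  split_ifs
  · exact fac_nonneg _
  · exact zero_le_one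

private lemma fc_le (n : Matrix (Fin m) (Fin m) ℝ) (p : Fin m × Fin m) : fc n p ≤ 4 := by
  unfold fc
  split_ifs
  · exact fac_le _
  · norm_num

private lemma prod_lip {ι : Type*} [DecidableEq ι] (s : Finset ι) (f g : ι → ℝ) (δ : ℝ) (hδ : 0 ≤ δ)
    (hf : ∀ i, 0 ≤ f i) (hf4 : ∀ i, f i ≤ 4) (hg : ∀ i, 0 ≤ g i) (hg4 : ∀ i, g i ≤ 4)
    (h : ∀ i, |f i - g i| ≤ δ) :
    |∏ i ∈ s, f i - ∏ i ∈ s, g i| ≤ s.card * 4 ^ s.card * δ := by
  induction s using Finset.induction_on with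
  | empty => simp
  | insert a s ha ih =>
    rw [Finset.prod_insert ha, Finset.prod_insert ha, Finset.card_insert_of_notMem ha]
    have e1 : f a * ∏ i ∈ s, f i - g a * ∏ i ∈ s, g i
        = (f a - g a) * ∏ i ∈ s, f i + g a * (∏ i ∈ s, f i - ∏ i ∈ s, g i) := by ring
    have h1 : |∏ i ∈ s, f i| ≤ 4 ^ s.card := by
      rw [abs_of_nonneg (Finset.prod_nonneg fun i _ => hf i)]
      calc ∏ i ∈ s, f i ≤ ∏ _i ∈ s, (4 : ℝ) := Finset.prod_le_prod (fun i _ => hf i) fun i _ => hf4 i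
        _ = 4 ^ s.card := by rw [Finset.prod_const]
    rw [e1]
    calc |(f a - g a) * ∏ i ∈ s, f i + g a * (∏ i ∈ s, f i - ∏ i ∈ s, g i)|
        ≤ |(f a - g a) * ∏ i ∈ s, f i| + |g a * (∏ i ∈ s, f i - ∏ i ∈ s, g i)| := abs_add_le _ _
      _ = |f a - g a| * |∏ i ∈ s, f i| + |g a| * |∏ i ∈ s, f i - ∏ i ∈ s, g i| := by
          rw [abs_mul, abs_mul]
      _ ≤ δ * 4 ^ s.card + 4 * (s.card * 4 ^ s.card * δ) := by
          apply add_le_add
          · exact mul_le_mul (h a) h1 (abs_nonneg _) hδ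
          · rw [abs_of_nonneg (hg a)]
            exact mul_le_mul (hg4 a) ih (abs_nonneg _) (by norm_num)
      _ ≤ ((s.card + 1 : ℕ) : ℝ) * 4 ^ (s.card + 1) * δ := by
          have h4 : (0 : ℝ) ≤ 4 ^ s.card * δ := by positivity
          rw [Nat.cast_add, Nat.cast_one, pow_succ]
          nlinarith

theorem theta_nonneg (n : Matrix (Fin m) (Fin m) ℝ) : 0 ≤ theta n := by
  unfold theta
  refine Finset.prod_nonneg fun i _ => Finset.prod_nonneg fun j _ => ?_
  split_ifs
  · exact fac_nonneg _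
  · exact zero_le_one

theorem theta_le (n : Matrix (Fin m) (Fin m) ℝ) : theta n ≤ 4 ^ (m * m) := by
  rw [theta_eq]
  calc ∏ p : Fin m × Fin m, fc n p ≤ ∏ _p : Fin m × Fin m, (4 : ℝ) :=
        Finset.prod_le_prod (fun p _ => fc_nonneg n p) fun p _ => fc_le n p
    _ = 4 ^ (m * m) := by
        rw [Finset.prod_const, Finset.card_univ, Fintype.card_prod, Fintype.card_fin]

theorem abs_lt_of_theta {n : Matrix (Fin m) (Fin m) ℝ} (h : theta n ≠ 0) (i j : Fin m)
    (hij : j < i) : |n i j| < 2 := by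
  have h0 : max 0 (4 - (n i j) ^ 2) ≠ 0 := by
    rw [theta_eq, Finset.prod_ne_zero_iff] at h
    have h1 := h (i, j) (Finset.mem_univ _)
    unfold fc at h1
    simpa [hij] using h1
  have h1 : 0 < 4 - (n i j) ^ 2 := by
    by_contra hc
    exact h0 (max_eq_left (not_lt.mp hc))
  exact abs_lt_of_sq_lt_sq (by linarith) (by norm_num)

theorem thp_eq {n : Matrix (Fin m) (Fin m) ℝ} (h : theta n ≠ 0) : thp n = theta n := by
  unfold thp theta
  refine Finset.prod_congr rfl fun i _ => Finset.prod_congr rfl fun j _ => ?_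
  split_ifs with hij
  · have h1 := abs_lt_of_theta h i j hij
    have h2 : (n i j) ^ 2 < 2 ^ 2 := sq_lt_sq' (by linarith [(abs_lt.mp h1).1]) (abs_lt.mp h1).2
    rw [max_eq_right (by linarith)]
  · rfl

theorem one_le_theta {n : Matrix (Fin m) (Fin m) ℝ} (h : ∀ i j, j < i → |n i j| ≤ 1) :
    1 ≤ theta n := by
  rw [theta_eq]
  calc (1 : ℝ) = ∏ _p : Fin m × Fin m, (1 : ℝ) := by rw [Finset.prod_const_one]
    _ ≤ ∏ p : Fin m × Fin m, fc n p := by
        refine Finset.prod_le_prod (fun _ _ => zero_le_one) fun p _ => ?_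
        unfold fc
        split_ifs with hp
        · have h1 := h p.1 p.2 hp
          have h2 : (n p.1 p.2) ^ 2 ≤ 1 := by
            rw [← sq_abs]
            nlinarith [abs_nonneg (n p.1 p.2)]
          exact le_max_of_le_right (by linarith)
        · exact le_rfl

theorem theta_lip (m : ℕ) : ∃ C : ℝ, 0 ≤ C ∧ ∀ (n n' : Matrix (Fin m) (Fin m) ℝ) (η : ℝ),
    0 ≤ η → (∀ i j, j < i → |n i j - n' i j| ≤ η) → |theta n - theta n'| ≤ C * η := by
  refine ⟨((Finset.univ : Finset (Fin m × Fin m)).card : ℝ)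
    * 4 ^ (Finset.univ : Finset (Fin m × Fin m)).card * 4, by positivity, ?_⟩
  intro n n' η hη h
  rw [theta_eq, theta_eq]
  have h1 := prod_lip (Finset.univ : Finset (Fin m × Fin m)) (fc n) (fc n') (4 * η) (by linarith)
    (fc_nonneg n) (fc_le n) (fc_nonneg n') (fc_le n') (fun p => by
      unfold fc
      split_ifs with hp
      · exact (fac_lip _ _).trans (mul_le_mul_of_nonneg_left (h p.1 p.2 hp) (by norm_num))
      · rw [sub_self, abs_zero]
        linarith)
  refine h1.trans (le_of_eq ?_)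
  ring

end Pool.Agent.Helper58.AR
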