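import Pool.Agent.Helper58.AR.Gram
import Pool.Agent.Helper58.AR.Theta
import Pool.Agent.Helper58.AR.GenPos

/-!
AR-7. The choice of the generic parameters `ξ`.

Proof. `general_position` with `V = (Fin m → ZMod 2) × Matrix (Fin m) (Fin m) (ZMod M) × Fin (d + 1)`,
`Q = Fin J × Fin (d + 1)`, `σ` = the parameters `z` (`Fin (d + 1)`), `w` (`Fin m → ZMod 2`), the entries of
`X` (`(Fin m → ZMod 2) × Fin m × Fin m`) and `Y` (`Fin J × Fin d`), a sum type of cardinality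
`(d + 1) + 2 ^ m + 2 ^ m * (m * m) + J * d < J * (d + 1)`. `ι` = the tuples `(c, I, ω, k)` with the stated
conditions (a finite type: `ZMod M` is finite, `I a` is a subset of the finite set `univ ×ˢ W`, `k a ∈ W`;
use a subtype of `(_ → Matrix _ _ (ZMod M)) × (Fin J → Finset (_ × W)) × _ × (Fin J → W)`, or prove
finiteness of the set of tuples). `e (a, l) = (ω, k a * c ω, l)`, injective by hypothesis. `dom` = the
parameters with `det X o ≠ 0`, `det PY a ≠ 0`, `w ω ≠ 0`, `thp (k a * na (X ω * PY a)) ≠ 0`. `G (a, l)` = the quotient in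
the statement; it does not depend on the `ξ` at `range e` by the last hypothesis on `I`, and it is
rational: the entries of `na` are quotients of Gram determinants (`na_eq`, `gram_pos`), polynomials in the
entries of `X o` and `Y a`; `IsRat.*`.
-/

set_option autoImplicit false

namespace Pool.Agent.Helper58.AR

variable {m : ℕ}

/-- the matrix of polynomials at the parameters `y` -/
noncomputable def matP {d : ℕ} (P : Fin m → Fin m → MvPolynomial (Fin d) ℝ) (y : Fin d → ℝ) :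
    Matrix (Fin m) (Fin m) ℝ := Matrix.of fun i j => MvPolynomial.eval y (P i j)

/-- the colour of the box `w` relative to the residue class `c` of the base box -/
def col {M : ℕ} (w : Matrix (Fin m) (Fin m) ℤ) (c : Matrix (Fin m) (Fin m) (ZMod M)) :
    Matrix (Fin m) (Fin m) (ZMod M) := w.map (Int.castRingHom (ZMod M)) * c

/-- the index set of the parameters -/
abbrev PIdx (m d J : ℕ) : Type :=
  Fin (d + 1) ⊕ (Fin m → ZMod 2) ⊕ ((Fin m → ZMod 2) × Fin m × Fin m) ⊕ (Fin J × Fin d)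

/-- the parameter `z` -/
def pz {m d J : ℕ} (p : PIdx m d J → ℝ) (l : Fin (d + 1)) : ℝ := p (Sum.inl l)

/-- the parameter `w` -/
def pw {m d J : ℕ} (p : PIdx m d J → ℝ) (o : Fin m → ZMod 2) : ℝ := p (Sum.inr (Sum.inl o))

/-- the parameter `X` -/
def pX {m d J : ℕ} (p : PIdx m d J → ℝ) (o : Fin m → ZMod 2) : Matrix (Fin m) (Fin m) ℝ :=
  Matrix.of fun i j => p (Sum.inr (Sum.inr (Sum.inl (o, i, j))))

/-- the parameter `Y` -/
def pY {m d J : ℕ} (p : PIdx m d J → ℝ) (a : Fin J) : Fin d → ℝ :=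
  fun i => p (Sum.inr (Sum.inr (Sum.inr (a, i))))

theorem card_PIdx (m d J : ℕ) : Fintype.card (PIdx m d J) =
    (d + 1) + (2 ^ m + (2 ^ m * (m * m) + J * d)) := by
  simp [PIdx, Fintype.card_sum, Fintype.card_prod, ZMod.card]

theorem isRat_thp {σ V : Type} {dom : Set (σ → ℝ)}
    (A : (σ → ℝ) → (V → ℝ) → Matrix (Fin m) (Fin m) ℝ)
    (h : ∀ i j, IsRat dom (fun p ξ => A p ξ i j)) : IsRat dom (fun p ξ => thp (A p ξ)) := by
  unfold thp
  refine IsRat.prod _ _ fun i _ => IsRat.prod _ _ fun j _ => ?_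
  by_cases hij : j < i
  · simp only [if_pos hij]
    have h2 : IsRat dom (fun p ξ => (A p ξ i j) ^ 2) :=
      ((h i j).mul (h i j)).congr fun p _ ξ => pow_two _
    exact (IsRat.const 4).sub h2
  · simp only [if_neg hij]
    exact IsRat.const 1

theorem isRat_na {σ V : Type} {dom : Set (σ → ℝ)}
    (A : (σ → ℝ) → (V → ℝ) → Matrix (Fin m) (Fin m) ℝ)
    (h : ∀ i j, IsRat dom (fun p ξ => A p ξ i j))
    (hu : ∀ p ∈ dom, ∀ ξ, IsUnit (A p ξ).det) (i j : Fin m) :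
    IsRat dom (fun p ξ => na (A p ξ) i j) := by
  have hm : ∀ i j, IsRat dom (fun p ξ => (A p ξ * (A p ξ).transpose) i j) := by
    intro i j
    have : IsRat dom (fun p ξ => ∑ l, A p ξ i l * A p ξ j l) :=
      IsRat.sum _ _ fun l _ => (h i l).mul (h j l)
    refine this.congr fun p _ ξ => ?_
    simp [Matrix.mul_apply, Matrix.transpose_apply]
  have hn : IsRat dom (fun p ξ =>
      ((A p ξ * (A p ξ).transpose).submatrix (rsel i j) (emb j)).det) :=
    IsRat.det _ fun s t => hm _ _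
  have hd : IsRat dom (fun p ξ => gram (A p ξ) j) :=
    IsRat.det (fun p ξ => (A p ξ * (A p ξ).transpose).submatrix (emb j) (emb j))
      fun s t => hm _ _
  refine (hn.div hd fun p hp ξ => (gram_pos _ (hu p hp ξ) j).ne').congr fun p hp ξ => ?_
  exact na_eq _ (hu p hp ξ) i j

theorem isRat_mulmat {σ V : Type} {dom : Set (σ → ℝ)}
    (A B : (σ → ℝ) → (V → ℝ) → Matrix (Fin m) (Fin m) ℝ)
    (hA : ∀ i j, IsRat dom (fun p ξ => A p ξ i j))
    (hB : ∀ i j, IsRat dom (fun p ξ => B p ξ i j)) (i j : Fin m) :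
    IsRat dom (fun p ξ => (A p ξ * B p ξ) i j) := by
  have : IsRat dom (fun p ξ => ∑ l, A p ξ i l * B p ξ l j) :=
    IsRat.sum _ _ fun l _ => (hA i l).mul (hB l j)
  exact this.congr fun p _ ξ => Matrix.mul_apply

theorem isRat_thpna {d J : ℕ} {V : Type} {dom : Set (PIdx m d J → ℝ)}
    (P : Fin m → Fin m → MvPolynomial (Fin d) ℝ) (k : Matrix (Fin m) (Fin m) ℤ)
    (o : Fin m → ZMod 2) (a : Fin J)
    (hu : ∀ p ∈ dom, IsUnit (pX p o).det ∧ IsUnit (matP P (pY p a)).det) :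
    IsRat dom (fun p (_ : V → ℝ) =>
      thp (k.map (Int.castRingHom ℝ) * na (pX p o * matP P (pY p a)))) := by
  refine isRat_thp _ (isRat_mulmat _ _ (fun i j => IsRat.const _) ?_)
  refine isRat_na _ (isRat_mulmat _ _ (fun i j => IsRat.param _) fun i j => ?_) ?_
  · exact IsRat.eval (P i j) (fun i => Sum.inr (Sum.inr (Sum.inr (a, i))))
  · intro p hp ξ
    rw [Matrix.det_mul]
    exact (hu p hp).1.mul (hu p hp).2

theorem pattern (m d J M : ℕ) [NeZero M] (hJ : (d + 1) + 2 ^ m * (1 + m * m) < J)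
    (P : Fin m → Fin m → MvPolynomial (Fin d) ℝ) (W : Finset (Matrix (Fin m) (Fin m) ℤ)) :
    ∃ (ξ : (Fin m → ZMod 2) → Matrix (Fin m) (Fin m) (ZMod M) → Fin (d + 1) → ℝ) (δ : ℝ), 0 < δ ∧
    ∀ (c : (Fin m → ZMod 2) → Matrix (Fin m) (Fin m) (ZMod M))
      (I : Fin J → Finset ((Fin m → ZMod 2) × Matrix (Fin m) (Fin m) ℤ)) (ω : Fin m → ZMod 2)
      (k : Fin J → Matrix (Fin m) (Fin m) ℤ),
      (∀ a, ∀ p ∈ I a, p.2 ∈ W) → (∀ a, (ω, k a) ∈ I a) →
      (∀ a b, col (k a) (c ω) = col (k b) (c ω) → a = b) →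
      (∀ a b, ∀ p ∈ I a, p ≠ (ω, k a) → p.1 = ω → col p.2 (c p.1) ≠ col (k b) (c ω)) →
      ∀ (z : Fin (d + 1) → ℝ) (w : (Fin m → ZMod 2) → ℝ)
        (X : (Fin m → ZMod 2) → Matrix (Fin m) (Fin m) ℝ) (Y : Fin J → Fin d → ℝ),
        (∀ o, IsUnit (X o).det) → (∀ a, IsUnit (matP P (Y a)).det) → w ω ≠ 0 →
        (∀ a, thp ((k a).map (Int.castRingHom ℝ) * na (X ω * matP P (Y a))) ≠ 0) →
        ∃ a l, δ < |ξ ω (col (k a) (c ω)) l -
          (z l - ∑ p ∈ (I a).erase (ω, k a), w p.1 *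
            thp (p.2.map (Int.castRingHom ℝ) * na (X p.1 * matP P (Y a))) *
              ξ p.1 (col p.2 (c p.1)) l) /
          (w ω * thp ((k a).map (Int.castRingHom ℝ) * na (X ω * matP P (Y a))))| := by
  classical
  letI : Fintype (ZMod M) := ZMod.fintype M
  let O : Type := Fin m → ZMod 2
  let MZ : Type := Matrix (Fin m) (Fin m) ℤ
  let MM : Type := Matrix (Fin m) (Fin m) (ZMod M)
  let V : Type := O × MM × Fin (d + 1)
  let T : Type := (O → MM) × (Fin J → Finset (O × MZ)) × O × (Fin J → MZ)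
  let S : Set T := {t | (∀ a, ∀ p ∈ t.2.1 a, p.2 ∈ W) ∧ (∀ a, (t.2.2.1, t.2.2.2 a) ∈ t.2.1 a) ∧
      (∀ a b, col (t.2.2.2 a) (t.1 t.2.2.1) = col (t.2.2.2 b) (t.1 t.2.2.1) → a = b) ∧
      (∀ a b, ∀ p ∈ t.2.1 a, p ≠ (t.2.2.1, t.2.2.2 a) → p.1 = t.2.2.1 →
        col p.2 (t.1 p.1) ≠ col (t.2.2.2 b) (t.1 t.2.2.1))}
  have hS : S.Finite := by
    have h1 : ((Set.univ : Set (O → MM)) ×ˢ
        ((Set.univ.pi fun _ : Fin J =>
          (((Finset.univ : Finset O) ×ˢ W).powerset : Set (Finset (O × MZ)))) ×ˢ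
          ((Set.univ : Set O) ×ˢ (Set.univ.pi fun _ : Fin J => (W : Set MZ))))).Finite := by
      refine Set.finite_univ.prod (Set.Finite.prod (Set.Finite.pi fun _ => Finset.finite_toSet _)
        (Set.finite_univ.prod (Set.Finite.pi fun _ => Finset.finite_toSet _)))
    refine h1.subset ?_
    rintro ⟨c, I, ω, k⟩ ⟨h1, h2, -, -⟩
    refine ⟨Set.mem_univ _, ?_, Set.mem_univ _, ?_⟩
    · intro a _
      simp only [Finset.coe_powerset, Set.mem_preimage, Set.mem_powerset_iff, Finset.coe_subset]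
      intro p hp
      exact Finset.mem_product.2 ⟨Finset.mem_univ _, h1 a p hp⟩
    · intro a _
      exact h1 a _ (h2 a)
  have : Finite S := hS.to_subtype
  let e : S → Fin J × Fin (d + 1) → V := fun t q =>
    (t.1.2.2.1, col (t.1.2.2.2 q.1) (t.1.1 t.1.2.2.1), q.2)
  have he : ∀ t, Function.Injective (e t) := by
    rintro ⟨⟨c, I, ω, k⟩, h1, h2, h3, h4⟩ ⟨a, l⟩ ⟨b, l'⟩ h
    have h5 := congrArg (fun v : V => v.2.1) h
    have h6 := congrArg (fun v : V => v.2.2) h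
    simp only [e] at h5 h6
    exact Prod.ext (h3 _ _ h5) h6
  let dom : S → Set (PIdx m d J → ℝ) := fun t => {p | (∀ o, IsUnit (pX p o).det) ∧
    (∀ a, IsUnit (matP P (pY p a)).det) ∧ pw p t.1.2.2.1 ≠ 0 ∧
    ∀ a, thp ((t.1.2.2.2 a).map (Int.castRingHom ℝ) * na (pX p t.1.2.2.1 * matP P (pY p a))) ≠ 0}
  let G : S → Fin J × Fin (d + 1) → (PIdx m d J → ℝ) → (V → ℝ) → ℝ := fun t q p ξ =>
    (pz p q.2 - ∑ r ∈ (t.1.2.1 q.1).erase (t.1.2.2.1, t.1.2.2.2 q.1), pw p r.1 *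
      thp (r.2.map (Int.castRingHom ℝ) * na (pX p r.1 * matP P (pY p q.1))) *
        ξ (r.1, col r.2 (t.1.1 r.1), q.2)) /
    (pw p t.1.2.2.1 * thp ((t.1.2.2.2 q.1).map (Int.castRingHom ℝ) *
      na (pX p t.1.2.2.1 * matP P (pY p q.1))))
  have hcard : Fintype.card (PIdx m d J) < Fintype.card (Fin J × Fin (d + 1)) := by
    rw [card_PIdx, Fintype.card_prod, Fintype.card_fin, Fintype.card_fin, Nat.mul_add, Nat.mul_one]
    have : 2 ^ m * (1 + m * m) = 2 ^ m + 2 ^ m * (m * m) := by ring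
    omega
  have hind : ∀ i q p ξ ξ', (∀ v, v ∉ Set.range (e i) → ξ v = ξ' v) →
      G i q p ξ = G i q p ξ' := by
    rintro ⟨⟨c, I, ω, k⟩, h1, h2, h3, h4⟩ ⟨a, l⟩ p ξ ξ' hv
    simp only [G]
    congr 2
    refine Finset.sum_congr rfl fun r hr => ?_
    rw [hv]
    rintro ⟨⟨b, l'⟩, hb⟩
    simp only [e] at hb
    have h5 := congrArg (fun v : V => v.1) hb
    have h6 := congrArg (fun v : V => v.2.1) hb
    simp only at h5 h6
    rw [Finset.mem_erase] at hr
    exact h4 a b r hr.2 hr.1 h5.symm h6.symm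
  have hrat : ∀ i q, IsRat (dom i) (G i q) := by
    rintro ⟨⟨c, I, ω, k⟩, h1, h2, h3, h4⟩ ⟨a, l⟩
    simp only [G]
    refine IsRat.div (IsRat.sub (IsRat.param _) (IsRat.sum _ _ fun r _ => ?_)) ?_ ?_
    · refine IsRat.mul (IsRat.mul (IsRat.param _) ?_) (IsRat.var _)
      exact isRat_thpna P r.2 r.1 a fun p hp => ⟨hp.1 _, hp.2.1 _⟩
    · refine IsRat.mul (IsRat.param _) ?_
      exact isRat_thpna P (k a) ω a fun p hp => ⟨hp.1 _, hp.2.1 _⟩
    · intro p hp ξ
      exact mul_ne_zero hp.2.2.1 (hp.2.2.2 a)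
  obtain ⟨ξ, δ, hδ, hξ⟩ := general_position hcard e he dom G hind hrat
  · refine ⟨fun o x l => ξ (o, x, l), δ, hδ, ?_⟩
    intro c I ω k h1 h2 h3 h4 z w X Y hX hY hw hth
    let p : PIdx m d J → ℝ := Sum.elim z (Sum.elim w (Sum.elim (fun x => X x.1 x.2.1 x.2.2)
      (fun x => Y x.1 x.2)))
    have hpX : ∀ o, pX p o = X o := fun o => by ext i j; rfl
    have hpY : ∀ a, pY p a = Y a := fun a => by ext i; rfl
    have hpw : ∀ o, pw p o = w o := fun o => rfl
    have hpz : ∀ l, pz p l = z l := fun l => rfl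
    obtain ⟨⟨a, l⟩, hq⟩ := hξ ⟨(c, I, ω, k), h1, h2, h3, h4⟩ p (by
      refine ⟨fun o => ?_, fun a => ?_, ?_, fun a => ?_⟩
      · rw [hpX]; exact hX o
      · rw [hpY]; exact hY a
      · exact hw
      · rw [hpX, hpY]; exact hth a)
    refine ⟨a, l, ?_⟩
    simpa only [e, G, hpX, hpY, hpw, hpz] using hq

end Pool.Agent.Helper58.AR
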