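import Pool.Agent.Helper58.AR.Phi
import Pool.Agent.Helper58.AR.Pattern

/-!
AR-9. No bad configuration: the points of a coset on which `phi` is almost constant do not meet `J` far
apart boxes of a dominating level.

Proof. `B₃` from `rel_bound m 1` (with `e = 1`: two boxes which both meet the same point have relative
position bounded by `B₃`). Given `B`: (1) relative displacement: with `f₀ = δ₀ n₀`, `f_a = δ_a n_a`
(`n₀ = sc v (na X)`, `n_a = sc v (na (X * matP P (Y a)))`), `n₀⁻¹ n_a = f₀⁻¹ w_a⁻¹ f_a` is bounded in terms of `m, B`;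
at a level `v' ≥ v` it is smaller (`sc_le`, `sc_mul`). (2) Hence for every level `v' ≥ v`, with `δ'` reducing
`sc v' (na X)`, every box `δ` with `theta (δ * sc v' (na (X * matP P (Y a)))) ≠ 0` is `δ = w * δ'` with the entries of `w`
bounded by some `B₂ = B₂(m, B)`; `W` = the finite set of unitriangular `w` with entries bounded by
`max B B₂` (`finite_bounded`), `M > 2 * max B B₂ + 1`, so that `w ↦ col w c` is injective on `W` for every
unitriangular `c`. `ξ, δ` from `pattern` with `J = Jn m d`, `A` = a bound for `|ξ|`.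
(3) Given the data, for a class `o` let `v_o` be the unique level `≥ v` with `chi v_o u ≠ 0` and
`cls v_o = o` if there is one (`chi_parity`), `δ_o` its reducing matrix for `sc v_o (na X)`, `c o` = `δ_o` mod `M`,
`w o = chi v_o u`, `X o = δ_o * diag (exp (- pot v_o)) * X`; otherwise `w o = 0`, `X o = X`, `c o = 1`.
`na (X o * matP P (Y a)) = δ_o * sc v_o (na (X * matP P (Y a)))` (`na_left`, `na_diag`). `I a` = the set of `(o, p)` with
`w o ≠ 0`, `p ∈ W`, `theta (p * na (X o * matP P (Y a))) ≠ 0`; `ω = cls v`, `k a = w_a`. By `Psi_window` the sum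
`∑ v' ≥ v` of `chi v' u * Psi (sc v' n_a)` equals `∑ p ∈ I a, w * thp * ξ`. The levels `v' < v` contribute at
most `C A` times the sum of their weights (`Psi_bound`); all active levels are comparable with `v`
(`chi_comparable`). With `z = phi (u, na X)`, `phi_freeze` and the hypothesis `E`:
`|w ω * thp_a * (ξ ω (col (k a) (c ω)) l - G a l)| ≤ E + C A η + C A ∑ (smaller weights)`, and `thp_a ≥ 1`
(`one_le_theta`, `thp_eq`), so the quotient by `w ω` is at most `δ` if `K₀` is large: contradiction with `pattern`.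
(4) `(ω, k b) ∉ I a` for `a ≠ b`: otherwise `rel_bound` gives `|w i j| ≤ B₃` for `δ b = w * δ a`, against the
hypothesis; so the conditions of `pattern` hold (`col` is injective on `W`).

Proved by helper5.
-/

set_option autoImplicit false

namespace Pool.Agent.Helper58.AR

/-- the number of boxes -/
def Jn (m d : ℕ) : ℕ := (d + 1) + 2 ^ m * (1 + m * m) + 1

/-- `δ` reduces `n` -/
def Red {m : ℕ} (δ : Matrix (Fin m) (Fin m) ℤ) (n : Matrix (Fin m) (Fin m) ℝ) : Prop :=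
  Uni δ ∧ ∀ i j, j < i → 0 ≤ (δ.map (Int.castRingHom ℝ) * n) i j ∧
    (δ.map (Int.castRingHom ℝ) * n) i j < 1

variable {m : ℕ}

private theorem co_red {δ : Matrix (Fin m) (Fin m) ℤ} {n : Matrix (Fin m) (Fin m) ℝ}
    (h : Red δ n) (hn : Uni n) (i j : Fin m) :
    |(δ.map (Int.castRingHom ℝ) * n) i j| ≤ 1 := by
  have hu : Uni (δ.map (Int.castRingHom ℝ) * n) := (h.1.map _).mul hn
  rcases lt_trichotomy i j with hij | hij | hij
  · rw [hu.1 i j hij, abs_zero]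
    exact zero_le_one
  · rw [← hij, hu.2 i, abs_one]
  · obtain ⟨h1, h2⟩ := h.2 i j hij
    rw [abs_of_nonneg h1]
    exact h2.le

private theorem co_theta {δ : Matrix (Fin m) (Fin m) ℤ} {n : Matrix (Fin m) (Fin m) ℝ}
    (hδ : Uni δ) (hn : Uni n) (h : theta (δ.map (Int.castRingHom ℝ) * n) ≠ 0) (i j : Fin m) :
    |(δ.map (Int.castRingHom ℝ) * n) i j| ≤ 2 := by
  have hu : Uni (δ.map (Int.castRingHom ℝ) * n) := (hδ.map _).mul hn
  rcases lt_trichotomy i j with hij | hij | hij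
  · rw [hu.1 i j hij, abs_zero]
    norm_num
  · rw [← hij, hu.2 i, abs_one]
    norm_num
  · exact (abs_lt_of_theta h i j hij).le

private theorem co_map_mul {R : Type*} [CommRing R] (a b : Matrix (Fin m) (Fin m) ℤ) :
    (a * b).map (Int.castRingHom R) = a.map (Int.castRingHom R) * b.map (Int.castRingHom R) :=
  Matrix.map_mul

/-- the relative displacement is bounded -/
private theorem co_disp (m : ℕ) (B : ℝ) : ∃ B₄ : ℝ, ∀ (n₀ n e : Matrix (Fin m) (Fin m) ℝ)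
    (δ₀ δ w : Matrix (Fin m) (Fin m) ℤ), Uni n₀ → Uni n → n = n₀ * e → Red δ₀ n₀ → Red δ n →
    Uni w → δ = w * δ₀ → (∀ i j, |(w i j : ℝ)| ≤ B) → ∀ i j, |e i j| ≤ B₄ := by
  obtain ⟨B', hB'⟩ := inv_bound m (m * (B * 1))
  refine ⟨m * (B' * 1), ?_⟩
  intro n₀ n e δ₀ δ w hn₀ hn hne hδ₀ hδ hw hδw hwB
  have hg : Uni (w.map (Int.castRingHom ℝ) * (δ₀.map (Int.castRingHom ℝ) * n₀)) :=
    (hw.map _).mul ((hδ₀.1.map _).mul hn₀)
  obtain ⟨g', _, hg1, hg2⟩ := hg.exists_inv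
  have hb : ∀ i j, |(w.map (Int.castRingHom ℝ) * (δ₀.map (Int.castRingHom ℝ) * n₀)) i j| ≤
      m * (B * 1) := mul_bound (fun i j => by
        simpa [Matrix.map_apply] using hwB i j) (co_red hδ₀ hn₀)
  have hb' := hB' _ g' hg hg1 hb
  have he : e = g' * (δ.map (Int.castRingHom ℝ) * n) := by
    rw [hδw, co_map_mul, hne]
    have : w.map (Int.castRingHom ℝ) * δ₀.map (Int.castRingHom ℝ) * (n₀ * e) =
        (w.map (Int.castRingHom ℝ) * (δ₀.map (Int.castRingHom ℝ) * n₀)) * e := by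
      simp only [Matrix.mul_assoc]
    rw [this, ← Matrix.mul_assoc g', hg2, Matrix.one_mul]
  rw [he]
  exact mul_bound hb' (co_red hδ hn)

private theorem co_window (m : ℕ) (B : ℝ) : ∃ B₂ : ℝ, ∀ (ρ μ : ℝ)
    (X Q : Matrix (Fin m) (Fin m) ℝ) (v v' : Fin m → ℤ)
    (δ₀ δ w δ' δ'' r : Matrix (Fin m) (Fin m) ℤ), 0 < ρ → IsUnit X.det → IsUnit Q.det → v ≤ v' →
    Red δ₀ (sc ρ μ v (na X)) → Red δ (sc ρ μ v (na (X * Q))) → Uni w → δ = w * δ₀ →
    (∀ i j, |(w i j : ℝ)| ≤ B) → Red δ' (sc ρ μ v' (na X)) → Uni δ'' →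
    theta (δ''.map (Int.castRingHom ℝ) * sc ρ μ v' (na (X * Q))) ≠ 0 → δ'' = r * δ' →
    ∀ i j, |(r i j : ℝ)| ≤ B₂ := by
  obtain ⟨B₄, hB₄⟩ := co_disp m B
  obtain ⟨B₂, hB₂⟩ := rel_bound m B₄
  refine ⟨B₂, ?_⟩
  intro ρ μ X Q v v' δ₀ δ w δ' δ'' r hρ hX hQ hvv hδ₀ hδ hw hδw hwB hδ' hδ'' hθ hr
  have hXQ : IsUnit (X * Q).det := by
    rw [Matrix.det_mul]
    exact hX.mul hQ
  have hN := uni_na X hX
  have hN' := uni_na (X * Q) hXQ
  obtain ⟨N₁, hN₁, h1, h2⟩ := hN.exists_inv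
  have hh : Uni (N₁ * na (X * Q)) := hN₁.mul hN'
  have hNh : na (X * Q) = na X * (N₁ * na (X * Q)) := by
    rw [← Matrix.mul_assoc, h1, Matrix.one_mul]
  have hs : ∀ v : Fin m → ℤ, sc ρ μ v (na (X * Q)) =
      sc ρ μ v (na X) * sc ρ μ v (N₁ * na (X * Q)) := by
    intro v
    conv_lhs => rw [hNh]
    rw [sc_mul]
  have he := hB₄ _ _ _ δ₀ δ w (uni_sc ρ μ v hN) (uni_sc ρ μ v hN') (hs v) hδ₀ hδ hw hδw hwB
  have he' : ∀ i j, |sc ρ μ v' (N₁ * na (X * Q)) i j| ≤ B₄ := by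
    intro i j
    rcases lt_or_ge i j with hij | hij
    · rw [(uni_sc ρ μ v' hh).1 i j hij, abs_zero]
      exact (abs_nonneg _).trans (he i j)
    · exact (sc_le hρ.le hvv _ i j hij).trans (he i j)
  exact hB₂ _ _ δ' δ'' r _ (uni_sc ρ μ v' hN) (uni_sc ρ μ v' hN') hδ'.1 hδ'' (uni_sc ρ μ v' hh)
    (hs v') he' (fun i j => (co_red hδ' (uni_sc ρ μ v' hN) i j).trans one_le_two)
    (co_theta hδ'' (uni_sc ρ μ v' hN') hθ) hr

private theorem co_inj {M : ℕ} {B : ℝ} (hM : 2 * B < M) {w w' : Matrix (Fin m) (Fin m) ℤ}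
    (hw : ∀ i j, |(w i j : ℝ)| ≤ B) (hw' : ∀ i j, |(w' i j : ℝ)| ≤ B)
    {c : Matrix (Fin m) (Fin m) (ZMod M)} (hc : Uni c) (h : col w c = col w' c) : w = w' := by
  obtain ⟨c', _, hc', _⟩ := hc.exists_inv
  have h1 : w.map (Int.castRingHom (ZMod M)) = w'.map (Int.castRingHom (ZMod M)) := by
    have h2 := congrArg (fun x => x * c') h
    simp only [col] at h2
    rw [Matrix.mul_assoc, Matrix.mul_assoc, hc', Matrix.mul_one, Matrix.mul_one] at h2
    exact h2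
  ext i j
  have h3 : ((w i j : ℤ) : ZMod M) = ((w' i j : ℤ) : ZMod M) := by
    have := congrFun (congrFun h1 i) j
    simpa [Matrix.map_apply] using this
  have h4 : (M : ℤ) ∣ w' i j - w i j :=
    (Int.modEq_iff_dvd).1 ((ZMod.intCast_eq_intCast_iff _ _ _).1 h3)
  have h5 : |w' i j - w i j| < (M : ℤ) := by
    have h6 : (|w' i j - w i j| : ℝ) ≤ 2 * B := by
      calc (|(w' i j : ℝ) - w i j| : ℝ) ≤ |(w' i j : ℝ)| + |(w i j : ℝ)| := abs_sub _ _
        _ ≤ B + B := add_le_add (hw' i j) (hw i j)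
        _ = 2 * B := by ring
    have h7 : ((|w' i j - w i j| : ℤ) : ℝ) < ((M : ℤ) : ℝ) := by
      push_cast
      exact lt_of_le_of_lt h6 hM
    exact_mod_cast h7
  have h8 := Int.eq_zero_of_abs_lt_dvd h4 h5
  omega

private theorem co_level (ρ μ : ℝ) (X : Matrix (Fin m) (Fin m) ℝ) (hX : IsUnit X.det)
    (v : Fin m → ℤ) {δ : Matrix (Fin m) (Fin m) ℤ} (hδ : Uni δ) :
    ∃ X' : Matrix (Fin m) (Fin m) ℝ, IsUnit X'.det ∧ ∀ Q : Matrix (Fin m) (Fin m) ℝ,
      IsUnit Q.det → na (X' * Q) = δ.map (Int.castRingHom ℝ) * sc ρ μ v (na (X * Q)) := by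
  have hD : IsUnit (Matrix.diagonal fun i => Real.exp (-pot ρ μ v i)).det := by
    rw [Matrix.det_diagonal]
    exact isUnit_iff_ne_zero.2 (Finset.prod_ne_zero_iff.2 fun i _ => (Real.exp_pos _).ne')
  refine ⟨δ.map (Int.castRingHom ℝ) * ((Matrix.diagonal fun i => Real.exp (-pot ρ μ v i)) * X),
    ?_, ?_⟩
  · rw [Matrix.det_mul, Matrix.det_mul, (hδ.map _).det]
    exact isUnit_one.mul (hD.mul hX)
  · intro Q hQ
    have hXQ : IsUnit (X * Q).det := by
      rw [Matrix.det_mul]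
      exact hX.mul hQ
    rw [Matrix.mul_assoc, Matrix.mul_assoc, na_left _ _ (hδ.map _) (by
      rw [Matrix.det_mul]
      exact hD.mul hXQ)]
    congr 1
    ext i j
    rw [na_diag _ _ (fun i => Real.exp_pos _) hXQ]
    simp only [sc, Matrix.of_apply]
    rw [sub_eq_neg_add, Real.exp_add, Real.exp_neg (pot ρ μ v j)]
    field_simp

open Classical in
/-- the contribution of one residue class of levels: a level `v'` with non-zero weight -/
private theorem co_class {k M : ℕ}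
    (ξ : (Fin m → ZMod 2) → Matrix (Fin m) (Fin m) (ZMod M) → Fin k → ℝ)
    (W : Finset (Matrix (Fin m) (Fin m) ℤ)) (hW : ∀ w ∈ W, Uni w) (ρ μ : ℝ)
    (X : Matrix (Fin m) (Fin m) ℝ) (u : Fin m → ℝ) (v v' : Fin m → ℤ)
    (hv : v ≤ v') (hχ : chi v' u ≠ 0) (δ : Matrix (Fin m) (Fin m) ℤ)
    (hδ : Red δ (sc ρ μ v' (na X))) (X' Q : Matrix (Fin m) (Fin m) ℝ)
    (hX' : na (X' * Q) = δ.map (Int.castRingHom ℝ) * sc ρ μ v' (na (X * Q)))
    (hcov : ∀ δ' : Matrix (Fin m) (Fin m) ℤ, Uni δ' →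
      theta (δ'.map (Int.castRingHom ℝ) * sc ρ μ v' (na (X * Q))) ≠ 0 → ∃ w ∈ W, δ' = w * δ)
    (l : Fin k) :
    ∑ v'' ∈ ((near u).filter fun v'' => v ≤ v'').filter (fun v'' => cls v'' = cls v'),
      chi v'' u * Psi M (fun q => ξ (cls v'') q l) (sc ρ μ v'' (na (X * Q))) =
    ∑ p ∈ W, chi v' u * theta (p.map (Int.castRingHom ℝ) * na (X' * Q)) *
      ξ (cls v') (col p (δ.map (Int.castRingHom (ZMod M)))) l := by
  have hmem : v' ∈ ((near u).filter fun v'' => v ≤ v'').filter (fun v'' => cls v'' = cls v') := by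
    simp only [Finset.mem_filter]
    exact ⟨⟨mem_near hχ, hv⟩, trivial⟩
  rw [Finset.sum_eq_single_of_mem v' hmem, Psi_window M _ _ W hW δ hδ.1 hcov, Finset.mul_sum]
  · refine Finset.sum_congr rfl fun p _ => ?_
    rw [hX', ← Matrix.mul_assoc, ← co_map_mul, ← mul_assoc, co_map_mul (R := ZMod M)]
    rfl
  · intro v'' hv'' hne
    rw [Finset.mem_filter] at hv''
    have h0 : chi v'' u = 0 := by
      by_contra h
      exact hne (chi_parity h hχ fun i => congrFun hv''.2 i)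
    rw [h0, zero_mul]

open Classical in
theorem core (m : ℕ) : ∃ B₃ : ℝ, ∀ (d : ℕ) (P : Fin m → Fin m → MvPolynomial (Fin d) ℝ) (B : ℝ),
    ∃ (M : ℕ) (ξ : (Fin m → ZMod 2) → Matrix (Fin m) (Fin m) (ZMod M) → Fin (d + 1) → ℝ)
      (A K : ℝ), 0 ≤ A ∧ 0 < K ∧ (∀ o q l, |ξ o q l| ≤ A) ∧
    ∀ (ρ μ : ℝ), 0 < ρ → 0 ≤ μ → ∀ (X : Matrix (Fin m) (Fin m) ℝ) (Y : Fin (Jn m d) → Fin d → ℝ)
      (v : Fin m → ℤ) (E η : ℝ), IsUnit X.det → (∀ a, IsUnit (matP P (Y a)).det) → 0 ≤ E →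
      0 ≤ η →
      (∀ a l, |phi M ξ ρ μ (uv ρ (la (X * matP P (Y a)))) (na (X * matP P (Y a))) l -
        phi M ξ ρ μ (uv ρ (la X)) (na X) l| ≤ E) →
      (∀ a i, |uv ρ (la (X * matP P (Y a))) i - uv ρ (la X) i| ≤ η) →
      0 < chi v (uv ρ (la X)) →
      K * (E + η + ∑ v' ∈ (near (uv ρ (la X))).filter (fun v' => v' < v),
        chi v' (uv ρ (la X))) ≤ chi v (uv ρ (la X)) →
      ∀ (δ₀ : Matrix (Fin m) (Fin m) ℤ) (δ : Fin (Jn m d) → Matrix (Fin m) (Fin m) ℤ)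
        (w : Fin (Jn m d) → Matrix (Fin m) (Fin m) ℤ), Red δ₀ (sc ρ μ v (na X)) →
        (∀ a, Red (δ a) (sc ρ μ v (na (X * matP P (Y a))))) → (∀ a, δ a = w a * δ₀) →
        (∀ a, Uni (w a)) → (∀ a i j, |(w a i j : ℝ)| ≤ B) →
        ¬ ∀ a b, a ≠ b → ∀ r, δ b = r * δ a → ∃ i j, B₃ < |(r i j : ℝ)| := by
  obtain ⟨B₃, hB₃⟩ := rel_bound m 1
  obtain ⟨C₁, hC₁, hfr⟩ := phi_freeze m
  obtain ⟨C₂, hC₂, hPb⟩ := Psi_bound m
  refine ⟨B₃, ?_⟩
  intro d P B
  obtain ⟨B₂, hB₂⟩ := co_window m B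
  obtain ⟨M, hM⟩ := exists_nat_gt (2 * max (max B B₂) 0)
  have hM0 : NeZero M := by
    refine ⟨?_⟩
    rintro rfl
    have h1 : (0 : ℝ) ≤ 2 * max (max B B₂) 0 := by positivity
    rw [Nat.cast_zero] at hM
    linarith
  set B₆ : ℝ := max (max B B₂) 0 with hB₆
  have hBB : B ≤ B₆ := (le_max_left _ _).trans (le_max_left _ _)
  have hBB₂ : B₂ ≤ B₆ := (le_max_right _ _).trans (le_max_left _ _)
  let W : Finset (Matrix (Fin m) (Fin m) ℤ) := (finite_bounded m B₆).toFinset.filter fun w => Uni w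
  have hWm : ∀ w : Matrix (Fin m) (Fin m) ℤ, w ∈ W ↔ (∀ i j, |(w i j : ℝ)| ≤ B₆) ∧ Uni w := by
    intro w
    simp only [W, Finset.mem_filter, Set.Finite.mem_toFinset, Set.mem_ofPred_eq]
  have hWU : ∀ w ∈ W, Uni w := fun w hw => ((hWm w).1 hw).2
  obtain ⟨ξ, ε, hε, hpat⟩ := pattern m d (Jn m d) M (by unfold Jn; omega) P W
  obtain ⟨A, hA0, hA⟩ : ∃ A : ℝ, 0 ≤ A ∧ ∀ o q l, |ξ o q l| ≤ A := by
    have hf : Finite ((Fin m → ZMod 2) × Matrix (Fin m) (Fin m) (ZMod M) × Fin (d + 1)) := by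
      have : Fintype (ZMod M) := ZMod.fintype M
      infer_instance
    obtain ⟨A, hA⟩ := (Set.finite_range fun x : (Fin m → ZMod 2) ×
      Matrix (Fin m) (Fin m) (ZMod M) × Fin (d + 1) => |ξ x.1 x.2.1 x.2.2|).bddAbove
    refine ⟨max A 0, le_max_right _ _, fun o q l => le_max_of_le_left ?_⟩
    exact hA ⟨(o, q, l), rfl⟩
  have hK : 0 < (1 + C₁ * A + C₂ * A) / ε := by positivity
  refine ⟨M, ξ, A, (1 + C₁ * A + C₂ * A) / ε, hA0, hK, hA, ?_⟩
  intro ρ μ hρ hμ X Y v E η hX hY hE hη hphi hu hv hdom δ₀ δ w hδ₀ hδ hδw hw hwB hbad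
  set u := uv ρ (la X) with hudef
  have hXY : ∀ a, IsUnit (X * matP P (Y a)).det := fun a => by
    rw [Matrix.det_mul]
    exact hX.mul (hY a)
  have hN := uni_na X hX
  have hNa : ∀ a, Uni (na (X * matP P (Y a))) := fun a => uni_na _ (hXY a)
  -- the windows
  have hcov : ∀ (v' : Fin m → ℤ) (δ' : Matrix (Fin m) (Fin m) ℤ), v ≤ v' →
      Red δ' (sc ρ μ v' (na X)) → ∀ a, ∀ δ'' : Matrix (Fin m) (Fin m) ℤ, Uni δ'' →
      theta (δ''.map (Int.castRingHom ℝ) * sc ρ μ v' (na (X * matP P (Y a)))) ≠ 0 →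
      ∃ r ∈ W, δ'' = r * δ' := by
    intro v' δ' hvv hδ' a δ'' hδ'' hθ
    obtain ⟨δi, hδi, h1, h2⟩ := hδ'.1.exists_inv
    have hr : δ'' = δ'' * δi * δ' := by
      rw [Matrix.mul_assoc, h2, Matrix.mul_one]
    refine ⟨δ'' * δi, (hWm _).2 ⟨fun i j => ?_, hδ''.mul hδi⟩, hr⟩
    exact (hB₂ ρ μ X (matP P (Y a)) v v' δ₀ (δ a) (w a) δ' δ'' _ hρ hX (hY a) hvv hδ₀ (hδ a) (hw a)
      (hδw a) (hwB a) hδ' hδ'' hθ hr i j).trans hBB₂
  have hχv : chi v u ≠ 0 := hv.ne'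
  -- the data of the residue classes
  have hcls : ∀ o : Fin m → ZMod 2, ∃ (wo : ℝ) (co : Matrix (Fin m) (Fin m) (ZMod M))
      (Xo : Matrix (Fin m) (Fin m) ℝ), Uni co ∧ IsUnit Xo.det ∧
      (∀ a l, ∑ v'' ∈ ((near u).filter fun v'' => v ≤ v'').filter (fun v'' => cls v'' = o),
        chi v'' u * Psi M (fun q => ξ (cls v'') q l) (sc ρ μ v'' (na (X * matP P (Y a)))) =
        ∑ p ∈ W, wo * theta (p.map (Int.castRingHom ℝ) * na (Xo * matP P (Y a))) *
          ξ o (col p co) l) ∧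
      (o = cls v → wo = chi v u ∧ co = δ₀.map (Int.castRingHom (ZMod M)) ∧
        ∀ a, na (Xo * matP P (Y a)) =
          δ₀.map (Int.castRingHom ℝ) * sc ρ μ v (na (X * matP P (Y a)))) := by
    intro o
    by_cases ho : o = cls v
    · obtain ⟨X', hX', hX''⟩ := co_level ρ μ X hX v hδ₀.1
      refine ⟨chi v u, δ₀.map (Int.castRingHom (ZMod M)), X', hδ₀.1.map _, hX', fun a l => ?_,
        fun _ => ⟨rfl, rfl, fun a => hX'' _ (hY a)⟩⟩
      rw [ho]
      exact co_class ξ W hWU ρ μ X u v v le_rfl hχv δ₀ hδ₀ X' _ (hX'' _ (hY a))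
        (hcov v δ₀ le_rfl hδ₀ a) l
    · by_cases h : ∃ v', v ≤ v' ∧ chi v' u ≠ 0 ∧ cls v' = o
      · obtain ⟨v', hvv, hχ, hc⟩ := h
        obtain ⟨δ', hδ'⟩ := exists_reduce (sc ρ μ v' (na X)) (uni_sc ρ μ v' hN)
        obtain ⟨X', hX', hX''⟩ := co_level ρ μ X hX v' hδ'.1
        refine ⟨chi v' u, δ'.map (Int.castRingHom (ZMod M)), X', hδ'.1.map _, hX', fun a l => ?_,
          fun h => absurd h ho⟩
        rw [← hc]
        exact co_class ξ W hWU ρ μ X u v v' hvv hχ δ' hδ' X' _ (hX'' _ (hY a))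
          (hcov v' δ' hvv hδ' a) l
      · refine ⟨0, 1, 1, Uni.one, by rw [Matrix.det_one]; exact isUnit_one, fun a l => ?_,
          fun h => absurd h ho⟩
        rw [Finset.sum_eq_zero, Finset.sum_eq_zero]
        · intro p _
          rw [zero_mul, zero_mul]
        · intro v'' hv''
          simp only [Finset.mem_filter] at hv''
          have h0 : chi v'' u = 0 := by
            by_contra h0
            exact h ⟨v'', hv''.1.2, h0, hv''.2⟩
          rw [h0, zero_mul]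
  choose wo co Xo hco hXo hsum hcv using hcls
  obtain ⟨hwv, hcov', hXv⟩ := hcv (cls v) rfl
  -- the patterns
  let I : Fin (Jn m d) → Finset ((Fin m → ZMod 2) × Matrix (Fin m) (Fin m) ℤ) := fun a =>
    ((Finset.univ : Finset (Fin m → ZMod 2)) ×ˢ W).filter fun q => wo q.1 ≠ 0 ∧
      theta (q.2.map (Int.castRingHom ℝ) * na (Xo q.1 * matP P (Y a))) ≠ 0
  have hI : ∀ a q, q ∈ I a ↔ q.2 ∈ W ∧ wo q.1 ≠ 0 ∧
      theta (q.2.map (Int.castRingHom ℝ) * na (Xo q.1 * matP P (Y a))) ≠ 0 := by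
    intro a q
    simp only [I, Finset.mem_filter, Finset.mem_product, Finset.mem_univ, true_and]
  have hf : ∀ a, ∀ p : Matrix (Fin m) (Fin m) ℤ,
      p.map (Int.castRingHom ℝ) * na (Xo (cls v) * matP P (Y a)) =
        (p * δ₀).map (Int.castRingHom ℝ) * sc ρ μ v (na (X * matP P (Y a))) := by
    intro a p
    rw [hXv a, ← Matrix.mul_assoc, ← co_map_mul]
  have hθ1 : ∀ a, 1 ≤ theta ((w a).map (Int.castRingHom ℝ) * na (Xo (cls v) * matP P (Y a))) := by
    intro a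
    rw [hf a, ← hδw a]
    exact one_le_theta fun i j _ => co_red (hδ a) (uni_sc ρ μ v (hNa a)) i j
  have hθ0 : ∀ a, theta ((w a).map (Int.castRingHom ℝ) * na (Xo (cls v) * matP P (Y a))) ≠ 0 :=
    fun a => (lt_of_lt_of_le one_pos (hθ1 a)).ne'
  have hwW : ∀ a, w a ∈ W := fun a => (hWm _).2 ⟨fun i j => (hwB a i j).trans hBB, hw a⟩
  have hIk : ∀ a, (cls v, w a) ∈ I a := by
    intro a
    rw [hI]
    exact ⟨hwW a, by rw [hwv]; exact hχv, hθ0 a⟩
  have hWinj : ∀ p ∈ W, ∀ q ∈ W, col p (co (cls v)) = col q (co (cls v)) → p = q := by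
    intro p hp q hq h
    exact co_inj hM ((hWm p).1 hp).1 ((hWm q).1 hq).1 (hco _) h
  have hrel : ∀ a b, theta ((w b).map (Int.castRingHom ℝ) * na (Xo (cls v) * matP P (Y a))) ≠ 0 →
      a = b := by
    intro a b hθ
    by_contra hab
    rw [hf a, ← hδw b] at hθ
    obtain ⟨δi, _, h1, h2⟩ := (hδ a).1.exists_inv
    have hr : δ b = δ b * δi * δ a := by
      rw [Matrix.mul_assoc, h2, Matrix.mul_one]
    obtain ⟨i, j, hij⟩ := hbad a b hab _ hr
    have hUn := uni_sc ρ μ v (hNa a)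
    refine absurd (hB₃ _ _ (δ a) (δ b) _ 1 hUn hUn (hδ a).1 (hδ b).1 Uni.one
      (Matrix.mul_one _).symm ?_ (fun i j => (co_red (hδ a) hUn i j).trans one_le_two)
      (co_theta (hδ b).1 hUn hθ) hr i j) (not_le.2 hij)
    intro i j
    rw [Matrix.one_apply]
    split_ifs
    · rw [abs_one]
    · rw [abs_zero]
      exact zero_le_one
  obtain ⟨a, l, hal⟩ := hpat co I (cls v) w (fun a p hp => ((hI a p).1 hp).1) hIk
    (fun a b h => hrel a b (by
      rw [← hWinj _ (hwW a) _ (hwW b) h]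
      exact hθ0 a))
    (fun a b p hp hne hp1 h => by
      obtain ⟨hpW, _, hpθ⟩ := (hI a p).1 hp
      rw [hp1] at h hpθ
      have hpb := hWinj _ hpW _ (hwW b) h
      rw [hpb] at hpθ
      have hab := hrel a b hpθ
      exact hne (Prod.ext hp1 (by rw [hpb, hab])))
    (fun l => phi M ξ ρ μ u (na X) l) wo Xo Y hXo hY (by rw [hwv]; exact hχv)
    (fun a => by rw [thp_eq (hθ0 a)]; exact hθ0 a)
  -- the value of the slow function
  have hval : phi M ξ ρ μ u (na (X * matP P (Y a))) l =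
      ∑ v' ∈ (near u).filter (fun v' => v' < v),
        chi v' u * Psi M (fun q => ξ (cls v') q l) (sc ρ μ v' (na (X * matP P (Y a)))) +
      ∑ p ∈ I a, wo p.1 * thp (p.2.map (Int.castRingHom ℝ) * na (Xo p.1 * matP P (Y a))) *
        ξ p.1 (col p.2 (co p.1)) l := by
    have h1 : ∑ p ∈ I a, wo p.1 *
        thp (p.2.map (Int.castRingHom ℝ) * na (Xo p.1 * matP P (Y a))) *
        ξ p.1 (col p.2 (co p.1)) l =
        ∑ v' ∈ (near u).filter (fun v' => v ≤ v'),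
          chi v' u * Psi M (fun q => ξ (cls v') q l) (sc ρ μ v' (na (X * matP P (Y a)))) := by
      rw [← Finset.sum_fiberwise _ cls, Finset.sum_congr rfl fun o _ => hsum o a l,
        ← Finset.sum_product']
      have h2 : ∑ p ∈ I a, wo p.1 *
          thp (p.2.map (Int.castRingHom ℝ) * na (Xo p.1 * matP P (Y a))) *
          ξ p.1 (col p.2 (co p.1)) l = ∑ p ∈ I a, wo p.1 *
          theta (p.2.map (Int.castRingHom ℝ) * na (Xo p.1 * matP P (Y a))) *
          ξ p.1 (col p.2 (co p.1)) l := by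
        refine Finset.sum_congr rfl fun p hp => ?_
        rw [thp_eq ((hI a p).1 hp).2.2]
      rw [h2]
      refine Finset.sum_subset (Finset.filter_subset _ _) fun p hp hp' => ?_
      rw [hI, not_and_or, not_and_or, not_not, not_not] at hp'
      rcases hp' with h | h | h
      · exact absurd (Finset.mem_product.1 hp).2 h
      · rw [h, zero_mul, zero_mul]
      · rw [h, mul_zero, zero_mul]
    rw [h1]
    unfold phi
    rw [← Finset.sum_filter_add_sum_filter_not (near u) (fun v' => v ≤ v'), add_comm]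
    congr 1
    refine (Finset.sum_subset ?_ ?_).symm
    · intro v' hv'
      rw [Finset.mem_filter] at hv' ⊢
      exact ⟨hv'.1, not_le_of_gt hv'.2⟩
    · intro v' hv' hv''
      rw [Finset.mem_filter] at hv' hv''
      have h0 : chi v' u = 0 := by
        by_contra h0
        rcases chi_comparable hχv h0 with h | h
        · exact hv'.2 h
        · exact hv'' ⟨hv'.1, lt_of_le_not_ge h hv'.2⟩
      rw [h0, zero_mul]
  have hsmall : |∑ v' ∈ (near u).filter (fun v' => v' < v),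
      chi v' u * Psi M (fun q => ξ (cls v') q l) (sc ρ μ v' (na (X * matP P (Y a))))| ≤
      C₂ * A * ∑ v' ∈ (near u).filter (fun v' => v' < v), chi v' u := by
    refine (Finset.abs_sum_le_sum_abs _ _).trans ?_
    rw [Finset.mul_sum]
    refine Finset.sum_le_sum fun v' _ => ?_
    rw [abs_mul, abs_of_nonneg (chi_nonneg v' u), mul_comm]
    exact mul_le_mul_of_nonneg_right (hPb M _ A hA0 (fun q => hA _ _ _) _
      (uni_sc ρ μ v' (hNa a))) (chi_nonneg v' u)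
  have hfreeze := hfr (d + 1) M ξ A hA0 hA ρ μ u (uv ρ (la (X * matP P (Y a))))
    (na (X * matP P (Y a))) η (hNa a) hη (hu a) l
  have hE' := hphi a l
  set Sg := ∑ v' ∈ (near u).filter (fun v' => v' < v), chi v' u with hSg
  have hSg0 : 0 ≤ Sg := Finset.sum_nonneg fun v' _ => chi_nonneg v' u
  have hadd := Finset.add_sum_erase (I a) (fun p => wo p.1 *
    thp (p.2.map (Int.castRingHom ℝ) * na (Xo p.1 * matP P (Y a))) *
      ξ p.1 (col p.2 (co p.1)) l) (hIk a)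
  have ht1 : 1 ≤ thp ((w a).map (Int.castRingHom ℝ) * na (Xo (cls v) * matP P (Y a))) := by
    rw [thp_eq (hθ0 a)]
    exact hθ1 a
  have hwo : 0 < wo (cls v) := by
    rw [hwv]
    exact hv
  have hprod : 0 < wo (cls v) *
      thp ((w a).map (Int.castRingHom ℝ) * na (Xo (cls v) * matP P (Y a))) :=
    mul_pos hwo (lt_of_lt_of_le one_pos ht1)
  refine absurd hal (not_lt.2 ?_)
  set t := thp ((w a).map (Int.castRingHom ℝ) * na (Xo (cls v) * matP P (Y a))) with ht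
  set S := ∑ p ∈ (I a).erase (cls v, w a), wo p.1 *
    thp (p.2.map (Int.castRingHom ℝ) * na (Xo p.1 * matP P (Y a))) *
      ξ p.1 (col p.2 (co p.1)) l with hS
  have key : ξ (cls v) (col (w a) (co (cls v))) l -
      (phi M ξ ρ μ u (na X) l - S) / (wo (cls v) * t) =
      (wo (cls v) * t * ξ (cls v) (col (w a) (co (cls v))) l -
        (phi M ξ ρ μ u (na X) l - S)) / (wo (cls v) * t) := by
    field_simp
  rw [key, abs_div, abs_of_pos hprod, div_le_iff₀ hprod]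
  have hnum : |wo (cls v) * t * ξ (cls v) (col (w a) (co (cls v))) l -
      (phi M ξ ρ μ u (na X) l - S)| ≤ E + C₁ * A * η + C₂ * A * Sg := by
    rw [← hadd] at hval
    rw [abs_le] at hsmall hfreeze hE' ⊢
    constructor <;> linarith [hsmall.1, hsmall.2, hfreeze.1, hfreeze.2, hE'.1, hE'.2, hval]
  refine hnum.trans ?_
  have hd1 : (1 + C₁ * A + C₂ * A) * (E + η + Sg) ≤ ε * wo (cls v) := by
    rw [hwv]
    have := mul_le_mul_of_nonneg_left hdom hε.le
    calc (1 + C₁ * A + C₂ * A) * (E + η + Sg)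
        = ε * ((1 + C₁ * A + C₂ * A) / ε * (E + η + Sg)) := by
          field_simp
      _ ≤ ε * chi v u := this
  have hd2 : ε * wo (cls v) ≤ ε * (wo (cls v) * t) := by
    refine mul_le_mul_of_nonneg_left ?_ hε.le
    exact le_mul_of_one_le_right hwo.le ht1
  have hCA1 : 0 ≤ C₁ * A := mul_nonneg hC₁ hA0
  have hCA2 : 0 ≤ C₂ * A := mul_nonneg hC₂ hA0
  nlinarith [mul_nonneg hCA1 hE, mul_nonneg hCA1 hSg0, mul_nonneg hCA2 hE, mul_nonneg hCA2 hη]

end Pool.Agent.Helper58.AR
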