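import Pool.Agent.Helper58.AR.LQ

/-!
AR-2b. Gram determinants.

Proofs. `log_gram`, `gram_pos`: `X * Xᵀ = b * bᵀ`; the submatrix with rows and columns `0, ..., j` is
`b_j * b_jᵀ` with the lower triangular block `b_j` (the columns `> j` of `b` vanish in the rows `≤ j`), so
`gram X j = ∏ l ≤ j, (b l l) ^ 2`. `na_eq`: the submatrix of `b * bᵀ` with rows `0, ..., j - 1, i` and columns
`0, ..., j` is `(the rows 0, ..., j - 1, i and the columns 0, ..., j of b) * b_jᵀ`; the first factor is lower
triangular with diagonal `b 0 0, ..., b (j-1) (j-1), b i j`. For `i < j` two rows are equal and `b i j = 0`.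

Proved by helper62.
-/

set_option autoImplicit false

namespace Pool.Agent.Helper58.AR

variable {m : ℕ}

/-- the embedding of the first `j + 1` indices -/
def emb (j : Fin m) : Fin ((j : ℕ) + 1) → Fin m := Fin.castLE (Nat.succ_le_of_lt j.2)

/-- the rows `0, ..., j - 1, i` -/
def rsel (i j : Fin m) : Fin ((j : ℕ) + 1) → Fin m := fun k => if (k : ℕ) < j then emb j k else i

/-- the Gram determinant of the rows `0, ..., j` -/
noncomputable def gram (X : Matrix (Fin m) (Fin m) ℝ) (j : Fin m) : ℝ :=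
  ((X * X.transpose).submatrix (emb j) (emb j)).det

private lemma gram_emb_val (j : Fin m) (t : Fin ((j : ℕ) + 1)) : ((emb j t : Fin m) : ℕ) = t := rfl

private lemma gram_emb_last (j : Fin m) : emb j (Fin.last (j : ℕ)) = j := Fin.ext rfl

private lemma gram_emb_lt (j : Fin m) {s t : Fin ((j : ℕ) + 1)} (h : s < t) :
    emb j s < emb j t := h

private lemma gram_map (j : Fin m) :
    (Finset.univ.map (Fin.castLEEmb (Nat.succ_le_of_lt j.2))) = Finset.Iic j := by
  ext l
  simp only [Finset.mem_map, Finset.mem_univ, true_and, Finset.mem_Iic]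
  constructor
  · rintro ⟨t, rfl⟩
    exact Fin.le_def.2 (Nat.lt_succ_iff.1 t.2)
  · intro h
    exact ⟨⟨l, Nat.lt_succ_of_le (Fin.le_def.1 h)⟩, Fin.ext rfl⟩

private lemma gram_sum (j : Fin m) (f : Fin m → ℝ) :
    ∑ t : Fin ((j : ℕ) + 1), f (emb j t) = ∑ l ∈ Finset.Iic j, f l := by
  rw [← gram_map j, Finset.sum_map]
  rfl

private lemma gram_mul (b : Matrix (Fin m) (Fin m) ℝ) (hb : ∀ i j, i < j → b i j = 0) (j : Fin m)
    (r : Fin ((j : ℕ) + 1) → Fin m) :
    (b * b.transpose).submatrix r (emb j)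
      = b.submatrix r (emb j) * (b.submatrix (emb j) (emb j)).transpose := by
  ext k l
  rw [Matrix.submatrix_apply, Matrix.mul_apply, Matrix.mul_apply]
  simp only [Matrix.submatrix_apply, Matrix.transpose_apply]
  rw [gram_sum j fun t => b (r k) t * b (emb j l) t]
  symm
  refine Finset.sum_subset (Finset.subset_univ _) ?_
  intro t _ ht
  rw [Finset.mem_Iic, not_le] at ht
  have h1 : emb j l < t := lt_of_le_of_lt (Fin.le_def.2 (Nat.lt_succ_iff.1 l.2)) ht
  rw [hb _ _ h1, mul_zero]

private lemma gram_det (b : Matrix (Fin m) (Fin m) ℝ) (hb : ∀ i j, i < j → b i j = 0) (j : Fin m) :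
    (b.submatrix (emb j) (emb j)).det = ∏ t : Fin ((j : ℕ) + 1), b (emb j t) (emb j t) := by
  rw [Matrix.det_of_isLowerTriangular]
  · rfl
  · intro s t hst
    exact hb _ _ (gram_emb_lt j hst)

private lemma gram_spec (X : Matrix (Fin m) (Fin m) ℝ) (hX : IsUnit X.det) :
    X * X.transpose = lqb X * (lqb X).transpose ∧ (∀ i j, i < j → lqb X i j = 0) ∧
      ∀ i, 0 < lqb X i i := by
  obtain ⟨κ, h⟩ := lqb_spec X hX
  refine ⟨?_, h.low, h.pos⟩
  have h1 : X * X.transpose = (lqb X * κ) * (lqb X * κ).transpose :=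
    congrArg (fun Y => Y * Y.transpose) h.eq
  rw [h1, Matrix.transpose_mul, Matrix.mul_assoc, ← Matrix.mul_assoc κ, h.orth, Matrix.one_mul]

private lemma gram_eq (X : Matrix (Fin m) (Fin m) ℝ) (hX : IsUnit X.det) (j : Fin m) :
    gram X j = (∏ t : Fin ((j : ℕ) + 1), lqb X (emb j t) (emb j t)) ^ 2 := by
  obtain ⟨h1, h2, _⟩ := gram_spec X hX
  unfold gram
  rw [h1, gram_mul _ h2, Matrix.det_mul, Matrix.det_transpose, gram_det _ h2, pow_two]

theorem gram_pos (X : Matrix (Fin m) (Fin m) ℝ) (hX : IsUnit X.det) (j : Fin m) :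
    0 < gram X j := by
  obtain ⟨_, _, h3⟩ := gram_spec X hX
  rw [gram_eq X hX]
  exact pow_pos (Finset.prod_pos fun t _ => h3 _) 2

theorem log_gram (X : Matrix (Fin m) (Fin m) ℝ) (hX : IsUnit X.det) (j : Fin m) :
    Real.log (gram X j) = 2 * ∑ l ∈ Finset.Iic j, la X l := by
  obtain ⟨_, _, h3⟩ := gram_spec X hX
  rw [gram_eq X hX, Real.log_pow, Real.log_prod fun t _ => (h3 _).ne', ← gram_sum j fun l => la X l]
  rfl

theorem na_eq (X : Matrix (Fin m) (Fin m) ℝ) (hX : IsUnit X.det) (i j : Fin m) :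
    na X i j = ((X * X.transpose).submatrix (rsel i j) (emb j)).det / gram X j := by
  obtain ⟨h1, h2, h3⟩ := gram_spec X hX
  have hd : ((lqb X).submatrix (rsel i j) (emb j)).det
      = (∏ t : Fin (j : ℕ), lqb X (emb j t.castSucc) (emb j t.castSucc)) * lqb X i j := by
    rw [Matrix.det_of_isLowerTriangular]
    · rw [Fin.prod_univ_castSucc]
      congr 1
      · refine Finset.prod_congr rfl fun t _ => ?_
        have : rsel i j t.castSucc = emb j t.castSucc := if_pos t.2
        rw [Matrix.submatrix_apply, this]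
      · have : rsel i j (Fin.last (j : ℕ)) = i := if_neg (lt_irrefl _)
        rw [Matrix.submatrix_apply, this, gram_emb_last]
    · intro s t hst
      have hst' : s < t := hst
      have hs : (s : ℕ) < j := lt_of_lt_of_le (Fin.lt_def.1 hst') (Nat.lt_succ_iff.1 t.2)
      have : rsel i j s = emb j s := if_pos hs
      rw [Matrix.submatrix_apply, this]
      exact h2 _ _ (gram_emb_lt j hst')
  have hp : ∏ t : Fin ((j : ℕ) + 1), lqb X (emb j t) (emb j t)
      = (∏ t : Fin (j : ℕ), lqb X (emb j t.castSucc) (emb j t.castSucc)) * lqb X j j := by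
    rw [Fin.prod_univ_castSucc, gram_emb_last]
  have hq : 0 < ∏ t : Fin (j : ℕ), lqb X (emb j t.castSucc) (emb j t.castSucc) :=
    Finset.prod_pos fun t _ => h3 _
  have hj := h3 j
  rw [gram_eq X hX, h1, gram_mul _ h2, Matrix.det_mul, Matrix.det_transpose, gram_det _ h2, hd, hp]
  show lqb X i j / lqb X j j = _
  field_simp

end Pool.Agent.Helper58.AR
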