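import Pool.Agent.Helper58.AR.Tri

/-!
AR-2a. The decomposition `X = b * κ` of an invertible real matrix, `b` lower triangular with positive
diagonal, `κ` orthogonal; the logarithms `la X i` of the diagonal entries of `b` and the unitriangular
part `na X`.

Proofs. `exists_lq`: Gram-Schmidt for the rows of `X` (Mathlib: `gramSchmidtOrthonormalBasis`, or
`LDL.lower`, or induction on `m`). Uniqueness: `b⁻¹ b'` is lower triangular with positive diagonal and
orthogonal, so it is `1`. `lqb_left`: `C * X = (C * b) * κ`.
-/

set_option autoImplicit false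

namespace Pool.Agent.Helper58.AR

variable {m : ℕ}

/-- `X = b * κ` with `b` lower triangular with positive diagonal and `κ` orthogonal -/
structure IsLQ (X b κ : Matrix (Fin m) (Fin m) ℝ) : Prop where
  eq : X = b * κ
  low : ∀ i j, i < j → b i j = 0
  pos : ∀ i, 0 < b i i
  orth : κ * κ.transpose = 1

theorem exists_lq (X : Matrix (Fin m) (Fin m) ℝ) (hX : IsUnit X.det) : ∃ b κ, IsLQ X b κ := by
  classical
  set f : Fin m → EuclideanSpace ℝ (Fin m) := fun i => WithLp.toLp 2 (X i) with hf
  have hlin : LinearIndependent ℝ f := by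
    have h1 : LinearIndependent ℝ X.row :=
      Matrix.linearIndependent_rows_iff_isUnit.mpr ((Matrix.isUnit_iff_isUnit_det X).mpr hX)
    exact h1.map' (WithLp.linearEquiv 2 ℝ (Fin m → ℝ)).symm.toLinearMap
      (LinearMap.ker_eq_bot.mpr (WithLp.linearEquiv 2 ℝ (Fin m → ℝ)).symm.injective)
  have hcard : Module.finrank ℝ (EuclideanSpace ℝ (Fin m)) = Fintype.card (Fin m) :=
    finrank_euclideanSpace
  set e := InnerProductSpace.gramSchmidtOrthonormalBasis hcard f with he
  refine ⟨Matrix.of fun i j => inner ℝ (e j) (f i), Matrix.of fun j k => (e j) k, ?_, ?_, ?_, ?_⟩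
  · ext i k
    rw [Matrix.mul_apply]
    have h1 := e.sum_repr (f i)
    have h2 : (f i) k = X i k := rfl
    rw [← h2, ← h1, WithLp.ofLp_sum, Finset.sum_apply]
    refine Finset.sum_congr rfl fun j _ => ?_
    rw [Matrix.of_apply, Matrix.of_apply, e.repr_apply_apply]
    rfl
  · intro i j hij
    exact InnerProductSpace.gramSchmidtOrthonormalBasis_inv_triangular hcard f hij
  · intro i
    rw [Matrix.of_apply]
    have h0 := InnerProductSpace.gramSchmidt_ne_zero i hlin
    have h1 : InnerProductSpace.gramSchmidtNormed ℝ f i ≠ 0 := by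
      intro h
      have h2 := InnerProductSpace.gramSchmidtNormed_unit_length i hlin
      rw [h, norm_zero] at h2
      exact zero_ne_one h2
    rw [he, InnerProductSpace.gramSchmidtOrthonormalBasis_apply hcard h1,
      InnerProductSpace.gramSchmidtNormed, inner_smul_left]
    have h3 : inner ℝ (InnerProductSpace.gramSchmidt ℝ f i) (f i) =
        ‖InnerProductSpace.gramSchmidt ℝ f i‖ ^ 2 := by
      conv_lhs => rw [InnerProductSpace.gramSchmidt_def'' ℝ f i]
      rw [inner_add_right, real_inner_self_eq_norm_sq, inner_sum, Finset.sum_eq_zero, add_zero]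
      intro j hj
      rw [inner_smul_right, InnerProductSpace.gramSchmidt_orthogonal ℝ f
        (Finset.mem_Iio.mp hj).ne', mul_zero]
    rw [h3]
    have h4 : 0 < ‖InnerProductSpace.gramSchmidt ℝ f i‖ := norm_pos_iff.mpr h0
    simp only [map_inv₀, RCLike.ofReal_real_eq_id, id_eq, conj_trivial]
    positivity
  · ext i j
    rw [Matrix.mul_apply, Matrix.one_apply]
    have h1 := orthonormal_iff_ite.mp e.orthonormal i j
    rw [← h1, PiLp.inner_apply]
    refine Finset.sum_congr rfl fun k _ => ?_
    rw [Matrix.transpose_apply, Matrix.of_apply, Matrix.of_apply]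
    simp [mul_comm]

theorem IsLQ.unique {X b κ b' κ' : Matrix (Fin m) (Fin m) ℝ} (h : IsLQ X b κ)
    (h' : IsLQ X b' κ') : b = b' := by
  have hk : κ.transpose * κ = 1 := mul_eq_one_comm.mp h.orth
  have hk' : κ'.transpose * κ' = 1 := mul_eq_one_comm.mp h'.orth
  set o : Matrix (Fin m) (Fin m) ℝ := κ' * κ.transpose with ho
  have hoo : o * o.transpose = 1 := by
    rw [ho, Matrix.transpose_mul, Matrix.transpose_transpose, Matrix.mul_assoc,
      ← Matrix.mul_assoc κ.transpose, hk, Matrix.one_mul, h'.orth]
  have hb : b = b' * o := by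
    have h1 : b * κ = b' * κ' := by rw [← h.eq, ← h'.eq]
    rw [ho, ← Matrix.mul_assoc, ← h1, Matrix.mul_assoc, h.orth, Matrix.mul_one]
  have key : ∀ k : ℕ, ∀ i : Fin m, i.val = k → ∀ j, o i j = if i = j then 1 else 0 := by
    intro k
    induction k using Nat.strong_induction_on with
    | _ k ih =>
      intro i hik
      -- rows before `i` are standard
      have hrow : ∀ l, l < i → ∀ j, o l j = if l = j then 1 else 0 := fun l hl j =>
        ih l.val (by rw [← hik]; exact hl) l rfl j
      have hlow : ∀ j, j < i → o i j = 0 := by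
        intro j hj
        have h1 := congrFun (congrFun hoo i) j
        rw [Matrix.mul_apply, Matrix.one_apply_ne hj.ne', Finset.sum_eq_single j] at h1
        · rw [Matrix.transpose_apply, hrow j hj, if_pos rfl, mul_one] at h1
          exact h1
        · intro l _ hl
          rw [Matrix.transpose_apply, hrow j hj, if_neg hl.symm, mul_zero]
        · intro hj'
          exact absurd (Finset.mem_univ _) hj'
      have hbi : ∀ j, i ≤ j → b i j = b' i i * o i j := by
        intro j hj
        rw [hb, Matrix.mul_apply, Finset.sum_eq_single i]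
        · intro l _ hl
          rcases lt_or_gt_of_ne hl with hl | hl
          · rw [hrow l hl, if_neg (lt_of_lt_of_le hl hj).ne, mul_zero]
          · rw [h'.low i l hl, zero_mul]
        · intro hi
          exact absurd (Finset.mem_univ _) hi
      have hup : ∀ j, i < j → o i j = 0 := by
        intro j hj
        have h1 := hbi j hj.le
        rw [h.low i j hj] at h1
        rcases mul_eq_zero.mp h1.symm with h2 | h2
        · exact absurd h2 (h'.pos i).ne'
        · exact h2
      have hpos : 0 < o i i := by
        have h1 := hbi i le_rfl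
        have h2 := h.pos i
        rw [h1] at h2
        exact (mul_pos_iff_of_pos_left (h'.pos i)).mp h2
      have hsq : o i i * o i i = 1 := by
        have h1 := congrFun (congrFun hoo i) i
        rw [Matrix.mul_apply, Matrix.one_apply_eq, Finset.sum_eq_single i] at h1
        · rw [Matrix.transpose_apply] at h1
          exact h1
        · intro l _ hl
          rcases lt_or_gt_of_ne hl with hl | hl
          · rw [hlow l hl, zero_mul]
          · rw [hup l hl, zero_mul]
        · intro hi
          exact absurd (Finset.mem_univ _) hi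
      intro j
      rcases lt_trichotomy i j with hij | hij | hij
      · rw [hup j hij, if_neg hij.ne]
      · subst hij
        rw [if_pos rfl]
        nlinarith
      · rw [hlow j hij, if_neg hij.ne']
  have ho1 : o = 1 := by
    ext i j
    rw [key i.val i rfl j, Matrix.one_apply]
  rw [hb, ho1, Matrix.mul_one]

open Classical in
/-- the lower triangular factor -/
noncomputable def lqb (X : Matrix (Fin m) (Fin m) ℝ) : Matrix (Fin m) (Fin m) ℝ :=
  if h : ∃ b κ, IsLQ X b κ then h.choose else 1

theorem lqb_spec (X : Matrix (Fin m) (Fin m) ℝ) (hX : IsUnit X.det) :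
    ∃ κ, IsLQ X (lqb X) κ := by
  have h := exists_lq X hX
  unfold lqb
  rw [dif_pos h]
  exact h.choose_spec

theorem lqb_eq {X b κ : Matrix (Fin m) (Fin m) ℝ} (h : IsLQ X b κ) : lqb X = b := by
  have h1 : ∃ b κ, IsLQ X b κ := ⟨b, κ, h⟩
  unfold lqb
  rw [dif_pos h1]
  obtain ⟨κ', h2⟩ := h1.choose_spec
  exact h2.unique h

/-- the logarithms of the diagonal entries -/
noncomputable def la (X : Matrix (Fin m) (Fin m) ℝ) (i : Fin m) : ℝ := Real.log (lqb X i i)

/-- the unitriangular part -/
noncomputable def na (X : Matrix (Fin m) (Fin m) ℝ) : Matrix (Fin m) (Fin m) ℝ :=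
  Matrix.of fun i j => lqb X i j / lqb X j j

theorem uni_na (X : Matrix (Fin m) (Fin m) ℝ) (hX : IsUnit X.det) : Uni (na X) := by
  obtain ⟨κ, h⟩ := lqb_spec X hX
  refine ⟨fun i j hij => ?_, fun i => ?_⟩
  · rw [na, Matrix.of_apply, h.low i j hij, zero_div]
  · rw [na, Matrix.of_apply, div_self (h.pos i).ne']

private theorem low_mul_apply_self {C b : Matrix (Fin m) (Fin m) ℝ}
    (hC : ∀ i j, i < j → C i j = 0) (hb : ∀ i j, i < j → b i j = 0) (i : Fin m) :
    (C * b) i i = C i i * b i i := by
  rw [Matrix.mul_apply, Finset.sum_eq_single i]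
  · intro l _ hl
    rcases lt_or_gt_of_ne hl with hl | hl
    · rw [hb l i hl, mul_zero]
    · rw [hC i l hl, zero_mul]
  · intro hi
    exact absurd (Finset.mem_univ _) hi

/-- left multiplication by a lower triangular matrix with positive diagonal -/
theorem lqb_left (C X : Matrix (Fin m) (Fin m) ℝ) (hC : ∀ i j, i < j → C i j = 0)
    (hC' : ∀ i, 0 < C i i) (hX : IsUnit X.det) : lqb (C * X) = C * lqb X := by
  obtain ⟨κ, h⟩ := lqb_spec X hX
  refine lqb_eq (κ := κ) ⟨?_, fun i j hij => ?_, fun i => ?_, h.orth⟩
  · rw [Matrix.mul_assoc, ← h.eq]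
  · rw [Matrix.mul_apply]
    refine Finset.sum_eq_zero fun l _ => ?_
    rcases lt_or_ge i l with hl | hl
    · rw [hC i l hl, zero_mul]
    · rw [h.low l j (lt_of_le_of_lt hl hij), mul_zero]
  · rw [low_mul_apply_self hC h.low]
    exact mul_pos (hC' i) (h.pos i)

/-- left multiplication by a unitriangular matrix -/
theorem na_left (n X : Matrix (Fin m) (Fin m) ℝ) (hn : Uni n) (hX : IsUnit X.det) :
    na (n * X) = n * na X := by
  obtain ⟨κ, h⟩ := lqb_spec X hX
  have h1 := lqb_left n X hn.1 (fun i => by rw [hn.2 i]; exact one_pos) hX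
  ext i j
  rw [na, Matrix.of_apply, h1, low_mul_apply_self hn.1 h.low, hn.2, one_mul, Matrix.mul_apply,
    Matrix.mul_apply, Finset.sum_div]
  refine Finset.sum_congr rfl fun l _ => ?_
  rw [na, Matrix.of_apply, mul_div_assoc]

/-- left multiplication by a diagonal matrix -/
theorem na_diag (D : Fin m → ℝ) (X : Matrix (Fin m) (Fin m) ℝ) (hD : ∀ i, 0 < D i)
    (hX : IsUnit X.det) (i j : Fin m) :
    na (Matrix.diagonal D * X) i j = D i * na X i j / D j := by
  obtain ⟨κ, h⟩ := lqb_spec X hX
  have h1 := lqb_left (Matrix.diagonal D) X (fun i j hij => Matrix.diagonal_apply_ne _ hij.ne)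
    (fun i => by rw [Matrix.diagonal_apply_eq]; exact hD i) hX
  have h2 := (h.pos j).ne'
  have h3 := (hD j).ne'
  rw [na, Matrix.of_apply, h1, Matrix.diagonal_mul, Matrix.diagonal_mul, na, Matrix.of_apply]
  field_simp

end Pool.Agent.Helper58.AR
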