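import Pool.Agent.Helper58.AR.LightR

/-!
AR-14. The local theorem for a complex place.

Proof. `ι : Matrix (Fin m) (Fin m) ℂ →+* Matrix (Fin m × Fin 2) (Fin m × Fin 2) ℝ` replaces every entry `a + b i` by the
block `[[a, -b], [b, a]]` (it is a ring homomorphism; Mathlib: `Algebra.leftMulMatrix Complex.basisOneI`, or check
directly), reindexed to `Fin (m * 2)` by `finProdFinEquiv`; this gives `GL (Fin m) ℂ →* GL (Fin (m * 2)) ℝ`. The real and
imaginary parts of `eval y P` are polynomials in the `2 d` real numbers `re (y l)`, `im (y l)` (induction on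
`P`). Apply `local_light_real` with `2 d` parameters. `‖z‖ ≤ |re z| + |im z|`.

Lean proof of this module: helper91 (joint project of helper58 and helper64).
-/

set_option autoImplicit false

namespace Pool.Agent.Helper58.AR

open Pool.Agent.Helper65.TH

/-- complex matrices as real matrices of twice the size -/
noncomputable def iotaC (m : ℕ) : Matrix (Fin m) (Fin m) ℂ →+* Matrix (Fin (m * 2)) (Fin (m * 2)) ℝ :=
  ((Matrix.reindexAlgEquiv ℝ ℝ (finProdFinEquiv (m := m) (n := 2))).toRingEquiv.toRingHom.comp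
    (Matrix.compRingEquiv (Fin m) (Fin 2) ℝ).toRingHom).comp
    (RingHom.mapMatrix (Algebra.leftMulMatrix Complex.basisOneI).toRingHom)

theorem iotaC_apply {m : ℕ} (M : Matrix (Fin m) (Fin m) ℂ) (p q : Fin m × Fin 2) :
    iotaC m M (finProdFinEquiv p) (finProdFinEquiv q) =
      Algebra.leftMulMatrix Complex.basisOneI (M p.1 q.1) p.2 q.2 := by
  simp [iotaC, Matrix.compRingEquiv, Matrix.comp]

/-- real coordinates of complex parameters -/
noncomputable def realY {d : ℕ} (y : Fin d → ℂ) (k : Fin (d * 2)) : ℝ :=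
  if (finProdFinEquiv.symm k).2 = 0 then (y (finProdFinEquiv.symm k).1).re
  else (y (finProdFinEquiv.symm k).1).im

theorem exists_real_poly {d : ℕ} (P : MvPolynomial (Fin d) ℂ) :
    ∃ Q : Bool → MvPolynomial (Fin (d * 2)) ℝ, ∀ y : Fin d → ℂ,
      (MvPolynomial.eval y P).re = MvPolynomial.eval (realY y) (Q false) ∧
      (MvPolynomial.eval y P).im = MvPolynomial.eval (realY y) (Q true) := by
  induction P using MvPolynomial.induction_on with
  | C a =>
    refine ⟨fun b => MvPolynomial.C (if b then a.im else a.re), fun y => ?_⟩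
    simp
  | add p q hp hq =>
    obtain ⟨P', hP'⟩ := hp
    obtain ⟨Q', hQ'⟩ := hq
    refine ⟨fun b => P' b + Q' b, fun y => ?_⟩
    simp [hP' y, hQ' y]
  | mul_X p i hp =>
    obtain ⟨P', hP'⟩ := hp
    refine ⟨fun b => if b then P' true * MvPolynomial.X (finProdFinEquiv (i, 0)) +
      P' false * MvPolynomial.X (finProdFinEquiv (i, 1)) else
      P' false * MvPolynomial.X (finProdFinEquiv (i, 0)) -
      P' true * MvPolynomial.X (finProdFinEquiv (i, 1)), fun y => ?_⟩
    simp only [map_mul, MvPolynomial.eval_X, Complex.mul_re, Complex.mul_im, (hP' y).1, (hP' y).2,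
      if_true, map_add, Bool.false_eq_true, if_false, map_sub]
    have h0 : realY y (finProdFinEquiv (i, 0)) = (y i).re := by simp [realY]
    have h1 : realY y (finProdFinEquiv (i, 1)) = (y i).im := by simp [realY]
    rw [h0, h1]
    constructor <;> ring

theorem local_light_complex {Γ : Type*} [Group Γ] {m d : ℕ} (φ : Γ →* GL (Fin m) ℂ)
    (L : Subgroup Γ) (y : Γ → Fin d → ℂ) (P : Fin m → Fin m → MvPolynomial (Fin d) ℂ)
    (hP : ∀ h ∈ L, ∀ a b, (φ h : Matrix (Fin m) (Fin m) ℂ) a b = MvPolynomial.eval (y h) (P a b))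
    (S : Finset Γ) (ε : ℝ) (hε : 0 < ε) :
    ∃ (g : Γ → Fin (d * 2 + (d * 2 + 1)) → ℝ) (ρ : ℝ), (∀ x, ∀ s ∈ S, Near (g (x * s)) (g x) ε) ∧
      ∀ x z, Chain {s | s ∈ S ∧ s ∈ L} (fun b => Near (g b) (g x) 1) x z →
        ∀ a b, ‖(φ (x⁻¹ * z) : Matrix (Fin m) (Fin m) ℂ) a b‖ ≤ ρ := by
  classical
  choose Q hQ using fun a b => exists_real_poly (P a b)
  let ψ : Γ →* GL (Fin (m * 2)) ℝ := (Units.map (iotaC m).toMonoidHom).comp φ
  have hψ : ∀ h, (ψ h : Matrix (Fin (m * 2)) (Fin (m * 2)) ℝ) =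
      iotaC m (φ h : Matrix (Fin m) (Fin m) ℂ) := fun h => rfl
  let P' : Fin (m * 2) → Fin (m * 2) → MvPolynomial (Fin (d * 2)) ℝ := fun k l =>
    (!![Q (finProdFinEquiv.symm k).1 (finProdFinEquiv.symm l).1 false,
      -Q (finProdFinEquiv.symm k).1 (finProdFinEquiv.symm l).1 true;
      Q (finProdFinEquiv.symm k).1 (finProdFinEquiv.symm l).1 true,
      Q (finProdFinEquiv.symm k).1 (finProdFinEquiv.symm l).1 false] :
      Matrix (Fin 2) (Fin 2) (MvPolynomial (Fin (d * 2)) ℝ))
      (finProdFinEquiv.symm k).2 (finProdFinEquiv.symm l).2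
  have hP' : ∀ h ∈ L, ∀ a b, (ψ h : Matrix (Fin (m * 2)) (Fin (m * 2)) ℝ) a b =
      MvPolynomial.eval (realY (y h)) (P' a b) := by
    intro h hh a b
    obtain ⟨p, rfl⟩ := finProdFinEquiv.surjective a
    obtain ⟨q, rfl⟩ := finProdFinEquiv.surjective b
    rw [hψ, iotaC_apply, Algebra.leftMulMatrix_complex, hP h hh]
    have h1 := (hQ p.1 q.1 (y h)).1
    have h2 := (hQ p.1 q.1 (y h)).2
    obtain ⟨i, a⟩ := p
    obtain ⟨j, b⟩ := q
    simp only at h1 h2
    simp only [P', Equiv.symm_apply_apply]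
    fin_cases a <;> fin_cases b <;> simp [h1, h2]
  obtain ⟨g, ρ, hg, hρ⟩ := local_light_real ψ L (fun x => realY (y x)) P' hP' S ε hε
  refine ⟨g, ρ + ρ, hg, fun x z hxz a b => ?_⟩
  have h := hρ x z hxz
  have h1 := h (finProdFinEquiv (a, 0)) (finProdFinEquiv (b, 0))
  have h2 := h (finProdFinEquiv (a, 1)) (finProdFinEquiv (b, 0))
  rw [hψ, iotaC_apply, Algebra.leftMulMatrix_complex] at h1 h2
  simp only [Matrix.cons_val', Matrix.cons_val_zero, Matrix.cons_val_one, Matrix.of_apply,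
    Matrix.cons_val_fin_one] at h1 h2
  exact (Complex.norm_le_abs_re_add_abs_im _).trans (add_le_add h1 h2)

end Pool.Agent.Helper58.AR
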