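import Pool.Agent.Helper65.TH.Basic

/-!
AR-8. A chain which leaves a large ball of a group visits far apart points.

Proof. `N ^ k` is increasing in `k` (`1 ∈ N`). First exit: for every `k` either `f z * (f x)⁻¹ ∈ N ^ k` or there is
`y` on the chain with `f y * (f x)⁻¹ ∈ N ^ (k + 1)` and `∉ N ^ k` (induction along the chain, `Chain.rec'`:
for a step `a → b`, `f b * (f x)⁻¹ = (f b * (f a)⁻¹) * (f a * (f x)⁻¹) ∈ N * N ^ k`). Apply this with
`k = 2 a`, `a < J`: if the first alternative holds for some `a` we are done, otherwise we get `y a`. If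
`g = f (y b) * (f (y a))⁻¹ ∈ N` with `a < b` then `f (y b) * (f x)⁻¹ ∈ N ^ (2 a + 2) ⊆ N ^ (2 b)`, a
contradiction; if `b < a` use `g⁻¹`.
-/

set_option autoImplicit false

namespace Pool.Agent.Helper58.AR

open Pool.Agent.Helper65.TH Pointwise

private theorem exit {Γ B : Type*} [Group Γ] [Group B] (f : Γ → B) (N : Set B)
    (h1 : (1 : B) ∈ N) (F : Set Γ) (Q : Γ → Prop) (x z : Γ)
    (hstep : ∀ a b, Chain F Q x a → a⁻¹ * b ∈ F → Q b → f b * (f a)⁻¹ ∈ N)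
    (hxz : Chain F Q x z) (k : ℕ) :
    f z * (f x)⁻¹ ∈ N ^ k ∨
      ∃ y : Γ, Chain F Q x y ∧ f y * (f x)⁻¹ ∈ N ^ (k + 1) ∧ f y * (f x)⁻¹ ∉ N ^ k := by
  refine hxz.rec' (R := fun w => f w * (f x)⁻¹ ∈ N ^ k ∨
      ∃ y : Γ, Chain F Q x y ∧ f y * (f x)⁻¹ ∈ N ^ (k + 1) ∧ f y * (f x)⁻¹ ∉ N ^ k) ?_ ?_
  · left
    rw [mul_inv_cancel, ← one_pow k]
    exact Set.pow_mem_pow h1
  · intro a b hxa ha hs hb
    rcases ha with ha | ha
    · by_cases hk : f b * (f x)⁻¹ ∈ N ^ k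
      · exact Or.inl hk
      · right
        refine ⟨b, hxa.step hs hb, ?_, hk⟩
        have he : f b * (f x)⁻¹ = (f b * (f a)⁻¹) * (f a * (f x)⁻¹) := by group
        rw [he, pow_succ']
        exact Set.mul_mem_mul (hstep a b hxa hs hb) ha
    · exact Or.inr ha

private theorem far {B : Type*} [Group B] {N : Set B} (h1 : (1 : B) ∈ N) {p q r : B} {a b : ℕ}
    (hab : a < b) (hp : p * r⁻¹ ∈ N ^ (2 * a + 1)) (hq : q * r⁻¹ ∉ N ^ (2 * b)) :
    q * p⁻¹ ∉ N := by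
  intro hg
  apply hq
  have he : q * r⁻¹ = (q * p⁻¹) * (p * r⁻¹) := by group
  have h2 : q * r⁻¹ ∈ N ^ (2 * a + 1 + 1) := by
    rw [he, pow_succ']
    exact Set.mul_mem_mul hg hp
  exact Set.pow_subset_pow_right h1 (by omega) h2

theorem shell {Γ B : Type*} [Group Γ] [Group B] (f : Γ → B) (N : Set B) (h1 : (1 : B) ∈ N)
    (hinv : ∀ g ∈ N, g⁻¹ ∈ N) (F : Set Γ) (Q : Γ → Prop) (x z : Γ)
    (hstep : ∀ a b, Chain F Q x a → a⁻¹ * b ∈ F → Q b → f b * (f a)⁻¹ ∈ N)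
    (hxz : Chain F Q x z) (J : ℕ) :
    f z * (f x)⁻¹ ∈ N ^ (2 * J) ∨
      ∃ y : Fin J → Γ, (∀ a, Chain F Q x (y a)) ∧ (∀ a, f (y a) * (f x)⁻¹ ∈ N ^ (2 * J)) ∧
        ∀ a b, a ≠ b → f (y b) * (f (y a))⁻¹ ∉ N := by
  by_cases hz : f z * (f x)⁻¹ ∈ N ^ (2 * J)
  · exact Or.inl hz
  right
  have hex : ∀ a : Fin J, ∃ y : Γ, Chain F Q x y ∧ f y * (f x)⁻¹ ∈ N ^ (2 * (a : ℕ) + 1) ∧
      f y * (f x)⁻¹ ∉ N ^ (2 * (a : ℕ)) := by
    intro a
    rcases exit f N h1 F Q x z hstep hxz (2 * (a : ℕ)) with h | h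
    · exact absurd (Set.pow_subset_pow_right h1 (by have := a.2; omega) h) hz
    · exact h
  choose y hy1 hy2 hy3 using hex
  refine ⟨y, hy1, fun a => Set.pow_subset_pow_right h1 (by have := a.2; omega) (hy2 a), ?_⟩
  intro a b hab
  rcases lt_or_gt_of_ne (fun h => hab (Fin.ext h) : (a : ℕ) ≠ (b : ℕ)) with h | h
  · exact far h1 h (hy2 a) (hy3 b)
  · intro hg
    have hg' := hinv _ hg
    have he : (f (y b) * (f (y a))⁻¹)⁻¹ = f (y a) * (f (y b))⁻¹ := by group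
    rw [he] at hg'
    exact far h1 h (hy2 b) (hy3 a) hg'

end Pool.Agent.Helper58.AR
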