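import Pool.Agent.Helper58.AR.Apart
import Pool.Agent.Helper58.AR.Core
import Pool.Agent.Helper58.AR.Shell

/-!
AR-13. The local theorem for a real place.

Proof. `τ ≥ 1` bounds the entries of `φ s`, `φ s⁻¹`, `s ∈ S`. `gA, R` from `apart` (with `ε`). `B₃` from
`core m`. Adjacent boxes: `B₄` from `rel_bound m 1` (positions of the boxes of `n` and of `n * e`, `e`
unitriangular with entries at most `1`). `N` = the set of the units `g` of `Matrix (Fin m) (Fin m) ℤ` with `g`, `g⁻¹`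
unitriangular and all entries of `g` and `g⁻¹` at most `max B₃ B₄` in absolute value (finite, symmetric, contains `1`
if `B₃ ≥ 1`); `N ^ (2 * Jn m d)` is finite, so bounded by some `B`. `M, ξ, A, K` from `core` for `d, P, B`. `κ`
from `exists_level m K`. Choose `E > 0` and then `ρ` large, so that `E + 2 R / ρ ≤ κ`; `Λ = 1 / E`; with `C` from
`phi_slow` and `c = log (m m τ)`, `τ₁ = (m m τ) ^ 2`: `Λ C A (2 c / ρ + τ₁ exp (m ρ - μ)) ≤ ε` and
`τ₁ exp (m ρ - μ) ≤ 1` for `ρ`, then `μ` large. `g x = (gA x, Λ * phi M ξ ρ μ (uv ρ (la (φ x))) (na (φ x)))`.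
Slow: `la_step`, `uv_near`, `na_step` (`la X i - la X j = ρ ∑_(j < l ≤ i) u l` by `sum_uv`), `phi_slow`.
Light: let `x, z` be joined by a chain; `u = uv ρ (la (φ x))`, `v` from `exists_level` with `t = E + 2 R / ρ`.
`δ y` = a matrix reducing `sc ρ μ v (na (φ y))` (`exists_reduce`), as a unit of the integer matrices. A step
`a → a s` of the chain: `na (φ (a s)) = na (φ a) * e`, `sc v e` has entries at most `1` below the diagonal
(`|uv ρ (la (φ a)) l - v l| ≤ 1 + 2 R / ρ ≤ 2` on the chain: take `μ ≥ 2 m ρ + ...`), so `δ (a s) * (δ a)⁻¹ ∈ N`.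
`shell` with `J = Jn m d`: in the second case the points `y a` contradict `core` (`Y a = y (x⁻¹ * y a)`,
`φ (y a) = φ x * matP P (Y a)` by `hP`, since `x⁻¹ * y a ∈ L`; the differences of `phi` are at most `1 / Λ = E`).
In the first case `δ z * (δ x)⁻¹ ∈ N ^ (2 J)` is bounded by `B`, so `sc v (na (φ x))⁻¹ * sc v (na (φ z))` is
bounded (`inv_bound`), i.e. `na (φ z) = na (φ x) * e` with `|e i j| ≤ A' exp (pot v i - pot v j)
≤ A'' exp (la (φ x) i - la (φ x) j)` and `bound_of_parts` bounds `φ (x⁻¹ * z)`.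

Proved by helper6.
-/

set_option autoImplicit false

namespace Pool.Agent.Helper58.AR

open Pool.Agent.Helper65.TH Pointwise

section aux

variable {m : ℕ}

private theorem lr_red {δ : Matrix (Fin m) (Fin m) ℤ} {n : Matrix (Fin m) (Fin m) ℝ}
    (h : Red δ n) (hn : Uni n) (i j : Fin m) :
    |(δ.map (Int.castRingHom ℝ) * n) i j| ≤ 1 := by
  have hu : Uni (δ.map (Int.castRingHom ℝ) * n) := (h.1.map _).mul hn
  rcases lt_trichotomy i j with hij | hij | hij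
  · rw [hu.1 i j hij, abs_zero]
    exact zero_le_one
  · rw [← hij, hu.2 i, abs_one]
  · obtain ⟨h1, h2⟩ := h.2 i j hij
    rw [abs_of_nonneg h1]
    exact h2.le

/-- the relative displacement is bounded -/
private theorem lr_disp (m : ℕ) (B : ℝ) : ∃ B₄ : ℝ, ∀ (n₀ n e : Matrix (Fin m) (Fin m) ℝ)
    (δ₀ δ w : Matrix (Fin m) (Fin m) ℤ), Uni n₀ → Uni n → n = n₀ * e → Red δ₀ n₀ → Red δ n →
    Uni w → δ = w * δ₀ → (∀ i j, |(w i j : ℝ)| ≤ B) → ∀ i j, |e i j| ≤ B₄ := by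
  obtain ⟨B', hB'⟩ := inv_bound m (m * (B * 1))
  refine ⟨m * (B' * 1), ?_⟩
  intro n₀ n e δ₀ δ w hn₀ hn hne hδ₀ hδ hw hδw hwB
  have hg : Uni (w.map (Int.castRingHom ℝ) * (δ₀.map (Int.castRingHom ℝ) * n₀)) :=
    (hw.map _).mul ((hδ₀.1.map _).mul hn₀)
  obtain ⟨g', _, hg1, hg2⟩ := hg.exists_inv
  have hb : ∀ i j, |(w.map (Int.castRingHom ℝ) * (δ₀.map (Int.castRingHom ℝ) * n₀)) i j| ≤
      m * (B * 1) := mul_bound (fun i j => by
        simpa [Matrix.map_apply] using hwB i j) (lr_red hδ₀ hn₀)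
  have hb' := hB' _ g' hg hg1 hb
  have he : e = g' * (δ.map (Int.castRingHom ℝ) * n) := by
    rw [hδw, Matrix.map_mul, hne]
    have : w.map (Int.castRingHom ℝ) * δ₀.map (Int.castRingHom ℝ) * (n₀ * e) =
        (w.map (Int.castRingHom ℝ) * (δ₀.map (Int.castRingHom ℝ) * n₀)) * e := by
      simp only [Matrix.mul_assoc]
    rw [this, ← Matrix.mul_assoc g', hg2, Matrix.one_mul]
  rw [he]
  exact mul_bound hb' (lr_red hδ hn)

private theorem lr_split (f : Fin m → ℝ) {i j : Fin m} (hij : j ≤ i) :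
    ∑ l ∈ Finset.Iic i, f l = ∑ l ∈ Finset.Iic j, f l + ∑ l ∈ Finset.Ioc j i, f l := by
  classical
  rw [← Finset.sum_union]
  · refine Finset.sum_congr ?_ fun _ _ => rfl
    ext l
    simp only [Finset.mem_union, Finset.mem_Iic, Finset.mem_Ioc]
    constructor
    · intro h
      rcases le_or_gt l j with h1 | h1
      · exact Or.inl h1
      · exact Or.inr ⟨h1, h⟩
    · rintro (h | h)
      · exact h.trans hij
      · exact h.2
  · rw [Finset.disjoint_left]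
    intro l h1 h2
    rw [Finset.mem_Iic] at h1
    rw [Finset.mem_Ioc] at h2
    exact absurd h1 (not_le.2 h2.1)

private theorem lr_la {ρ : ℝ} (hρ : ρ ≠ 0) (a : Fin m → ℝ) {i j : Fin m} (hij : j ≤ i) :
    a i - a j = ρ * ∑ l ∈ Finset.Ioc j i, uv ρ a l := by
  have h1 := sum_uv hρ a i
  have h2 := sum_uv hρ a j
  rw [lr_split _ hij, mul_add, h2] at h1
  linarith

private theorem lr_pot (ρ μ : ℝ) (v : Fin m → ℤ) {i j : Fin m} (hij : j ≤ i) :
    pot ρ μ v i - pot ρ μ v j =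
      μ * (((i : ℕ) : ℝ) - ((j : ℕ) : ℝ)) + ρ * ∑ l ∈ Finset.Ioc j i, (v l : ℝ) := by
  unfold pot
  rw [lr_split (fun l => (v l : ℝ)) hij]
  ring

/-- sums over an interval of functions which differ by at most `q` -/
private theorem lr_sum {f g : Fin m → ℝ} {q : ℝ} (hq : 0 ≤ q) (h : ∀ l, |f l - g l| ≤ q)
    (i j : Fin m) : |∑ l ∈ Finset.Ioc j i, f l - ∑ l ∈ Finset.Ioc j i, g l| ≤ m * q := by
  rw [← Finset.sum_sub_distrib]
  calc |∑ l ∈ Finset.Ioc j i, (f l - g l)| ≤ ∑ l ∈ Finset.Ioc j i, |f l - g l| :=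
        Finset.abs_sum_le_sum_abs _ _
    _ ≤ ∑ _l ∈ Finset.Ioc j i, q := Finset.sum_le_sum fun l _ => h l
    _ = ((Finset.Ioc j i).card : ℝ) * q := by rw [Finset.sum_const, nsmul_eq_mul]
    _ ≤ m * q := by
        refine mul_le_mul_of_nonneg_right ?_ hq
        have h3 := Finset.card_le_univ (Finset.Ioc j i)
        rw [Fintype.card_fin] at h3
        exact_mod_cast h3

private theorem lr_unit_inv {g : (Matrix (Fin m) (Fin m) ℤ)ˣ}
    (h : Uni (g : Matrix (Fin m) (Fin m) ℤ)) : Uni ((g⁻¹ : (Matrix (Fin m) (Fin m) ℤ)ˣ) :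
      Matrix (Fin m) (Fin m) ℤ) := by
  obtain ⟨n', hn', h1, _⟩ := h.exists_inv
  have h3 : ((g⁻¹ : (Matrix (Fin m) (Fin m) ℤ)ˣ) : Matrix (Fin m) (Fin m) ℤ) = n' := by
    have h4 := congrArg (fun y => ((g⁻¹ : (Matrix (Fin m) (Fin m) ℤ)ˣ) :
      Matrix (Fin m) (Fin m) ℤ) * y) h1
    simp only [← mul_assoc, Units.inv_mul, one_mul, mul_one] at h4
    exact h4.symm
  rw [h3]
  exact hn'

/-- the small positions -/
private def NN (m : ℕ) (b : ℝ) : Set (Matrix (Fin m) (Fin m) ℤ)ˣ :=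
  {g | Uni (g : Matrix (Fin m) (Fin m) ℤ) ∧
    (∀ i j, |((g : Matrix (Fin m) (Fin m) ℤ) i j : ℝ)| ≤ b) ∧
    ∀ i j, |(((g⁻¹ : (Matrix (Fin m) (Fin m) ℤ)ˣ) : Matrix (Fin m) (Fin m) ℤ) i j : ℝ)| ≤ b}

private theorem lr_one_entry {b : ℝ} (hb : 1 ≤ b) (i j : Fin m) :
    |((1 : Matrix (Fin m) (Fin m) ℤ) i j : ℝ)| ≤ b := by
  rw [Matrix.one_apply]
  split_ifs
  · simpa using hb
  · simpa using (zero_le_one.trans hb)

private theorem lr_NN_one {b : ℝ} (hb : 1 ≤ b) : (1 : (Matrix (Fin m) (Fin m) ℤ)ˣ) ∈ NN m b := by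
  refine ⟨Uni.one, fun i j => ?_, fun i j => ?_⟩
  · rw [Units.val_one]
    exact lr_one_entry hb i j
  · rw [inv_one, Units.val_one]
    exact lr_one_entry hb i j

private theorem lr_NN_inv {b : ℝ} {g : (Matrix (Fin m) (Fin m) ℤ)ˣ} (hg : g ∈ NN m b) :
    g⁻¹ ∈ NN m b := by
  refine ⟨lr_unit_inv hg.1, hg.2.2, fun i j => ?_⟩
  rw [inv_inv]
  exact hg.2.1 i j

private theorem lr_NN_pow (m : ℕ) (b : ℝ) (k : ℕ) : ∃ B : ℝ, ∀ g ∈ (NN m b) ^ k,
    Uni (g : Matrix (Fin m) (Fin m) ℤ) ∧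
      ∀ i j, |((g : Matrix (Fin m) (Fin m) ℤ) i j : ℝ)| ≤ B := by
  induction k with
  | zero =>
    refine ⟨1, fun g hg => ?_⟩
    rw [pow_zero, Set.mem_one] at hg
    rw [hg, Units.val_one]
    exact ⟨Uni.one, lr_one_entry le_rfl⟩
  | succ k ih =>
    obtain ⟨B, hB⟩ := ih
    refine ⟨m * (B * b), fun g hg => ?_⟩
    rw [pow_succ] at hg
    obtain ⟨g1, hg1, g2, hg2, rfl⟩ := Set.mem_mul.1 hg
    obtain ⟨u1, b1⟩ := hB g1 hg1
    rw [Units.val_mul]
    refine ⟨u1.mul hg2.1, fun i j => ?_⟩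
    have h1 := mul_bound (a := (g1 : Matrix (Fin m) (Fin m) ℤ).map (Int.castRingHom ℝ))
      (b := (g2 : Matrix (Fin m) (Fin m) ℤ).map (Int.castRingHom ℝ)) (A := B) (B := b)
      (fun i j => by simpa [Matrix.map_apply] using b1 i j)
      (fun i j => by simpa [Matrix.map_apply] using hg2.2.1 i j) i j
    rw [← Matrix.map_mul, Matrix.map_apply] at h1
    simpa using h1

/-- unitriangular units with entries at most `B` are small positions -/
private theorem lr_exists_NN (m : ℕ) (B : ℝ) : ∃ b : ℝ, 1 ≤ b ∧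
    ∀ g : (Matrix (Fin m) (Fin m) ℤ)ˣ, Uni (g : Matrix (Fin m) (Fin m) ℤ) →
      (∀ i j, |((g : Matrix (Fin m) (Fin m) ℤ) i j : ℝ)| ≤ B) → g ∈ NN m b := by
  obtain ⟨B', hB'⟩ := inv_bound m B
  refine ⟨max 1 (max B B'), le_max_left _ _, fun g hg hgB => ⟨hg, fun i j => ?_, fun i j => ?_⟩⟩
  · exact (hgB i j).trans ((le_max_left _ _).trans (le_max_right _ _))
  · have h1 : (g : Matrix (Fin m) (Fin m) ℤ).map (Int.castRingHom ℝ) *
        ((g⁻¹ : (Matrix (Fin m) (Fin m) ℤ)ˣ) : Matrix (Fin m) (Fin m) ℤ).map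
          (Int.castRingHom ℝ) = 1 := by
      rw [← Matrix.map_mul, Units.mul_inv]
      simp
    have h2 := hB' _ _ (hg.map _) h1 (fun i j => by simpa [Matrix.map_apply] using hgB i j) i j
    rw [Matrix.map_apply] at h2
    refine le_trans ?_ ((le_max_right B B').trans (le_max_right _ _))
    simpa using h2

/-- the scaled step is bounded by one -/
private theorem lr_step {ρ μ τ₁ q : ℝ} (hρ : 0 < ρ) (hμ : 0 ≤ μ) (hq : 0 ≤ q) (hτ₁ : 0 ≤ τ₁)
    (hsmall : τ₁ * Real.exp (m * (ρ * q) - μ) ≤ 1) (a : Fin m → ℝ) (v : Fin m → ℤ)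
    (hav : ∀ l, |uv ρ a l - (v l : ℝ)| ≤ q) (e : Matrix (Fin m) (Fin m) ℝ) (he : Uni e)
    (hea : ∀ i j, |e i j| ≤ τ₁ * Real.exp (a i - a j)) (i j : Fin m) :
    |sc ρ μ v e i j| ≤ 1 := by
  have hs := uni_sc ρ μ v he
  rcases lt_trichotomy i j with hij | hij | hij
  · rw [hs.1 i j hij, abs_zero]
    exact zero_le_one
  · rw [← hij, hs.2 i, abs_one]
  · simp only [sc, Matrix.of_apply, abs_mul, Real.abs_exp]
    have h1 := lr_pot ρ μ v hij.le
    have h2 := lr_la hρ.ne' a hij.le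
    have h3 := lr_sum hq hav i j
    have h4 : a i - a j + (pot ρ μ v j - pot ρ μ v i) ≤ m * (ρ * q) - μ := by
      have h5 : (1 : ℝ) ≤ ((i : ℕ) : ℝ) - ((j : ℕ) : ℝ) := by
        have h6 : (j : ℕ) + 1 ≤ (i : ℕ) := hij
        have h7 : (((j : ℕ) + 1 : ℕ) : ℝ) ≤ ((i : ℕ) : ℝ) := Nat.cast_le.2 h6
        push_cast at h7
        linarith
      have h8 := mul_le_mul_of_nonneg_left h5 hμ
      have h9 := mul_le_mul_of_nonneg_left ((le_abs_self _).trans h3) hρ.le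
      have h10 : pot ρ μ v j - pot ρ μ v i = -(pot ρ μ v i - pot ρ μ v j) := by ring
      rw [h10, h1, h2]
      nlinarith
    calc |e i j| * Real.exp (pot ρ μ v j - pot ρ μ v i)
        ≤ (τ₁ * Real.exp (a i - a j)) * Real.exp (pot ρ μ v j - pot ρ μ v i) :=
          mul_le_mul_of_nonneg_right (hea i j) (Real.exp_pos _).le
      _ = τ₁ * Real.exp (a i - a j + (pot ρ μ v j - pot ρ μ v i)) := by
          rw [Real.exp_add]
          ring
      _ ≤ τ₁ * Real.exp (m * (ρ * q) - μ) :=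
          mul_le_mul_of_nonneg_left (Real.exp_le_exp.2 h4) hτ₁
      _ ≤ 1 := hsmall

/-- back from the scaled matrix -/
private theorem lr_back {ρ μ B q : ℝ} (hρ : 0 < ρ) (hμ : 0 ≤ μ) (hq : 0 ≤ q) (a : Fin m → ℝ)
    (v : Fin m → ℤ) (hav : ∀ l, |uv ρ a l - (v l : ℝ)| ≤ q) (e : Matrix (Fin m) (Fin m) ℝ)
    (he : Uni e) (hB : ∀ i j, |sc ρ μ v e i j| ≤ B) (i j : Fin m) :
    |e i j| ≤ B * Real.exp (m * μ + m * (ρ * q)) * Real.exp (a i - a j) := by
  have hB0 : 0 ≤ B := (abs_nonneg _).trans (hB i j)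
  rcases lt_or_ge i j with hij | hij
  · rw [he.1 i j hij, abs_zero]
    positivity
  · have h0 := hB i j
    simp only [sc, Matrix.of_apply, abs_mul, Real.abs_exp] at h0
    have h1 := lr_pot ρ μ v hij
    have h2 := lr_la hρ.ne' a hij
    have h3 := lr_sum hq hav i j
    have h4 : pot ρ μ v i - pot ρ μ v j ≤ (m * μ + m * (ρ * q)) + (a i - a j) := by
      have h5 : ((i : ℕ) : ℝ) - ((j : ℕ) : ℝ) ≤ m := by
        have h6 : (i : ℕ) ≤ m := i.2.le
        have h7 : ((i : ℕ) : ℝ) ≤ (m : ℝ) := Nat.cast_le.2 h6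
        have h8 : (0 : ℝ) ≤ ((j : ℕ) : ℝ) := Nat.cast_nonneg _
        linarith
      have h8 := mul_le_mul_of_nonneg_left h5 hμ
      have h9 := mul_le_mul_of_nonneg_left ((neg_le_of_abs_le h3)) hρ.le
      rw [h1, h2]
      nlinarith
    have h5 : |e i j| = |e i j| * Real.exp (pot ρ μ v j - pot ρ μ v i) *
        Real.exp (pot ρ μ v i - pot ρ μ v j) := by
      rw [mul_assoc, ← Real.exp_add]
      have : pot ρ μ v j - pot ρ μ v i + (pot ρ μ v i - pot ρ μ v j) = 0 := by ring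
      rw [this, Real.exp_zero, mul_one]
    calc |e i j| = |e i j| * Real.exp (pot ρ μ v j - pot ρ μ v i) *
          Real.exp (pot ρ μ v i - pot ρ μ v j) := h5
      _ ≤ B * Real.exp ((m * μ + m * (ρ * q)) + (a i - a j)) :=
          mul_le_mul h0 (Real.exp_le_exp.2 h4) (Real.exp_pos _).le hB0
      _ = B * Real.exp (m * μ + m * (ρ * q)) * Real.exp (a i - a j) := by
          rw [Real.exp_add]
          ring

/-- the choice of the constants -/
private theorem lr_const (m : ℕ) {ε κ R c τ₁ C A : ℝ} (hε : 0 < ε) (hκ : 0 < κ) (hR : 0 ≤ R)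
    (hc : 0 ≤ c) (hτ₁ : 0 ≤ τ₁) (hC : 0 ≤ C) (hA : 0 ≤ A) : ∃ ρ μ : ℝ, 0 < ρ ∧ 0 ≤ μ ∧
      κ / 2 + 2 * R / ρ ≤ κ ∧ τ₁ * Real.exp (m * (ρ * (2 * R / ρ + 1)) - μ) ≤ 1 ∧
      τ₁ * Real.exp (m * ρ - μ) ≤ 1 ∧
      2 / κ * (C * A * (2 * c / ρ + τ₁ * Real.exp (m * ρ - μ))) ≤ ε := by
  obtain ⟨D, hD⟩ : ∃ D : ℝ, D = 2 / κ * (C * A) := ⟨_, rfl⟩
  have hD0 : 0 ≤ D := by rw [hD]; positivity
  obtain ⟨ρ, hρ⟩ : ∃ ρ : ℝ, ρ = 1 + 4 * R / κ + 4 * D * c / ε := ⟨_, rfl⟩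
  have h1 : 0 ≤ 4 * R / κ := by positivity
  have h2 : 0 ≤ 4 * D * c / ε := by positivity
  have hρ0 : 0 < ρ := by rw [hρ]; linarith
  obtain ⟨θ, hθ⟩ : ∃ θ : ℝ, θ = min 1 (ε / (2 * (D + 1))) := ⟨_, rfl⟩
  have hθ0 : 0 < θ := by rw [hθ]; exact lt_min one_pos (by positivity)
  have hθ1 : θ ≤ 1 := by rw [hθ]; exact min_le_left _ _
  have hθ2 : θ ≤ ε / (2 * (D + 1)) := by rw [hθ]; exact min_le_right _ _
  obtain ⟨a, ha⟩ : ∃ a : ℝ, a = m * (ρ * (2 * R / ρ + 1)) := ⟨_, rfl⟩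
  have ha0 : m * ρ ≤ a := by
    rw [ha]
    refine mul_le_mul_of_nonneg_left ?_ (Nat.cast_nonneg _)
    have : 0 ≤ ρ * (2 * R / ρ) := by positivity
    linarith
  have ha1 : 0 ≤ a := le_trans (by positivity) ha0
  have hexp : τ₁ * Real.exp (a - (a + τ₁ / θ)) ≤ θ := by
    have h3 : a - (a + τ₁ / θ) = -(τ₁ / θ) := by ring
    rw [h3, Real.exp_neg, ← div_eq_mul_inv, div_le_iff₀ (Real.exp_pos _)]
    have h4 : τ₁ / θ ≤ Real.exp (τ₁ / θ) := by linarith [Real.add_one_le_exp (τ₁ / θ)]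
    calc τ₁ = θ * (τ₁ / θ) := by field_simp
      _ ≤ θ * Real.exp (τ₁ / θ) := mul_le_mul_of_nonneg_left h4 hθ0.le
  have hexp2 : τ₁ * Real.exp (m * ρ - (a + τ₁ / θ)) ≤ θ := by
    refine le_trans (mul_le_mul_of_nonneg_left (Real.exp_le_exp.2 ?_) hτ₁) hexp
    linarith
  refine ⟨ρ, a + τ₁ / θ, hρ0, by positivity, ?_, ?_, hexp2.trans hθ1, ?_⟩
  · have h3 : 2 * R / ρ ≤ κ / 2 := by
      rw [div_le_iff₀ hρ0]
      have h4 : 4 * R / κ ≤ ρ := by rw [hρ]; linarith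
      rw [div_le_iff₀ hκ] at h4
      linarith
    linarith
  · rw [← ha]
    exact hexp.trans hθ1
  · have h3 : 2 / κ * (C * A * (2 * c / ρ + τ₁ * Real.exp (m * ρ - (a + τ₁ / θ)))) =
        D * (2 * c / ρ) + D * (τ₁ * Real.exp (m * ρ - (a + τ₁ / θ))) := by
      rw [hD]
      ring
    rw [h3]
    have h4 : D * (2 * c / ρ) ≤ ε / 2 := by
      rw [← mul_div_assoc, div_le_iff₀ hρ0]
      have h5 : 4 * D * c / ε ≤ ρ := by rw [hρ]; linarith
      rw [div_le_iff₀ hε] at h5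
      linarith
    have h5 : D * (τ₁ * Real.exp (m * ρ - (a + τ₁ / θ))) ≤ ε / 2 := by
      calc D * (τ₁ * Real.exp (m * ρ - (a + τ₁ / θ))) ≤ D * (ε / (2 * (D + 1))) :=
            mul_le_mul_of_nonneg_left (hexp2.trans hθ2) hD0
        _ ≤ (D + 1) * (ε / (2 * (D + 1))) :=
            mul_le_mul_of_nonneg_right (by linarith) (by positivity)
        _ = ε / 2 := by field_simp
    linarith

end aux

theorem local_light_real {Γ : Type*} [Group Γ] {m d : ℕ} (φ : Γ →* GL (Fin m) ℝ)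
    (L : Subgroup Γ) (y : Γ → Fin d → ℝ) (P : Fin m → Fin m → MvPolynomial (Fin d) ℝ)
    (hP : ∀ h ∈ L, ∀ a b, (φ h : Matrix (Fin m) (Fin m) ℝ) a b = MvPolynomial.eval (y h) (P a b))
    (S : Finset Γ) (ε : ℝ) (hε : 0 < ε) :
    ∃ (g : Γ → Fin (d + (d + 1)) → ℝ) (ρ : ℝ), (∀ x, ∀ s ∈ S, Near (g (x * s)) (g x) ε) ∧
      ∀ x z, Chain {s | s ∈ S ∧ s ∈ L} (fun b => Near (g b) (g x) 1) x z →
        ∀ a b, |(φ (x⁻¹ * z) : Matrix (Fin m) (Fin m) ℝ) a b| ≤ ρ := by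
  classical
  -- the size of the generators
  obtain ⟨τ, hτ1, hτ⟩ : ∃ τ : ℝ, 1 ≤ τ ∧ ∀ s ∈ S, ∀ a b,
      |(φ s : Matrix (Fin m) (Fin m) ℝ) a b| ≤ τ ∧
      |(φ s⁻¹ : Matrix (Fin m) (Fin m) ℝ) a b| ≤ τ := by
    refine ⟨1 + ∑ s ∈ S, ∑ a, ∑ b, (|(φ s : Matrix (Fin m) (Fin m) ℝ) a b| +
      |(φ s⁻¹ : Matrix (Fin m) (Fin m) ℝ) a b|), ?_, ?_⟩
    · have : 0 ≤ ∑ s ∈ S, ∑ a, ∑ b, (|(φ s : Matrix (Fin m) (Fin m) ℝ) a b| +
        |(φ s⁻¹ : Matrix (Fin m) (Fin m) ℝ) a b|) := by positivity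
      linarith
    · intro s hs a b
      have h1 : |(φ s : Matrix (Fin m) (Fin m) ℝ) a b| +
          |(φ s⁻¹ : Matrix (Fin m) (Fin m) ℝ) a b| ≤
          ∑ s ∈ S, ∑ a, ∑ b, (|(φ s : Matrix (Fin m) (Fin m) ℝ) a b| +
          |(φ s⁻¹ : Matrix (Fin m) (Fin m) ℝ) a b|) := by
        refine le_trans ?_ (Finset.single_le_sum (f := fun s => ∑ a, ∑ b,
          (|(φ s : Matrix (Fin m) (Fin m) ℝ) a b| + |(φ s⁻¹ : Matrix (Fin m) (Fin m) ℝ) a b|))
          (fun s _ => by positivity) hs)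
        refine le_trans ?_ (Finset.single_le_sum (f := fun a => ∑ b,
          (|(φ s : Matrix (Fin m) (Fin m) ℝ) a b| + |(φ s⁻¹ : Matrix (Fin m) (Fin m) ℝ) a b|))
          (fun a _ => by positivity) (Finset.mem_univ a))
        exact Finset.single_le_sum (f := fun b => |(φ s : Matrix (Fin m) (Fin m) ℝ) a b| +
          |(φ s⁻¹ : Matrix (Fin m) (Fin m) ℝ) a b|) (fun b _ => by positivity)
          (Finset.mem_univ b)
      have h2 := abs_nonneg ((φ s : Matrix (Fin m) (Fin m) ℝ) a b)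
      have h3 := abs_nonneg ((φ s⁻¹ : Matrix (Fin m) (Fin m) ℝ) a b)
      constructor <;> linarith
  have hunit : ∀ x, IsUnit ((φ x : Matrix (Fin m) (Fin m) ℝ)).det := fun x =>
    (Matrix.isUnit_iff_isUnit_det _).1 (φ x).isUnit
  have hna : ∀ x, Uni (na (φ x : Matrix (Fin m) (Fin m) ℝ)) := fun x => uni_na _ (hunit x)
  obtain ⟨τ₁, hτ₁⟩ : ∃ τ₁ : ℝ, τ₁ = (m * m * τ) ^ 2 := ⟨_, rfl⟩
  have hτ₁0 : 0 ≤ τ₁ := by rw [hτ₁]; positivity
  obtain ⟨c, hc⟩ : ∃ c : ℝ, c = |Real.log (m * m * τ)| := ⟨_, rfl⟩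
  have hc0 : 0 ≤ c := by rw [hc]; exact abs_nonneg _
  -- the steps
  have hla : ∀ x, ∀ s ∈ S, ∀ i, |la (φ (x * s) : Matrix (Fin m) (Fin m) ℝ) i -
      la (φ x : Matrix (Fin m) (Fin m) ℝ) i| ≤ c := by
    intro x s hs i
    rw [map_mul, Units.val_mul, hc]
    refine (la_step _ _ (φ s⁻¹ : Matrix (Fin m) (Fin m) ℝ) (hunit x) ?_ hτ1
      (fun a b => (hτ s hs a b).1) (fun a b => (hτ s hs a b).2) i).trans (le_abs_self _)
    rw [map_inv]
    exact Units.mul_inv _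
  have hnas : ∀ x, ∀ s ∈ S, ∃ e : Matrix (Fin m) (Fin m) ℝ, Uni e ∧
      na (φ (x * s) : Matrix (Fin m) (Fin m) ℝ) = na (φ x : Matrix (Fin m) (Fin m) ℝ) * e ∧
      ∀ i j, |e i j| ≤ τ₁ * Real.exp (la (φ x : Matrix (Fin m) (Fin m) ℝ) i -
        la (φ x : Matrix (Fin m) (Fin m) ℝ) j) := by
    intro x s hs
    rw [map_mul, Units.val_mul, hτ₁]
    refine na_step _ _ (φ s⁻¹ : Matrix (Fin m) (Fin m) ℝ) (hunit x) ?_ hτ1
      (fun a b => (hτ s hs a b).1) (fun a b => (hτ s hs a b).2)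
    rw [map_inv]
    exact Units.mul_inv _
  obtain ⟨gA, R, hR, hgA, hgA'⟩ := apart φ L y P hP S ε hε
  obtain ⟨B₃, hcore⟩ := core m
  obtain ⟨B₄, hB₄⟩ := rel_bound m 1
  obtain ⟨b, hb1, hb⟩ := lr_exists_NN m (max B₃ B₄)
  obtain ⟨B, hB⟩ := lr_NN_pow m b (2 * Jn m d)
  obtain ⟨M, ξ, A, K, hA0, hK0, hA, hcore'⟩ := hcore d P B
  obtain ⟨κ, hκ, hlev⟩ := exists_level m K hK0.le
  obtain ⟨C, hC0, hphi⟩ := phi_slow m
  obtain ⟨ρ, μ, hρ, hμ, hc1, hc2, hc3, hc4⟩ := lr_const m hε hκ hR hc0 hτ₁0 hC0 hA0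
  obtain ⟨B₈, hB₈⟩ := lr_disp m B
  obtain ⟨bd, hbd⟩ := bound_of_parts m R (B₈ * Real.exp (m * μ + m * (ρ * 1)))
  -- the slow function
  obtain ⟨ph, hph⟩ : ∃ ph : Γ → Fin (d + 1) → ℝ, ph = fun x l =>
      phi M ξ ρ μ (uv ρ (la (φ x : Matrix (Fin m) (Fin m) ℝ)))
        (na (φ x : Matrix (Fin m) (Fin m) ℝ)) l := ⟨_, rfl⟩
  have hphslow : ∀ x, ∀ s ∈ S, ∀ l, |ph (x * s) l - ph x l| ≤
      C * A * (2 * c / ρ + τ₁ * Real.exp (m * ρ - μ)) := by
    intro x s hs l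
    obtain ⟨e, he, hne, hee⟩ := hnas x s hs
    rw [hph]
    simp only []
    rw [hne]
    refine hphi (d + 1) M ξ A hA0 hA ρ μ _ _ _ e (2 * c / ρ) τ₁ hρ.le hμ (hna x) he
      (by positivity) hτ₁0 (uv_near hρ _ _ hc0 (hla x s hs)) ?_ hc3 l
    intro i j hij
    rw [← lr_la hρ.ne' _ hij.le]
    exact hee i j
  have hκ2 : 0 < 2 / κ := by positivity
  refine ⟨fun x => Fin.append (gA x) (fun l => 2 / κ * ph x l), bd, ?_, ?_⟩
  · intro x s hs i
    refine Fin.addCases (fun i => ?_) (fun l => ?_) i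
    · beta_reduce
      rw [Fin.append_left, Fin.append_left]
      exact hgA x s hs i
    · beta_reduce
      rw [Fin.append_right, Fin.append_right, ← mul_sub, abs_mul, abs_of_pos hκ2]
      exact (mul_le_mul_of_nonneg_left (hphslow x s hs l) hκ2.le).trans hc4
  · intro x z hxz
    set T : Set Γ := {s | s ∈ S ∧ s ∈ L} with hT
    set Q : Γ → Prop := fun b => Near (Fin.append (gA b) (fun l => 2 / κ * ph b l))
      (Fin.append (gA x) (fun l => 2 / κ * ph x l)) 1 with hQ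
    have hTL : ∀ s ∈ T, s ∈ L := fun s hs => hs.2
    have hQx : Q x := Near.refl _ zero_le_one
    have hQA : ∀ b, Q b → Near (gA b) (gA x) 1 := by
      intro b hb i
      have := hb (Fin.castAdd (d + 1) i)
      rwa [Fin.append_left, Fin.append_left] at this
    have hQp : ∀ b, Q b → ∀ l, |ph b l - ph x l| ≤ κ / 2 := by
      intro b hb l
      have h1 := hb (Fin.natAdd d l)
      rw [Fin.append_right, Fin.append_right, ← mul_sub, abs_mul, abs_of_pos hκ2] at h1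
      have h2 : |ph b l - ph x l| = κ / 2 * (2 / κ * |ph b l - ph x l|) := by
        field_simp
      rw [h2]
      calc κ / 2 * (2 / κ * |ph b l - ph x l|) ≤ κ / 2 * 1 :=
            mul_le_mul_of_nonneg_left h1 (by positivity)
        _ = κ / 2 := mul_one _
    -- the logarithms along the chain
    have hlaR : ∀ a, Chain T Q x a → ∀ i, |la (φ a : Matrix (Fin m) (Fin m) ℝ) i -
        la (φ x : Matrix (Fin m) (Fin m) ℝ) i| ≤ R := by
      intro a ha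
      exact hgA' x a (ha.mono (fun _ h => h) hQA)
    have huv : ∀ a, Chain T Q x a → ∀ i, |uv ρ (la (φ a : Matrix (Fin m) (Fin m) ℝ)) i -
        uv ρ (la (φ x : Matrix (Fin m) (Fin m) ℝ)) i| ≤ 2 * R / ρ := fun a ha =>
      uv_near hρ _ _ hR (hlaR a ha)
    obtain ⟨v, hv0, hv⟩ := hlev (uv ρ (la (φ x : Matrix (Fin m) (Fin m) ℝ))) (κ / 2 + 2 * R / ρ)
      (by positivity) hc1
    have huvv : ∀ l, |uv ρ (la (φ x : Matrix (Fin m) (Fin m) ℝ)) l - (v l : ℝ)| ≤ 1 := fun l =>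
      (chi_near hv0.ne' l).le
    have huva : ∀ a, Chain T Q x a → ∀ l,
        |uv ρ (la (φ a : Matrix (Fin m) (Fin m) ℝ)) l - (v l : ℝ)| ≤ 2 * R / ρ + 1 := by
      intro a ha l
      have h1 : uv ρ (la (φ a : Matrix (Fin m) (Fin m) ℝ)) l - (v l : ℝ) =
          (uv ρ (la (φ a : Matrix (Fin m) (Fin m) ℝ)) l -
            uv ρ (la (φ x : Matrix (Fin m) (Fin m) ℝ)) l) +
          (uv ρ (la (φ x : Matrix (Fin m) (Fin m) ℝ)) l - (v l : ℝ)) := by ring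
      rw [h1]
      exact (abs_add_le _ _).trans (add_le_add (huv a ha l) (huvv l))
    -- the boxes
    have hex : ∀ a : Γ, ∃ f : (Matrix (Fin m) (Fin m) ℤ)ˣ,
        Red (f : Matrix (Fin m) (Fin m) ℤ) (sc ρ μ v (na (φ a : Matrix (Fin m) (Fin m) ℝ))) := by
      intro a
      obtain ⟨δ, hδ, hδ'⟩ := exists_reduce _ (uni_sc ρ μ v (hna a))
      obtain ⟨δ', _, h1, h2⟩ := hδ.exists_inv
      exact ⟨⟨δ, δ', h1, h2⟩, hδ, hδ'⟩
    choose f hf using hex
    have hfu : ∀ a a' : Γ, Uni ((f a' * (f a)⁻¹ : (Matrix (Fin m) (Fin m) ℤ)ˣ) :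
        Matrix (Fin m) (Fin m) ℤ) := by
      intro a a'
      rw [Units.val_mul]
      exact (hf a').1.mul (lr_unit_inv (hf a).1)
    have hff : ∀ a a' : Γ, (f a' : Matrix (Fin m) (Fin m) ℤ) =
        ((f a' * (f a)⁻¹ : (Matrix (Fin m) (Fin m) ℤ)ˣ) : Matrix (Fin m) (Fin m) ℤ) *
          (f a : Matrix (Fin m) (Fin m) ℤ) := by
      intro a a'
      rw [← Units.val_mul, inv_mul_cancel_right]
    have hstep : ∀ a a', Chain T Q x a → a⁻¹ * a' ∈ T → Q a' → f a' * (f a)⁻¹ ∈ NN m b := by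
      intro a a' ha hs _
      refine hb _ (hfu a a') fun i j => le_trans ?_ (le_max_right _ _)
      obtain ⟨e, he, hne, hee⟩ := hnas a (a⁻¹ * a') hs.1
      rw [mul_inv_cancel_left] at hne
      refine hB₄ _ _ (f a : Matrix (Fin m) (Fin m) ℤ) (f a' : Matrix (Fin m) (Fin m) ℤ) _
        (sc ρ μ v e) (uni_sc ρ μ v (hna a)) (uni_sc ρ μ v (hna a')) (hf a).1 (hf a').1
        (uni_sc ρ μ v he) ?_ ?_ (fun i j => (lr_red (hf a) (uni_sc ρ μ v (hna a)) i j).trans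
          one_le_two) (fun i j => (lr_red (hf a') (uni_sc ρ μ v (hna a')) i j).trans one_le_two)
        (hff a a') i j
      · rw [hne, sc_mul]
      · exact lr_step hρ hμ (by positivity) hτ₁0 hc2 _ v (huva a ha) e he hee
    have hφ : ∀ a, x⁻¹ * a ∈ L → (φ x : Matrix (Fin m) (Fin m) ℝ) * matP P (y (x⁻¹ * a)) =
        (φ a : Matrix (Fin m) (Fin m) ℝ) := by
      intro a ha
      have h1 : matP P (y (x⁻¹ * a)) = (φ (x⁻¹ * a) : Matrix (Fin m) (Fin m) ℝ) := by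
        ext i j
        rw [matP, Matrix.of_apply, hP _ ha]
      rw [h1, ← Units.val_mul, ← map_mul, mul_inv_cancel_left]
    rcases shell f (NN m b) (lr_NN_one hb1) (fun g hg => lr_NN_inv hg) T Q x z hstep hxz
      (Jn m d) with h | h
    · -- the displacement is bounded
      obtain ⟨hu, hub⟩ := hB _ h
      obtain ⟨N₁, hN₁, h1, h2⟩ := (hna x).exists_inv
      obtain ⟨h0, hh0⟩ : ∃ h0 : Matrix (Fin m) (Fin m) ℝ,
        h0 = N₁ * na (φ z : Matrix (Fin m) (Fin m) ℝ) := ⟨_, rfl⟩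
      have hNh : na (φ z : Matrix (Fin m) (Fin m) ℝ) = na (φ x : Matrix (Fin m) (Fin m) ℝ) * h0 := by
        rw [hh0, ← Matrix.mul_assoc, h1, Matrix.one_mul]
      have hh0u : Uni h0 := by
        rw [hh0]
        exact hN₁.mul (hna z)
      have hsc : ∀ i j, |sc ρ μ v h0 i j| ≤ B₈ :=
        hB₈ _ _ _ (f x : Matrix (Fin m) (Fin m) ℤ) (f z : Matrix (Fin m) (Fin m) ℤ) _
          (uni_sc ρ μ v (hna x)) (uni_sc ρ μ v (hna z)) (by rw [hNh, sc_mul]) (hf x) (hf z)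
          (hfu x z) (hff x z) hub
      have hXh : (φ x : Matrix (Fin m) (Fin m) ℝ) * (φ (x⁻¹ * z) : Matrix (Fin m) (Fin m) ℝ) =
          (φ z : Matrix (Fin m) (Fin m) ℝ) := by
        rw [← Units.val_mul, ← map_mul, mul_inv_cancel_left]
      refine hbd (φ x : Matrix (Fin m) (Fin m) ℝ) (φ (x⁻¹ * z) : Matrix (Fin m) (Fin m) ℝ) h0
        (hunit x) (hunit _) ?_ ?_ ?_
      · rw [hXh]
        exact hlaR z hxz
      · rw [hXh]
        exact hNh
      · exact lr_back hρ hμ zero_le_one _ v huvv h0 hh0u hsc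
    · -- far apart boxes
      exfalso
      obtain ⟨ya, hya, hya2, hya3⟩ := h
      have hLa : ∀ a, x⁻¹ * ya a ∈ L := fun a => (hya a).mem_subgroup L hTL
      have hQa : ∀ a, Q (ya a) := fun a => Chain.last hQx (hya a)
      refine hcore' ρ μ hρ hμ (φ x : Matrix (Fin m) (Fin m) ℝ) (fun a => y (x⁻¹ * ya a)) v (κ / 2)
        (2 * R / ρ) (hunit x) ?_ (by positivity) (by positivity) ?_ ?_ hv0 ?_
        (f x : Matrix (Fin m) (Fin m) ℤ) (fun a => (f (ya a) : Matrix (Fin m) (Fin m) ℤ))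
        (fun a => ((f (ya a) * (f x)⁻¹ : (Matrix (Fin m) (Fin m) ℤ)ˣ) :
          Matrix (Fin m) (Fin m) ℤ)) (hf x) ?_ (fun a => hff x (ya a)) (fun a => hfu x (ya a))
        (fun a => (hB _ (hya2 a)).2) ?_
      · intro a
        have h1 : matP P (y (x⁻¹ * ya a)) = (φ (x⁻¹ * ya a) : Matrix (Fin m) (Fin m) ℝ) := by
          ext i j
          rw [matP, Matrix.of_apply, hP _ (hLa a)]
        rw [h1]
        exact hunit _
      · intro a l
        rw [hφ _ (hLa a)]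
        have h1 := hQp _ (hQa a) l
        rw [hph] at h1
        exact h1
      · intro a i
        rw [hφ _ (hLa a)]
        exact huv _ (hya a) i
      · exact hv
      · intro a
        rw [hφ _ (hLa a)]
        exact hf (ya a)
      · intro a a' haa r hr
        by_contra hcon
        push Not at hcon
        have h1 : r = ((f (ya a') * (f (ya a))⁻¹ : (Matrix (Fin m) (Fin m) ℤ)ˣ) :
            Matrix (Fin m) (Fin m) ℤ) := by
          rw [Units.val_mul, hr, mul_assoc, Units.mul_inv, mul_one]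
        refine hya3 a a' haa (hb _ (hfu _ _) fun i j => ?_)
        rw [← h1]
        exact (hcon i j).trans (le_max_left _ _)

end Pool.Agent.Helper58.AR
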