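import Pool.Agent.Helper58.AR.Tri
import Pool.Agent.Helper58.AR.Theta

/-!
AR-4b. The function `Psi` on unitriangular matrices. (Blueprint helper58, Lean helper7.)

Proofs. `rel_bound`: `w = (δ' n') * e⁻¹ * (δ n)⁻¹` (`n' = n e`), use `inv_bound` and `mul_bound`.
`Psi_window`: the support of the finsum lies in `{w * δ₀ | w ∈ W}`, and `w ↦ w * δ₀` is injective (`δ₀` is
invertible); the terms with `theta = 0` vanish. `Psi_bound`: let `δ₀` reduce `n` (`exists_reduce`); if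
`theta (δ n) ≠ 0` then `δ = w * δ₀` with `w` in a finite set of unitriangular integer matrices independent of
`n` (`rel_bound` with `e = 1`, `abs_lt_of_theta`, `finite_bounded`). `Psi_lip`: with `W` the finite set given
by `rel_bound m 1` (it contains the windows of `n` and of `n * e` relative to the reduction `δ₀` of `n`), both
sums are over the same finite set, and `|(δ n e - δ n) i j| ≤ m * (bound) * η` for `δ = w * δ₀`
(`δ₀ n` has entries in `[0, 1]`, `w` is bounded), so `theta_lip` applies.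
-/

set_option autoImplicit false

namespace Pool.Agent.Helper58.AR

variable {m : ℕ}

open Classical in
/-- the function on unitriangular matrices with the values `ξ` at the residue classes -/
noncomputable def Psi (M : ℕ) (ξ : Matrix (Fin m) (Fin m) (ZMod M) → ℝ)
    (n : Matrix (Fin m) (Fin m) ℝ) : ℝ :=
  ∑ᶠ δ : Matrix (Fin m) (Fin m) ℤ, if Uni δ then
    theta (δ.map (Int.castRingHom ℝ) * n) * ξ (δ.map (Int.castRingHom (ZMod M))) else 0

private lemma uni_abs_le {n : Matrix (Fin m) (Fin m) ℝ} (h : Uni n) {B : ℝ} (hB : 1 ≤ B)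
    (hb : ∀ i j, j < i → |n i j| ≤ B) (i j : Fin m) : |n i j| ≤ B := by
  rcases lt_trichotomy i j with h1 | h1 | h1
  · rw [h.1 i j h1, abs_zero]
    linarith
  · subst h1
    rw [h.2, abs_one]
    exact hB
  · exact hb i j h1

/-- relative position of two boxes which meet bounded perturbations of the same point -/
theorem rel_bound (m : ℕ) (A : ℝ) : ∃ B : ℝ, ∀ (n n' : Matrix (Fin m) (Fin m) ℝ)
    (δ δ' w : Matrix (Fin m) (Fin m) ℤ) (e : Matrix (Fin m) (Fin m) ℝ), Uni n → Uni n' → Uni δ →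
    Uni δ' → Uni e → n' = n * e → (∀ i j, |e i j| ≤ A) →
    (∀ i j, |(δ.map (Int.castRingHom ℝ) * n) i j| ≤ 2) →
    (∀ i j, |(δ'.map (Int.castRingHom ℝ) * n') i j| ≤ 2) → δ' = w * δ →
    ∀ i j, |(w i j : ℝ)| ≤ B := by
  obtain ⟨B1, hB1⟩ := inv_bound m 2
  obtain ⟨B2, hB2⟩ := inv_bound m A
  refine ⟨m * ((m * (2 * B2)) * B1), ?_⟩
  intro n n' δ δ' w e hn _ hδ _ he hn' heA h1 h2 hw i j
  have hδn : Uni (δ.map (Int.castRingHom ℝ) * n) := (hδ.map _).mul hn
  obtain ⟨x, _, hx1, _⟩ := hδn.exists_inv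
  obtain ⟨y, _, hy1, _⟩ := he.exists_inv
  have hx := hB1 _ x hδn hx1 h1
  have hy := hB2 _ y he hy1 heA
  have hwe : w.map (Int.castRingHom ℝ) = (δ'.map (Int.castRingHom ℝ) * n') * y * x := by
    rw [hn', hw, Matrix.map_mul]
    calc w.map (Int.castRingHom ℝ)
        = w.map (Int.castRingHom ℝ) * ((δ.map (Int.castRingHom ℝ) * n) * x) := by
          rw [hx1, mul_one]
      _ = w.map (Int.castRingHom ℝ) * ((δ.map (Int.castRingHom ℝ) * n) * (e * y) * x) := by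
          rw [hy1, mul_one]
      _ = _ := by simp only [Matrix.mul_assoc]
  have h3 := mul_bound (mul_bound h2 hy) hx i j
  rw [← hwe] at h3
  simpa using h3

private lemma finsum_image {α β : Type*} [DecidableEq β] (F : β → ℝ) (W : Finset α) (g : α → β)
    (hg : Function.Injective g) (h : ∀ b, F b ≠ 0 → ∃ a ∈ W, b = g a) :
    ∑ᶠ b, F b = ∑ a ∈ W, F (g a) := by
  rw [finsum_eq_sum_of_support_subset (s := W.image g)]
  · exact Finset.sum_image fun a _ b _ hab => hg hab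
  · intro b hb
    obtain ⟨a, ha, hab⟩ := h b hb
    rw [Finset.coe_image]
    exact ⟨a, ha, hab.symm⟩

theorem Psi_window (M : ℕ) (ξ : Matrix (Fin m) (Fin m) (ZMod M) → ℝ)
    (n : Matrix (Fin m) (Fin m) ℝ) (W : Finset (Matrix (Fin m) (Fin m) ℤ))
    (hW : ∀ w ∈ W, Uni w) (δ₀ : Matrix (Fin m) (Fin m) ℤ) (h₀ : Uni δ₀)
    (hcov : ∀ δ : Matrix (Fin m) (Fin m) ℤ, Uni δ → theta (δ.map (Int.castRingHom ℝ) * n) ≠ 0 →
      ∃ w ∈ W, δ = w * δ₀) :
    Psi M ξ n = ∑ w ∈ W, theta ((w * δ₀).map (Int.castRingHom ℝ) * n) *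
      ξ ((w * δ₀).map (Int.castRingHom (ZMod M))) := by
  classical
  obtain ⟨δ₁, _, h1, _⟩ := h₀.exists_inv
  unfold Psi
  rw [finsum_image _ W (fun w => w * δ₀)]
  · refine Finset.sum_congr rfl fun w hw => ?_
    exact if_pos ((hW w hw).mul h₀)
  · intro a b hab
    have h2 : a * δ₀ * δ₁ = b * δ₀ * δ₁ := congrArg (fun x => x * δ₁) hab
    rwa [mul_assoc, mul_assoc, h1, mul_one, mul_one] at h2
  · intro δ hδ
    by_cases hU : Uni δ
    · rw [if_pos hU] at hδ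
      exact hcov δ hU (left_ne_zero_of_mul hδ)
    · rw [if_neg hU] at hδ
      exact absurd rfl hδ

open Classical in
private lemma window_exists (m : ℕ) : ∃ (W : Finset (Matrix (Fin m) (Fin m) ℤ)) (B : ℝ), 0 ≤ B ∧
    (∀ w ∈ W, Uni w ∧ ∀ i j, |(w i j : ℝ)| ≤ B) ∧
    ∀ (n e : Matrix (Fin m) (Fin m) ℝ) (δ₀ : Matrix (Fin m) (Fin m) ℤ), Uni n → Uni e →
      (∀ i j, |e i j| ≤ 1) → Uni δ₀ → (∀ i j, |(δ₀.map (Int.castRingHom ℝ) * n) i j| ≤ 1) →
      ∀ δ : Matrix (Fin m) (Fin m) ℤ, Uni δ →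
        theta (δ.map (Int.castRingHom ℝ) * (n * e)) ≠ 0 → ∃ w ∈ W, δ = w * δ₀ := by
  obtain ⟨B, hB⟩ := rel_bound m 1
  refine ⟨(finite_bounded m B).toFinset.filter (fun w => Uni w), max B 0, le_max_right _ _, ?_, ?_⟩
  · intro w hw
    rw [Finset.mem_filter, Set.Finite.mem_toFinset] at hw
    exact ⟨hw.2, fun i j => (hw.1 i j).trans (le_max_left _ _)⟩
  · intro n e δ₀ hn he he1 h₀ hb δ hδ hth
    obtain ⟨δ₁, hδ₁, h1, h2⟩ := h₀.exists_inv
    have h3 : δ = δ * δ₁ * δ₀ := by rw [mul_assoc, h2, mul_one]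
    refine ⟨δ * δ₁, ?_, h3⟩
    rw [Finset.mem_filter, Set.Finite.mem_toFinset]
    refine ⟨?_, hδ.mul hδ₁⟩
    intro i j
    refine hB n (n * e) δ₀ δ (δ * δ₁) e hn (hn.mul he) h₀ hδ he rfl he1
      (fun i j => (hb i j).trans one_le_two) ?_ h3 i j
    exact uni_abs_le ((hδ.map _).mul (hn.mul he)) one_le_two
      (fun i j hij => (abs_lt_of_theta hth i j hij).le)

private lemma reduce_abs (n : Matrix (Fin m) (Fin m) ℝ) (hn : Uni n) :
    ∃ δ : Matrix (Fin m) (Fin m) ℤ, Uni δ ∧ ∀ i j, |(δ.map (Int.castRingHom ℝ) * n) i j| ≤ 1 := by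
  obtain ⟨δ, hδ, h⟩ := exists_reduce n hn
  refine ⟨δ, hδ, uni_abs_le ((hδ.map _).mul hn) le_rfl fun i j hij => ?_⟩
  rw [abs_of_nonneg (h i j hij).1]
  exact (h i j hij).2.le

theorem Psi_bound (m : ℕ) : ∃ C : ℝ, 0 ≤ C ∧ ∀ (M : ℕ)
    (ξ : Matrix (Fin m) (Fin m) (ZMod M) → ℝ) (A : ℝ), 0 ≤ A → (∀ q, |ξ q| ≤ A) →
    ∀ n : Matrix (Fin m) (Fin m) ℝ, Uni n → |Psi M ξ n| ≤ C * A := by
  obtain ⟨W, B, _, hW, hcov⟩ := window_exists m
  refine ⟨W.card * 4 ^ (m * m), by positivity, ?_⟩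
  intro M ξ A hA hξ n hn
  obtain ⟨δ₀, h₀, hb⟩ := reduce_abs n hn
  have h1 : ∀ δ : Matrix (Fin m) (Fin m) ℤ, Uni δ → theta (δ.map (Int.castRingHom ℝ) * n) ≠ 0 →
      ∃ w ∈ W, δ = w * δ₀ := by
    intro δ hδ hth
    refine hcov n 1 δ₀ hn Uni.one ?_ h₀ hb δ hδ ?_
    · exact uni_abs_le Uni.one le_rfl fun i j hij => by
        rw [Matrix.one_apply_ne hij.ne', abs_zero]
        exact zero_le_one
    · rwa [mul_one]
  rw [Psi_window M ξ n W (fun w hw => (hW w hw).1) δ₀ h₀ h1]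
  calc |∑ w ∈ W, theta ((w * δ₀).map (Int.castRingHom ℝ) * n) *
        ξ ((w * δ₀).map (Int.castRingHom (ZMod M)))|
      ≤ ∑ w ∈ W, |theta ((w * δ₀).map (Int.castRingHom ℝ) * n) *
        ξ ((w * δ₀).map (Int.castRingHom (ZMod M)))| := Finset.abs_sum_le_sum_abs _ _
    _ ≤ ∑ _w ∈ W, (4 : ℝ) ^ (m * m) * A := by
        refine Finset.sum_le_sum fun w _ => ?_
        rw [abs_mul, abs_of_nonneg (theta_nonneg _)]
        exact mul_le_mul (theta_le _) (hξ _) (abs_nonneg _) (by positivity)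
    _ = W.card * 4 ^ (m * m) * A := by
        rw [Finset.sum_const, nsmul_eq_mul, mul_assoc]

theorem Psi_lip (m : ℕ) : ∃ C : ℝ, 0 ≤ C ∧ ∀ (M : ℕ)
    (ξ : Matrix (Fin m) (Fin m) (ZMod M) → ℝ) (A : ℝ), 0 ≤ A → (∀ q, |ξ q| ≤ A) →
    ∀ (n e : Matrix (Fin m) (Fin m) ℝ) (η : ℝ), Uni n → Uni e → 0 ≤ η → η ≤ 1 →
      (∀ i j, j < i → |e i j| ≤ η) → |Psi M ξ (n * e) - Psi M ξ n| ≤ C * A * η := by
  obtain ⟨W, B, hB, hW, hcov⟩ := window_exists m
  obtain ⟨L, hL, hlip⟩ := theta_lip m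
  refine ⟨W.card * (L * (m * (m * (B * 1)))), by positivity, ?_⟩
  intro M ξ A hA hξ n e η hn he hη hη1 hee
  obtain ⟨δ₀, h₀, hb⟩ := reduce_abs n hn
  have he1 : ∀ i j, |e i j| ≤ 1 := uni_abs_le he le_rfl fun i j hij => (hee i j hij).trans hη1
  have h1 : ∀ δ : Matrix (Fin m) (Fin m) ℤ, Uni δ → theta (δ.map (Int.castRingHom ℝ) * n) ≠ 0 →
      ∃ w ∈ W, δ = w * δ₀ := by
    intro δ hδ hth
    refine hcov n 1 δ₀ hn Uni.one ?_ h₀ hb δ hδ ?_
    · exact uni_abs_le Uni.one le_rfl fun i j hij => by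
        rw [Matrix.one_apply_ne hij.ne', abs_zero]
        exact zero_le_one
    · rwa [mul_one]
  rw [Psi_window M ξ n W (fun w hw => (hW w hw).1) δ₀ h₀ h1,
    Psi_window M ξ (n * e) W (fun w hw => (hW w hw).1) δ₀ h₀ (hcov n e δ₀ hn he he1 h₀ hb),
    ← Finset.sum_sub_distrib]
  have hdiff : ∀ w ∈ W, ∀ i j : Fin m,
      |((w * δ₀).map (Int.castRingHom ℝ) * (n * e)) i j -
        ((w * δ₀).map (Int.castRingHom ℝ) * n) i j| ≤ m * ((m * (B * 1)) * η) := by
    intro w hw i j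
    have h2 : (w * δ₀).map (Int.castRingHom ℝ) * (n * e) -
        (w * δ₀).map (Int.castRingHom ℝ) * n =
        (w.map (Int.castRingHom ℝ) * (δ₀.map (Int.castRingHom ℝ) * n)) * (e - 1) := by
      rw [Matrix.map_mul, mul_sub, mul_one]
      simp only [Matrix.mul_assoc]
    have h3 : ∀ i j : Fin m, |(e - 1) i j| ≤ η := by
      intro i j
      rw [Matrix.sub_apply]
      rcases lt_trichotomy i j with h4 | h4 | h4
      · rw [he.1 i j h4, Matrix.one_apply_ne h4.ne, sub_zero, abs_zero]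
        exact hη
      · subst h4
        rw [he.2, Matrix.one_apply_eq, sub_self, abs_zero]
        exact hη
      · rw [Matrix.one_apply_ne h4.ne', sub_zero]
        exact hee i j h4
    have hw' : ∀ i j : Fin m, |(w.map (Int.castRingHom ℝ)) i j| ≤ B := by
      intro i j
      simpa using (hW w hw).2 i j
    have h5 := mul_bound (mul_bound hw' hb) h3 i j
    rw [← h2, Matrix.sub_apply] at h5
    exact h5
  calc |∑ w ∈ W, (theta ((w * δ₀).map (Int.castRingHom ℝ) * (n * e)) *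
          ξ ((w * δ₀).map (Int.castRingHom (ZMod M))) -
        theta ((w * δ₀).map (Int.castRingHom ℝ) * n) *
          ξ ((w * δ₀).map (Int.castRingHom (ZMod M))))|
      ≤ ∑ w ∈ W, |theta ((w * δ₀).map (Int.castRingHom ℝ) * (n * e)) *
          ξ ((w * δ₀).map (Int.castRingHom (ZMod M))) -
        theta ((w * δ₀).map (Int.castRingHom ℝ) * n) *
          ξ ((w * δ₀).map (Int.castRingHom (ZMod M)))| := Finset.abs_sum_le_sum_abs _ _
    _ ≤ ∑ _w ∈ W, (L * (m * ((m * (B * 1)) * η))) * A := by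
        refine Finset.sum_le_sum fun w hw => ?_
        rw [← sub_mul, abs_mul]
        refine mul_le_mul ?_ (hξ _) (abs_nonneg _) (by positivity)
        exact hlip _ _ _ (by positivity) fun i j _ => hdiff w hw i j
    _ = W.card * (L * (m * (m * (B * 1)))) * A * η := by
        rw [Finset.sum_const, nsmul_eq_mul]
        ring

end Pool.Agent.Helper58.AR
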