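import Pool.Agent.Helper58.AR.Chi
import Pool.Agent.Helper58.AR.Psi

/-!
AR-5. The slow function on the lower triangular matrices.

`sc ρ μ v n = D⁻¹ n D` with `D = diag (exp (pot v i))`; `phi` is the sum over the levels `v` near `u` of
`chi v u * Psi (sc v n)`.

Proofs. `phi_eq`: any finite set containing `near u` gives the same sum (`mem_near`). `phi_freeze`:
sum over `near u ∪ near u'`; `|chi v u' - chi v u| ≤ 2 η` (`chi_lip`) and `Psi_bound`; at most `2 * 2 ^ m`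
terms. `phi_slow`: `phi (u', n e) - phi (u, n e)` by `phi_freeze`, then for fixed `u` the terms with
`chi v u ≠ 0`: `sc (n e) = sc n * sc e`, and for `j < i`
`|sc e i j| = |e i j| exp (pot v j - pot v i) ≤ τ exp (ρ ∑_(j < l ≤ i) (u l - v l) - μ (i - j))`
`≤ τ exp (m ρ - μ) ≤ 1`, so `Psi_lip` applies.
-/

set_option autoImplicit false

namespace Pool.Agent.Helper58.AR

variable {m : ℕ}

/-- the logarithms of the diagonal matrix of level `v` -/
noncomputable def pot (ρ μ : ℝ) (v : Fin m → ℤ) (i : Fin m) : ℝ :=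
  μ * ((i : ℕ) : ℝ) + ρ * ∑ l ∈ Finset.Iic i, (v l : ℝ)

/-- conjugation by the diagonal matrix of level `v` -/
noncomputable def sc (ρ μ : ℝ) (v : Fin m → ℤ) (n : Matrix (Fin m) (Fin m) ℝ) :
    Matrix (Fin m) (Fin m) ℝ :=
  Matrix.of fun i j => n i j * Real.exp (pot ρ μ v j - pot ρ μ v i)

theorem sc_mul (ρ μ : ℝ) (v : Fin m → ℤ) (n n' : Matrix (Fin m) (Fin m) ℝ) :
    sc ρ μ v (n * n') = sc ρ μ v n * sc ρ μ v n' := by
  ext i j
  simp only [sc, Matrix.of_apply, Matrix.mul_apply, Finset.sum_mul]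
  refine Finset.sum_congr rfl fun k _ => ?_
  have h : Real.exp (pot ρ μ v j - pot ρ μ v i) =
      Real.exp (pot ρ μ v k - pot ρ μ v i) * Real.exp (pot ρ μ v j - pot ρ μ v k) := by
    rw [← Real.exp_add]
    congr 1
    ring
  rw [h]
  ring

theorem uni_sc (ρ μ : ℝ) (v : Fin m → ℤ) {n : Matrix (Fin m) (Fin m) ℝ} (h : Uni n) :
    Uni (sc ρ μ v n) := by
  refine ⟨fun i j hij => ?_, fun i => ?_⟩
  · simp only [sc, Matrix.of_apply]
    rw [h.1 i j hij, zero_mul]
  · simp only [sc, Matrix.of_apply]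
    rw [h.2 i, sub_self, Real.exp_zero, one_mul]

private theorem ph_split (f : Fin m → ℝ) {i j : Fin m} (hij : j ≤ i) :
    ∑ l ∈ Finset.Iic i, f l = ∑ l ∈ Finset.Iic j, f l + ∑ l ∈ Finset.Ioc j i, f l := by
  classical
  rw [← Finset.sum_union]
  · refine Finset.sum_congr ?_ fun _ _ => rfl
    ext l
    simp only [Finset.mem_union, Finset.mem_Iic, Finset.mem_Ioc]
    constructor
    · intro h
      rcases le_or_gt l j with h1 | h1
      · exact Or.inl h1
      · exact Or.inr ⟨h1, h⟩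
    · rintro (h | h)
      · exact h.trans hij
      · exact h.2
  · rw [Finset.disjoint_left]
    intro l h1 h2
    rw [Finset.mem_Iic] at h1
    rw [Finset.mem_Ioc] at h2
    exact absurd h1 (not_le.2 h2.1)

private theorem ph_pot (ρ μ : ℝ) (v : Fin m → ℤ) {i j : Fin m} (hij : j ≤ i) :
    pot ρ μ v j - pot ρ μ v i =
      -(μ * (((i : ℕ) : ℝ) - ((j : ℕ) : ℝ))) - ρ * ∑ l ∈ Finset.Ioc j i, (v l : ℝ) := by
  unfold pot
  rw [ph_split (fun l => (v l : ℝ)) hij]
  ring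

/-- a coarser level (`v ≤ v'`) gives smaller entries -/
theorem sc_le {ρ μ : ℝ} (hρ : 0 ≤ ρ) {v v' : Fin m → ℤ} (h : v ≤ v')
    (n : Matrix (Fin m) (Fin m) ℝ) (i j : Fin m) (hij : j ≤ i) :
    |sc ρ μ v' n i j| ≤ |sc ρ μ v n i j| := by
  simp only [sc, Matrix.of_apply, abs_mul, Real.abs_exp]
  refine mul_le_mul_of_nonneg_left (Real.exp_le_exp.2 ?_) (abs_nonneg _)
  rw [ph_pot ρ μ v hij, ph_pot ρ μ v' hij]
  have h1 : ∑ l ∈ Finset.Ioc j i, (v l : ℝ) ≤ ∑ l ∈ Finset.Ioc j i, (v' l : ℝ) :=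
    Finset.sum_le_sum fun l _ => Int.cast_le.2 (h l)
  have h2 := mul_le_mul_of_nonneg_left h1 hρ
  linarith

/-- the residue class of a level -/
def cls (v : Fin m → ℤ) : Fin m → ZMod 2 := fun i => (v i : ZMod 2)

/-- the slow function, with parameters `ξ` -/
noncomputable def phi {k : ℕ} (M : ℕ)
    (ξ : (Fin m → ZMod 2) → Matrix (Fin m) (Fin m) (ZMod M) → Fin k → ℝ) (ρ μ : ℝ)
    (u : Fin m → ℝ) (n : Matrix (Fin m) (Fin m) ℝ) (l : Fin k) : ℝ :=
  ∑ v ∈ near u, chi v u * Psi M (fun q => ξ (cls v) q l) (sc ρ μ v n)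

theorem phi_eq {k : ℕ} (M : ℕ)
    (ξ : (Fin m → ZMod 2) → Matrix (Fin m) (Fin m) (ZMod M) → Fin k → ℝ) (ρ μ : ℝ)
    (u : Fin m → ℝ) (n : Matrix (Fin m) (Fin m) ℝ) (l : Fin k) (V : Finset (Fin m → ℤ))
    (hV : near u ⊆ V) :
    phi M ξ ρ μ u n l = ∑ v ∈ V, chi v u * Psi M (fun q => ξ (cls v) q l) (sc ρ μ v n) := by
  unfold phi
  refine Finset.sum_subset hV fun v _ hv => ?_
  have h : chi v u = 0 := by
    by_contra h
    exact hv (mem_near h)
  rw [h, zero_mul]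

/-- the weights can be frozen -/
theorem phi_freeze (m : ℕ) : ∃ C : ℝ, 0 ≤ C ∧ ∀ (k M : ℕ)
    (ξ : (Fin m → ZMod 2) → Matrix (Fin m) (Fin m) (ZMod M) → Fin k → ℝ) (A : ℝ), 0 ≤ A →
    (∀ o q l, |ξ o q l| ≤ A) → ∀ (ρ μ : ℝ) (u u' : Fin m → ℝ)
    (n : Matrix (Fin m) (Fin m) ℝ) (η : ℝ), Uni n → 0 ≤ η → (∀ i, |u' i - u i| ≤ η) → ∀ l,
    |phi M ξ ρ μ u' n l - phi M ξ ρ μ u n l| ≤ C * A * η := by
  classical
  obtain ⟨C0, hC0, hb⟩ := Psi_bound m
  refine ⟨2 * 2 ^ m * (2 * C0), by positivity, ?_⟩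
  intro k M ξ A hA hξ ρ μ u u' n η hn hη hu l
  have hcard : ((near u ∪ near u').card : ℝ) ≤ 2 * 2 ^ m := by
    have h1 : (near u ∪ near u').card ≤ 2 * 2 ^ m :=
      (Finset.card_union_le _ _).trans (by
        have := card_near u
        have := card_near u'
        omega)
    exact_mod_cast h1
  rw [phi_eq M ξ ρ μ u' n l (near u ∪ near u') Finset.subset_union_right,
    phi_eq M ξ ρ μ u n l (near u ∪ near u') Finset.subset_union_left, ← Finset.sum_sub_distrib]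
  have hterm : ∀ v ∈ near u ∪ near u',
      |chi v u' * Psi M (fun q => ξ (cls v) q l) (sc ρ μ v n) -
        chi v u * Psi M (fun q => ξ (cls v) q l) (sc ρ μ v n)| ≤ 2 * η * (C0 * A) := by
    intro v _
    rw [← sub_mul, abs_mul]
    exact mul_le_mul (chi_lip v u u' hη hu) (hb M _ A hA (fun q => hξ _ _ _) _ (uni_sc ρ μ v hn))
      (abs_nonneg _) (by positivity)
  calc |∑ v ∈ near u ∪ near u', (chi v u' * Psi M (fun q => ξ (cls v) q l) (sc ρ μ v n) -
        chi v u * Psi M (fun q => ξ (cls v) q l) (sc ρ μ v n))|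
      ≤ ∑ v ∈ near u ∪ near u', |chi v u' * Psi M (fun q => ξ (cls v) q l) (sc ρ μ v n) -
        chi v u * Psi M (fun q => ξ (cls v) q l) (sc ρ μ v n)| := Finset.abs_sum_le_sum_abs _ _
    _ ≤ ∑ v ∈ near u ∪ near u', 2 * η * (C0 * A) := Finset.sum_le_sum hterm
    _ = ((near u ∪ near u').card : ℝ) * (2 * η * (C0 * A)) := by
        rw [Finset.sum_const, nsmul_eq_mul]
    _ ≤ (2 * 2 ^ m) * (2 * η * (C0 * A)) :=
        mul_le_mul_of_nonneg_right hcard (by positivity)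
    _ = 2 * 2 ^ m * (2 * C0) * A * η := by ring

theorem phi_slow (m : ℕ) : ∃ C : ℝ, 0 ≤ C ∧ ∀ (k M : ℕ)
    (ξ : (Fin m → ZMod 2) → Matrix (Fin m) (Fin m) (ZMod M) → Fin k → ℝ) (A : ℝ), 0 ≤ A →
    (∀ o q l, |ξ o q l| ≤ A) → ∀ (ρ μ : ℝ) (u u' : Fin m → ℝ)
    (n e : Matrix (Fin m) (Fin m) ℝ) (η τ : ℝ), 0 ≤ ρ → 0 ≤ μ → Uni n → Uni e → 0 ≤ η → 0 ≤ τ →
    (∀ i, |u' i - u i| ≤ η) →
    (∀ i j, j < i → |e i j| ≤ τ * Real.exp (ρ * ∑ l ∈ Finset.Ioc j i, u l)) →
    τ * Real.exp (m * ρ - μ) ≤ 1 → ∀ l,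
    |phi M ξ ρ μ u' (n * e) l - phi M ξ ρ μ u n l| ≤
      C * A * (η + τ * Real.exp (m * ρ - μ)) := by
  classical
  obtain ⟨C1, hC1, hf⟩ := phi_freeze m
  obtain ⟨C2, hC2, hl⟩ := Psi_lip m
  refine ⟨C1 + 2 ^ m * C2, by positivity, ?_⟩
  intro k M ξ A hA hξ ρ μ u u' n e η τ hρ hμ hn he hη hτ hu hent hsmall l
  have h1 := hf k M ξ A hA hξ ρ μ u u' (n * e) η (hn.mul he) hη hu l
  have hε : 0 ≤ τ * Real.exp (m * ρ - μ) := by positivity
  have h2 : |phi M ξ ρ μ u (n * e) l - phi M ξ ρ μ u n l| ≤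
      2 ^ m * C2 * A * (τ * Real.exp (m * ρ - μ)) := by
    unfold phi
    rw [← Finset.sum_sub_distrib]
    have hterm : ∀ v ∈ near u,
        |chi v u * Psi M (fun q => ξ (cls v) q l) (sc ρ μ v (n * e)) -
          chi v u * Psi M (fun q => ξ (cls v) q l) (sc ρ μ v n)| ≤
          C2 * A * (τ * Real.exp (m * ρ - μ)) := by
      intro v _
      by_cases hv : chi v u = 0
      · rw [hv, zero_mul, zero_mul, sub_zero, abs_zero]
        positivity
      rw [← mul_sub, abs_mul, sc_mul]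
      have hent' : ∀ i j, j < i → |sc ρ μ v e i j| ≤ τ * Real.exp (m * ρ - μ) := by
        intro i j hij
        simp only [sc, Matrix.of_apply, abs_mul, Real.abs_exp]
        rw [ph_pot ρ μ v hij.le]
        calc |e i j| * Real.exp (-(μ * (((i : ℕ) : ℝ) - ((j : ℕ) : ℝ))) -
              ρ * ∑ l ∈ Finset.Ioc j i, (v l : ℝ))
            ≤ (τ * Real.exp (ρ * ∑ l ∈ Finset.Ioc j i, u l)) *
              Real.exp (-(μ * (((i : ℕ) : ℝ) - ((j : ℕ) : ℝ))) -
                ρ * ∑ l ∈ Finset.Ioc j i, (v l : ℝ)) :=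
              mul_le_mul_of_nonneg_right (hent i j hij) (Real.exp_nonneg _)
          _ = τ * Real.exp (ρ * ∑ l ∈ Finset.Ioc j i, (u l - (v l : ℝ)) -
                μ * (((i : ℕ) : ℝ) - ((j : ℕ) : ℝ))) := by
              rw [mul_assoc, ← Real.exp_add, Finset.sum_sub_distrib]
              congr 2
              ring
          _ ≤ τ * Real.exp (m * ρ - μ) := by
              refine mul_le_mul_of_nonneg_left (Real.exp_le_exp.2 ?_) hτ
              have g1 : ∑ l ∈ Finset.Ioc j i, (u l - (v l : ℝ)) ≤ (m : ℝ) := by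
                calc ∑ l ∈ Finset.Ioc j i, (u l - (v l : ℝ))
                    ≤ ∑ l ∈ Finset.Ioc j i, (1 : ℝ) :=
                      Finset.sum_le_sum fun l _ => ((abs_lt.1 (chi_near hv l)).2).le
                  _ = ((Finset.Ioc j i).card : ℝ) := by rw [Finset.sum_const, nsmul_eq_mul, mul_one]
                  _ ≤ (m : ℝ) := by
                      have h3 := Finset.card_le_univ (Finset.Ioc j i)
                      rw [Fintype.card_fin] at h3
                      exact_mod_cast h3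
              have g2 : (1 : ℝ) ≤ ((i : ℕ) : ℝ) - ((j : ℕ) : ℝ) := by
                have h4 : (j : ℕ) + 1 ≤ (i : ℕ) := hij
                have h5 : (((j : ℕ) + 1 : ℕ) : ℝ) ≤ ((i : ℕ) : ℝ) := Nat.cast_le.2 h4
                push_cast at h5
                linarith
              have g3 := mul_le_mul_of_nonneg_left g1 hρ
              have g4 := mul_le_mul_of_nonneg_left g2 hμ
              linarith
      have h3 := hl M (fun q => ξ (cls v) q l) A hA (fun q => hξ _ _ _) (sc ρ μ v n) (sc ρ μ v e)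
        (τ * Real.exp (m * ρ - μ)) (uni_sc ρ μ v hn) (uni_sc ρ μ v he) hε hsmall hent'
      have hc : |chi v u| ≤ 1 := by
        rw [abs_of_nonneg (chi_nonneg v u)]
        exact chi_le_one v u
      calc |chi v u| * |Psi M (fun q => ξ (cls v) q l) (sc ρ μ v n * sc ρ μ v e) -
            Psi M (fun q => ξ (cls v) q l) (sc ρ μ v n)|
          ≤ 1 * (C2 * A * (τ * Real.exp (m * ρ - μ))) :=
            mul_le_mul hc h3 (abs_nonneg _) zero_le_one
        _ = C2 * A * (τ * Real.exp (m * ρ - μ)) := one_mul _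
    calc |∑ v ∈ near u, (chi v u * Psi M (fun q => ξ (cls v) q l) (sc ρ μ v (n * e)) -
          chi v u * Psi M (fun q => ξ (cls v) q l) (sc ρ μ v n))|
        ≤ ∑ v ∈ near u, |chi v u * Psi M (fun q => ξ (cls v) q l) (sc ρ μ v (n * e)) -
          chi v u * Psi M (fun q => ξ (cls v) q l) (sc ρ μ v n)| := Finset.abs_sum_le_sum_abs _ _
      _ ≤ ∑ v ∈ near u, C2 * A * (τ * Real.exp (m * ρ - μ)) := Finset.sum_le_sum hterm
      _ = ((near u).card : ℝ) * (C2 * A * (τ * Real.exp (m * ρ - μ))) := by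
          rw [Finset.sum_const, nsmul_eq_mul]
      _ ≤ 2 ^ m * (C2 * A * (τ * Real.exp (m * ρ - μ))) := by
          refine mul_le_mul_of_nonneg_right ?_ (by positivity)
          exact_mod_cast card_near u
      _ = 2 ^ m * C2 * A * (τ * Real.exp (m * ρ - μ)) := by ring
  have h3 : phi M ξ ρ μ u' (n * e) l - phi M ξ ρ μ u n l =
      (phi M ξ ρ μ u' (n * e) l - phi M ξ ρ μ u (n * e) l) +
        (phi M ξ ρ μ u (n * e) l - phi M ξ ρ μ u n l) := by ring
  rw [h3]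
  refine (abs_add_le _ _).trans ?_
  have h4 : 0 ≤ C1 * A * (τ * Real.exp (m * ρ - μ)) := by positivity
  have h5 : 0 ≤ 2 ^ m * C2 * A * η := by positivity
  calc |phi M ξ ρ μ u' (n * e) l - phi M ξ ρ μ u (n * e) l| +
        |phi M ξ ρ μ u (n * e) l - phi M ξ ρ μ u n l|
      ≤ C1 * A * η + 2 ^ m * C2 * A * (τ * Real.exp (m * ρ - μ)) := add_le_add h1 h2
    _ ≤ (C1 + 2 ^ m * C2) * A * (η + τ * Real.exp (m * ρ - μ)) := by
        have e : (C1 + 2 ^ m * C2) * A * (η + τ * Real.exp (m * ρ - μ)) =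
          C1 * A * η + 2 ^ m * C2 * A * (τ * Real.exp (m * ρ - μ)) +
            (C1 * A * (τ * Real.exp (m * ρ - μ)) + 2 ^ m * C2 * A * η) := by ring
        rw [e]
        linarith

end Pool.Agent.Helper58.AR
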