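import Pool.Agent.Helper58.AR.LightC
import Pool.Agent.Helper58.GI.PolyOver
import Pool.Agent.Helper61.Apc.Final

/-!
AR-15. The criterion with arbitrary places, and the existence of places.

Proof of `thin_of_polyOverA`: `Helper58/GI/PolyOver.lean` with `local_light` for the non-archimedean places and
`local_light_complex` for the others (`φ` composed with `Units.map` of `σ.mapMatrix`, `P` mapped by `σ`, `y`
composed with `σ`); `N = n * (d + (d * 2 + (d * 2 + 1)))`, say, with unused coordinates `0`.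
Proof of `exists_places_good`: characteristic `p`: `exists_places_charP_of` (see `enoughPlaces_charP` in
`Helper61/Apc/Final.lean`); algebraic numbers: embed `K` into `AlgebraicClosure ℚ` and restrict the absolute
values of `exists_places` (see `nonarchProper_algebraic` in `Helper58/GI/Tower.lean`).
-/

set_option autoImplicit false

namespace Pool.Agent.Helper58.AR

open Pool.Agent.Helper65.TH Pool.Agent.Helper61.Apc Pool.Agent.Helper58.GI

universe u

/-- a non-archimedean absolute value, or the absolute value given by an embedding into `ℂ` -/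
def IsPlace {K : Type*} [Field K] (v : AbsoluteValue K ℝ) : Prop :=
  IsNonarchimedean v ∨ ∃ σ : K →+* ℂ, ∀ x, v x = ‖σ x‖

/-- Polynomial parameters over `T`: there are a field `K` with finitely many absolute values (places)
and `d` functions `y` on the group such that only finitely many elements of the subgroup
`⟨T⟩` have bounded parameters, and every finitely generated subgroup `⟨S⟩` containing `T` has a
homomorphism `φ` to some `GL_m(K)` such that on `⟨T⟩` the entries of `φ` are polynomials in the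
parameters and the parameters are polynomials in the entries of `φ`. The numbers of parameters and
of absolute values depend on `T` only, `m` and the degrees may depend on `S`. -/
def PolyOverA {G : Type*} [Group G] (T : Finset G) : Prop :=
  ∃ (K : Type u) (_ : Field K) (d n : ℕ) (y : G → Fin d → K) (v : Fin n → AbsoluteValue K ℝ),
    (∀ i, IsPlace (v i)) ∧
    (∀ B : ℝ, {h : G | h ∈ Subgroup.closure (T : Set G) ∧ ∀ i l, v i (y h l) ≤ B}.Finite) ∧
    ∀ S : Finset G, T ⊆ S → ∃ (m : ℕ) (φ : Subgroup.closure (S : Set G) →* GL (Fin m) K)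
      (P : Fin m → Fin m → MvPolynomial (Fin d) K) (Q : Fin d → MvPolynomial (Fin m × Fin m) K),
      ∀ h : Subgroup.closure (S : Set G), (h : G) ∈ Subgroup.closure (T : Set G) →
        (∀ a b, (φ h : Matrix (Fin m) (Fin m) K) a b = MvPolynomial.eval (y h) (P a b)) ∧
        ∀ l, y h l = MvPolynomial.eval
          (fun p : Fin m × Fin m => (φ h : Matrix (Fin m) (Fin m) K) p.1 p.2) (Q l)

private theorem map_eval_poly {K L : Type*} [Field K] [Field L] (σ : K →+* L) {d : ℕ}
    (y : Fin d → K) (P : MvPolynomial (Fin d) K) :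
    σ (MvPolynomial.eval y P) =
      MvPolynomial.eval (fun l => σ (y l)) (MvPolynomial.map σ P) := by
  rw [MvPolynomial.eval_map]
  have h := MvPolynomial.eval₂_comp_left σ (RingHom.id K) y P
  rw [RingHom.comp_id] at h
  exact h

/-- the local theorem for a place -/
private theorem local_place {K : Type u} [Field K] {v : AbsoluteValue K ℝ} (hv : IsPlace v)
    {Γ : Type*} [Group Γ] {m d : ℕ} (φ : Γ →* GL (Fin m) K) (L : Subgroup Γ)
    (y : Γ → Fin d → K) (P : Fin m → Fin m → MvPolynomial (Fin d) K)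
    (hP : ∀ h ∈ L, ∀ a b, (φ h : Matrix (Fin m) (Fin m) K) a b = MvPolynomial.eval (y h) (P a b))
    (S : Finset Γ) (ε : ℝ) (hε : 0 < ε) :
    ∃ (g : Γ → Fin (d * 2 + (d * 2 + 1)) → ℝ) (ρ : ℝ), (∀ x, ∀ s ∈ S, Near (g (x * s)) (g x) ε) ∧
      ∀ x z, Chain {s | s ∈ S ∧ s ∈ L} (fun b => Near (g b) (g x) 1) x z →
        ∀ a b, v ((φ (x⁻¹ * z) : Matrix (Fin m) (Fin m) K) a b) ≤ ρ := by
  classical
  rcases hv with hv | ⟨σ, hσ⟩
  · obtain ⟨g, ρ, hg, hρ⟩ := local_light hv φ L y P hP S ε hε
    refine ⟨fun x l => if h : (l : ℕ) < d then g x ⟨l, h⟩ else 0, ρ, ?_, ?_⟩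
    · intro x s hs l
      by_cases hl : (l : ℕ) < d
      · simp only [dif_pos hl]
        exact hg x s hs ⟨l, hl⟩
      · simp only [dif_neg hl, sub_self, abs_zero]
        exact hε.le
    · intro x z hxz
      refine hρ x z (hxz.mono (Set.Subset.refl _) ?_)
      intro b hb l
      have h1 := hb ⟨(l : ℕ), by have := l.2; omega⟩
      simp only [dif_pos l.2] at h1
      exact h1
  · obtain ⟨g, ρ, hg, hρ⟩ := local_light_complex ((Matrix.GeneralLinearGroup.map σ).comp φ) L
      (fun h l => σ (y h l)) (fun a b => MvPolynomial.map σ (P a b)) (by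
        intro h hh a b
        rw [← map_eval_poly, ← hP h hh a b]
        rfl) S ε hε
    refine ⟨g, ρ, hg, ?_⟩
    intro x z hxz a b
    rw [hσ]
    exact hρ x z hxz a b

/-- thinness in one finitely generated group -/
private theorem thin_of_dataA {K : Type u} [Field K] {d n m : ℕ} (v : Fin n → AbsoluteValue K ℝ)
    (hv : ∀ i, IsPlace (v i)) {Γ : Type*} [Group Γ] (L : Subgroup Γ)
    (y : Γ → Fin d → K) (hfin : ∀ B : ℝ, {h : Γ | h ∈ L ∧ ∀ i l, v i (y h l) ≤ B}.Finite)
    (φ : Γ →* GL (Fin m) K) (P : Fin m → Fin m → MvPolynomial (Fin d) K)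
    (Q : Fin d → MvPolynomial (Fin m × Fin m) K)
    (hPQ : ∀ h ∈ L, (∀ a b, (φ h : Matrix (Fin m) (Fin m) K) a b = MvPolynomial.eval (y h) (P a b)) ∧
        ∀ l, y h l = MvPolynomial.eval
          (fun p : Fin m × Fin m => (φ h : Matrix (Fin m) (Fin m) K) p.1 p.2) (Q l)) :
    Thin L (n * (d * 2 + (d * 2 + 1))) := by
  classical
  intro F ε hε
  have hloc : ∀ i : Fin n, ∃ (g : Γ → Fin (d * 2 + (d * 2 + 1)) → ℝ) (ρ : ℝ),
      (∀ x, ∀ s ∈ F, Near (g (x * s)) (g x) ε) ∧
      ∀ x z, Chain {s | s ∈ F ∧ s ∈ L} (fun b => Near (g b) (g x) 1) x z →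
        ∀ a b, v i ((φ (x⁻¹ * z) : Matrix (Fin m) (Fin m) K) a b) ≤ ρ := fun i =>
    local_place (hv i) φ L y P (fun h hh => (hPQ h hh).1) F ε hε
  choose g ρ hg hρ using hloc
  have hB : ∀ (i : Fin n) (l : Fin d), ∃ B : ℝ, 0 ≤ B ∧ ∀ z : Fin m × Fin m → K,
      (∀ p, v i (z p) ≤ ρ i) → v i (MvPolynomial.eval z (Q l)) ≤ B := fun i l =>
    exists_bound_eval (v i) (Q l) (ρ i)
  choose B hB0 hB using hB
  refine ⟨fun x p => g (finProdFinEquiv.symm p).1 x (finProdFinEquiv.symm p).2,
    (hfin (∑ i, ∑ l, B i l)).toFinset, ?_, ?_⟩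
  · intro x s hs p
    exact hg _ x s hs _
  · intro x z hxz
    rw [Set.Finite.mem_toFinset]
    have hL : x⁻¹ * z ∈ L := hxz.mem_subgroup L (fun s hs => hs.2)
    refine ⟨hL, fun i l => ?_⟩
    rw [(hPQ _ hL).2 l]
    have h1 : ∀ a b, v i ((φ (x⁻¹ * z) : Matrix (Fin m) (Fin m) K) a b) ≤ ρ i := by
      refine hρ i x z (hxz.mono (Set.Subset.refl _) ?_)
      intro b hb j
      have h2 := hb (finProdFinEquiv (i, j))
      simp only [Equiv.symm_apply_apply] at h2
      exact h2
    refine (hB i l _ (fun p => h1 p.1 p.2)).trans ?_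
    have h3 : B i l ≤ ∑ l', B i l' :=
      Finset.single_le_sum (f := fun l' => B i l') (fun l' _ => hB0 i l') (Finset.mem_univ l)
    have h4 : (∑ l', B i l') ≤ ∑ i', ∑ l', B i' l' :=
      Finset.single_le_sum (f := fun i' => ∑ l', B i' l')
        (fun i' _ => Finset.sum_nonneg fun l' _ => hB0 i' l') (Finset.mem_univ i)
    exact h3.trans h4

theorem thin_of_polyOverA {G : Type*} [Group G] (T : Finset G) (h : PolyOverA.{u} T) :
    ∃ N, Thin (Subgroup.closure (T : Set G)) N := by
  classical
  obtain ⟨K, _, d, n, y, v, hv, hfin, hS⟩ := h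
  refine ⟨n * (d * 2 + (d * 2 + 1)), thin_of_local _ _ fun K' hK => ?_⟩
  obtain ⟨F, hF⟩ := hK
  obtain ⟨m, φ, P, Q, hPQ⟩ := hS (T ∪ F) Finset.subset_union_left
  have hKΓ : K' ≤ Subgroup.closure ((T ∪ F : Finset G) : Set G) := by
    rw [← hF]
    apply Subgroup.closure_mono
    rw [Finset.coe_union]
    exact Set.subset_union_right
  have h1 : Thin ((Subgroup.closure (T : Set G)).subgroupOf
      (Subgroup.closure ((T ∪ F : Finset G) : Set G))) (n * (d * 2 + (d * 2 + 1))) := by
    refine thin_of_dataA v hv _ (fun h => y h) ?_ φ P Q ?_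
    · intro B
      have h2 := (hfin B).preimage
        (f := fun h : Subgroup.closure ((T ∪ F : Finset G) : Set G) => (h : G))
        (Subtype.val_injective.injOn)
      refine h2.subset ?_
      rintro x ⟨hx1, hx2⟩
      rw [Subgroup.mem_subgroupOf] at hx1
      exact ⟨hx1, hx2⟩
    · intro h hh
      rw [Subgroup.mem_subgroupOf] at hh
      exact hPQ h hh
  have h2 := h1.comap (Subgroup.inclusion hKΓ) (Subgroup.inclusion_injective hKΓ)
  have h3 : ((Subgroup.closure (T : Set G)).subgroupOf
      (Subgroup.closure ((T ∪ F : Finset G) : Set G))).comap (Subgroup.inclusion hKΓ) =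
      (Subgroup.closure (T : Set G)).subgroupOf K' := by
    ext x
    simp only [Subgroup.mem_comap, Subgroup.mem_subgroupOf, Subgroup.coe_inclusion]
  rw [h3] at h2
  exact h2

theorem exists_places_good {K : Type u} [Field K] (hK : GoodField K) (E : Finset K) :
    ∃ (n : ℕ) (v : Fin n → AbsoluteValue K ℝ), (∀ i, IsPlace (v i)) ∧
      ∀ B : ℝ, {x : K | x ∈ Subring.closure (E : Set K) ∧ ∀ i, v i x ≤ B}.Finite := by
  classical
  rcases hK with ⟨p, hp, hK⟩ | ⟨h0, hK⟩
  · have : Fact p.Prime := ⟨hp⟩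
    obtain ⟨k, v, hv, hfin⟩ := exists_places_charP_of (K := K) p
      (fun A L _ _ _ _ _ v hv => exists_abv_fractionField v hv)
      (fun F E _ _ _ _ v hv => exists_extensions v hv)
      (fun F E _ _ _ v hv => exists_abv_extension v hv) E
    exact ⟨k, v, fun j => Or.inl (hv j), hfin⟩
  · have halg : Algebra.IsAlgebraic ℚ K := by
      constructor
      intro x
      obtain ⟨p, hp, hpx⟩ := hK x
      refine ⟨p.map (Int.castRingHom ℚ), ?_, ?_⟩
      · rwa [ne_eq, Polynomial.map_eq_zero_iff (RingHom.injective_int _)]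
      · rw [Polynomial.aeval_def, Polynomial.eval₂_map]
        have h1 : (algebraMap ℚ K).comp (Int.castRingHom ℚ) = algebraMap ℤ K :=
          Subsingleton.elim _ _
        rw [h1]
        exact hpx
    let f : K →+* AlgebraicClosure ℚ := (IsAlgClosed.lift : K →ₐ[ℚ] AlgebraicClosure ℚ)
    obtain ⟨k, v, hv, hfin⟩ := exists_places (E.image f)
    refine ⟨k, fun j => (v j).comp f.injective, ?_, ?_⟩
    · intro j
      rcases hv j with ⟨σ, hσ⟩ | hna
      · exact Or.inr ⟨σ.comp f, fun x => hσ (f x)⟩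
      · refine Or.inl ?_
        intro x y
        have := hna (f x) (f y)
        rw [← map_add] at this
        exact this
    · intro B
      refine Set.Finite.of_finite_image (f := f) ((hfin B).subset ?_) f.injective.injOn
      rintro _ ⟨x, ⟨hx, hxB⟩, rfl⟩
      refine ⟨?_, hxB⟩
      have h1 : f x ∈ (Subring.closure (E : Set K)).map f := ⟨x, hx, rfl⟩
      rw [RingHom.map_closure] at h1
      rwa [Finset.coe_image]

end Pool.Agent.Helper58.AR
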