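import Mathlib

/-!
AR-6a. Rational functions without poles on `dom`: closure properties.

Proofs: elementary, `MvPolynomial.eval` is a ring homomorphism; `IsRat.det`: `Matrix.det_apply` and `IsRat.sum`,
`IsRat.prod`; `IsRat.eval`: `N = rename (Sum.inl ∘ y) P`, `D = 1`.
-/

set_option autoImplicit false

namespace Pool.Agent.Helper58.AR

/-- `G` is a rational function of `p` and `ξ`, without poles for `p ∈ dom` -/
def IsRat {σ V : Type} (dom : Set (σ → ℝ)) (G : (σ → ℝ) → (V → ℝ) → ℝ) : Prop :=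
  ∃ N D : MvPolynomial (σ ⊕ V) ℝ, ∀ p ∈ dom, ∀ ξ, MvPolynomial.eval (Sum.elim p ξ) D ≠ 0 ∧
    G p ξ = MvPolynomial.eval (Sum.elim p ξ) N / MvPolynomial.eval (Sum.elim p ξ) D

section closure

variable {σ V : Type} {dom : Set (σ → ℝ)} {G G' : (σ → ℝ) → (V → ℝ) → ℝ}

theorem IsRat.const (c : ℝ) : IsRat dom (fun _ (_ : V → ℝ) => c) :=
  ⟨MvPolynomial.C c, 1, fun p _ ξ => by simp⟩

theorem IsRat.param (s : σ) : IsRat dom (fun p (_ : V → ℝ) => p s) :=
  ⟨MvPolynomial.X (Sum.inl s), 1, fun p _ ξ => by simp⟩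

theorem IsRat.var (v : V) : IsRat dom (fun _ ξ => ξ v) :=
  ⟨MvPolynomial.X (Sum.inr v), 1, fun p _ ξ => by simp⟩

theorem IsRat.add (h : IsRat dom G) (h' : IsRat dom G') :
    IsRat dom (fun p ξ => G p ξ + G' p ξ) := by
  obtain ⟨N, D, hN⟩ := h
  obtain ⟨N', D', hN'⟩ := h'
  refine ⟨N * D' + D * N', D * D', fun p hp ξ => ?_⟩
  obtain ⟨h1, h2⟩ := hN p hp ξ
  obtain ⟨h3, h4⟩ := hN' p hp ξ
  refine ⟨by rw [map_mul]; exact mul_ne_zero h1 h3, ?_⟩
  simp only [map_add, map_mul, h2, h4]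
  exact div_add_div _ _ h1 h3

theorem IsRat.mul (h : IsRat dom G) (h' : IsRat dom G') :
    IsRat dom (fun p ξ => G p ξ * G' p ξ) := by
  obtain ⟨N, D, hN⟩ := h
  obtain ⟨N', D', hN'⟩ := h'
  refine ⟨N * N', D * D', fun p hp ξ => ?_⟩
  obtain ⟨h1, h2⟩ := hN p hp ξ
  obtain ⟨h3, h4⟩ := hN' p hp ξ
  refine ⟨by rw [map_mul]; exact mul_ne_zero h1 h3, ?_⟩
  simp only [map_mul, h2, h4]
  exact div_mul_div_comm _ _ _ _

theorem IsRat.sub (h : IsRat dom G) (h' : IsRat dom G') :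
    IsRat dom (fun p ξ => G p ξ - G' p ξ) := by
  obtain ⟨N, D, hN⟩ := h
  obtain ⟨N', D', hN'⟩ := h'
  refine ⟨N * D' - D * N', D * D', fun p hp ξ => ?_⟩
  obtain ⟨h1, h2⟩ := hN p hp ξ
  obtain ⟨h3, h4⟩ := hN' p hp ξ
  refine ⟨by rw [map_mul]; exact mul_ne_zero h1 h3, ?_⟩
  simp only [map_sub, map_mul, h2, h4]
  exact div_sub_div _ _ h1 h3

theorem IsRat.div (h : IsRat dom G) (h' : IsRat dom G') (h0 : ∀ p ∈ dom, ∀ ξ, G' p ξ ≠ 0) :
    IsRat dom (fun p ξ => G p ξ / G' p ξ) := by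
  obtain ⟨N, D, hN⟩ := h
  obtain ⟨N', D', hN'⟩ := h'
  refine ⟨N * D', D * N', fun p hp ξ => ?_⟩
  obtain ⟨h1, h2⟩ := hN p hp ξ
  obtain ⟨h3, h4⟩ := hN' p hp ξ
  have h5 := h0 p hp ξ
  have h6 : MvPolynomial.eval (Sum.elim p ξ) N' ≠ 0 := by
    intro h
    rw [h4, h, zero_div] at h5
    exact h5 rfl
  refine ⟨by rw [map_mul]; exact mul_ne_zero h1 h6, ?_⟩
  simp only [map_mul, h2, h4]
  exact div_div_div_eq _ _ _ _

theorem IsRat.congr (h : IsRat dom G) (h' : ∀ p ∈ dom, ∀ ξ, G' p ξ = G p ξ) :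
    IsRat dom G' := by
  obtain ⟨N, D, hN⟩ := h
  exact ⟨N, D, fun p hp ξ => ⟨(hN p hp ξ).1, (h' p hp ξ).trans (hN p hp ξ).2⟩⟩

theorem IsRat.sum {α : Type*} (s : Finset α) (f : α → (σ → ℝ) → (V → ℝ) → ℝ)
    (h : ∀ a ∈ s, IsRat dom (f a)) : IsRat dom (fun p ξ => ∑ a ∈ s, f a p ξ) := by
  classical
  induction s using Finset.induction_on with
  | empty => simpa using IsRat.const (dom := dom) (V := V) 0
  | insert a s ha ih =>
    have h1 := (h a (Finset.mem_insert_self a s)).add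
      (ih fun b hb => h b (Finset.mem_insert_of_mem hb))
    exact h1.congr fun p _ ξ => Finset.sum_insert ha

theorem IsRat.prod {α : Type*} (s : Finset α) (f : α → (σ → ℝ) → (V → ℝ) → ℝ)
    (h : ∀ a ∈ s, IsRat dom (f a)) : IsRat dom (fun p ξ => ∏ a ∈ s, f a p ξ) := by
  classical
  induction s using Finset.induction_on with
  | empty => simpa using IsRat.const (dom := dom) (V := V) 1
  | insert a s ha ih =>
    have h1 := (h a (Finset.mem_insert_self a s)).mul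
      (ih fun b hb => h b (Finset.mem_insert_of_mem hb))
    exact h1.congr fun p _ ξ => Finset.prod_insert ha

theorem IsRat.det {n : Type} [Fintype n] [DecidableEq n]
    (A : (σ → ℝ) → (V → ℝ) → Matrix n n ℝ) (h : ∀ i j, IsRat dom (fun p ξ => A p ξ i j)) :
    IsRat dom (fun p ξ => (A p ξ).det) := by
  have h1 : IsRat dom (fun p ξ => ∑ τ : Equiv.Perm n,
      (((Equiv.Perm.sign τ : ℤ) : ℝ) * ∏ i, A p ξ (τ i) i)) :=
    IsRat.sum _ _ fun τ _ => (IsRat.const _).mul (IsRat.prod _ _ fun i _ => h _ _)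
  refine h1.congr fun p _ ξ => ?_
  rw [Matrix.det_apply']

/-- substituting parameters into a polynomial -/
theorem IsRat.eval {ι : Type} (P : MvPolynomial ι ℝ) (y : ι → σ) :
    IsRat dom (fun p (_ : V → ℝ) => MvPolynomial.eval (fun i => p (y i)) P) := by
  refine ⟨MvPolynomial.rename (fun i => Sum.inl (y i)) P, 1, fun p _ ξ => ?_⟩
  refine ⟨by simp, ?_⟩
  rw [map_one, div_one, MvPolynomial.eval_rename]
  rfl

end closure

end Pool.Agent.Helper58.AR
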