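import Mathlib

/-!
AR-1. Lower unitriangular matrices. (Blueprint helper58, Lean helper59.)

Proofs. `Uni.det`: `Matrix.det_of_isLowerTriangular` (deprecated name `det_of_lowerTriangular`, see
`Helper58/GI/Minor.lean`). `Uni.exists_inv`: `n' = n.adjugate` (the determinant is `1`), or `n⁻¹`; that it
is unitriangular: solve `n * n' = 1` row by row (for `i < j` by strong induction on `i`:
`0 = (n * n') i j = ∑ l ≤ i, n i l * n' l j = n' i j`), or show that the inverse of a lower triangular
matrix is lower triangular (Mathlib: `Matrix.blockTriangular_inv_of_blockTriangular`).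
`inv_bound`: `n' = n.adjugate`, every entry of the adjugate is a sum of at most `m!` products of `m`
entries of absolute value at most `max B 1` (`Matrix.adjugate_apply`, `Matrix.det_apply`).
`exists_reduce`: induction on `q = m, m - 1, ..., 0`: there is `δ` with the conclusion for the columns
`j ≥ q`. Step from `q + 1` to `q`: multiply `δ` on the left by `1 + ∑ i > q, c_i E_(i q)` with
`c_i = - ⌊(δ n)_(i q)⌋`; row `q` of `δ n` is zero in the columns `> q` and `1` in column `q`.
-/

set_option autoImplicit false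

namespace Pool.Agent.Helper58.AR

variable {m : ℕ}

/-- lower unitriangular matrices -/
def Uni {R : Type*} [Zero R] [One R] (n : Matrix (Fin m) (Fin m) R) : Prop :=
  (∀ i j, i < j → n i j = 0) ∧ ∀ i, n i i = 1

theorem Uni.one {R : Type*} [Semiring R] : Uni (1 : Matrix (Fin m) (Fin m) R) :=
  ⟨fun _ _ h => Matrix.one_apply_ne h.ne, fun _ => Matrix.one_apply_eq _⟩

theorem Uni.mul {R : Type*} [Semiring R] {n n' : Matrix (Fin m) (Fin m) R} (h : Uni n)
    (h' : Uni n') : Uni (n * n') := by
  refine ⟨fun i j hij => ?_, fun i => ?_⟩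
  · rw [Matrix.mul_apply]
    refine Finset.sum_eq_zero fun l _ => ?_
    rcases lt_or_ge i l with hl | hl
    · rw [h.1 i l hl, zero_mul]
    · rw [h'.1 l j (lt_of_le_of_lt hl hij), mul_zero]
  · rw [Matrix.mul_apply, Finset.sum_eq_single i]
    · rw [h.2, h'.2, one_mul]
    · intro l _ hl
      rcases lt_or_gt_of_ne hl with hl | hl
      · rw [h'.1 l i hl, mul_zero]
      · rw [h.1 i l hl, zero_mul]
    · intro hi
      exact absurd (Finset.mem_univ i) hi

theorem Uni.map {R S : Type*} [Semiring R] [Semiring S] (f : R →+* S)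
    {n : Matrix (Fin m) (Fin m) R} (h : Uni n) : Uni (n.map f) := by
  refine ⟨fun i j hij => ?_, fun i => ?_⟩
  · rw [Matrix.map_apply, h.1 i j hij, map_zero]
  · rw [Matrix.map_apply, h.2 i, map_one]

theorem Uni.det {R : Type*} [CommRing R] {n : Matrix (Fin m) (Fin m) R} (h : Uni n) :
    n.det = 1 := by
  rw [Matrix.det_of_isLowerTriangular n (fun i j hij => h.1 i j (OrderDual.toDual_lt_toDual.mp hij))]
  exact Finset.prod_eq_one fun i _ => h.2 i

theorem Uni.exists_inv {R : Type*} [CommRing R] {n : Matrix (Fin m) (Fin m) R} (h : Uni n) :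
    ∃ n', Uni n' ∧ n * n' = 1 ∧ n' * n = 1 := by
  have h1 : n * n.adjugate = 1 := by rw [Matrix.mul_adjugate, h.det, one_smul]
  have h2 : n.adjugate * n = 1 := by rw [Matrix.adjugate_mul, h.det, one_smul]
  have h3 : ∀ k : ℕ, ∀ i j : Fin m, i.val = k → i < j → n.adjugate i j = 0 := by
    intro k
    induction k using Nat.strong_induction_on with
    | _ k ih =>
      intro i j hik hij
      have h4 := congrFun (congrFun h1 i) j
      rw [Matrix.mul_apply, Matrix.one_apply_ne hij.ne, Finset.sum_eq_single i] at h4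
      · rw [h.2, one_mul] at h4
        exact h4
      · intro l _ hl
        rcases lt_or_gt_of_ne hl with hl | hl
        · rw [ih l.val (by rw [← hik]; exact hl) l j rfl (hl.trans hij), mul_zero]
        · rw [h.1 i l hl, zero_mul]
      · intro hi
        exact absurd (Finset.mem_univ i) hi
  refine ⟨n.adjugate, ⟨fun i j hij => h3 _ i j rfl hij, fun i => ?_⟩, h1, h2⟩
  have h4 := congrFun (congrFun h1 i) i
  rw [Matrix.mul_apply, Matrix.one_apply_eq, Finset.sum_eq_single i] at h4
  · rw [h.2, one_mul] at h4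
    exact h4
  · intro l _ hl
    rcases lt_or_gt_of_ne hl with hl | hl
    · rw [h3 _ l i rfl hl, mul_zero]
    · rw [h.1 i l hl, zero_mul]
  · intro hi
    exact absurd (Finset.mem_univ i) hi

/-- the inverse of a bounded unitriangular matrix is bounded -/
theorem inv_bound (m : ℕ) (B : ℝ) : ∃ B' : ℝ, ∀ n n' : Matrix (Fin m) (Fin m) ℝ, Uni n →
    n * n' = 1 → (∀ i j, |n i j| ≤ B) → ∀ i j, |n' i j| ≤ B' := by
  let K : Set (Matrix (Fin m) (Fin m) ℝ) :=
    Set.univ.pi fun _ => Set.univ.pi fun _ => Set.Icc (-B) B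
  have hK : IsCompact K := isCompact_univ_pi fun _ => isCompact_univ_pi fun _ => isCompact_Icc
  have h1 : ∀ i j : Fin m, ∃ C : ℝ, ∀ n ∈ K, |n.adjugate i j| ≤ C := by
    intro i j
    have hc : Continuous fun n : Matrix (Fin m) (Fin m) ℝ => n.adjugate i j :=
      (continuous_id.matrix_adjugate).matrix_elem i j
    obtain ⟨C, hC⟩ := hK.exists_bound_of_continuousOn hc.continuousOn
    exact ⟨C, fun n hn => hC n hn⟩
  choose C hC using h1
  refine ⟨∑ i, ∑ j, |C i j|, fun n n' hn hnn hB i j => ?_⟩
  have h2 : n' = n.adjugate := by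
    have h3 : n.adjugate * n = 1 := by rw [Matrix.adjugate_mul, hn.det, one_smul]
    calc n' = (n.adjugate * n) * n' := by rw [h3, one_mul]
      _ = n.adjugate * (n * n') := by rw [mul_assoc]
      _ = n.adjugate := by rw [hnn, mul_one]
  have h3 : n ∈ K := by
    intro i _ j _
    exact abs_le.mp (hB i j)
  rw [h2]
  calc |n.adjugate i j| ≤ C i j := hC i j n h3
    _ ≤ |C i j| := le_abs_self _
    _ ≤ ∑ j, |C i j| :=
      Finset.single_le_sum (f := fun j => |C i j|) (fun _ _ => abs_nonneg _) (Finset.mem_univ j)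
    _ ≤ ∑ i, ∑ j, |C i j| :=
      Finset.single_le_sum (f := fun i => ∑ j, |C i j|)
        (fun _ _ => Finset.sum_nonneg fun _ _ => abs_nonneg _) (Finset.mem_univ i)

theorem mul_bound {a b : Matrix (Fin m) (Fin m) ℝ} {A B : ℝ} (ha : ∀ i j, |a i j| ≤ A)
    (hb : ∀ i j, |b i j| ≤ B) (i j : Fin m) : |(a * b) i j| ≤ m * (A * B) := by
  rw [Matrix.mul_apply]
  calc |∑ l, a i l * b l j| ≤ ∑ l, |a i l * b l j| := Finset.abs_sum_le_sum_abs _ _
    _ ≤ ∑ _l : Fin m, A * B := by
      refine Finset.sum_le_sum fun l _ => ?_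
      rw [abs_mul]
      exact mul_le_mul (ha i l) (hb l j) (abs_nonneg _) ((abs_nonneg _).trans (ha i l))
    _ = m * (A * B) := by
      rw [Finset.sum_const, Finset.card_univ, Fintype.card_fin, nsmul_eq_mul]

/-- reduction modulo the integer unitriangular matrices -/
theorem exists_reduce (n : Matrix (Fin m) (Fin m) ℝ) (hn : Uni n) :
    ∃ δ : Matrix (Fin m) (Fin m) ℤ, Uni δ ∧ ∀ i j, j < i →
      0 ≤ (δ.map (Int.castRingHom ℝ) * n) i j ∧ (δ.map (Int.castRingHom ℝ) * n) i j < 1 := by
  have key : ∀ k : ℕ, k ≤ m → ∃ δ : Matrix (Fin m) (Fin m) ℤ, Uni δ ∧ ∀ i j : Fin m, m - k ≤ j.val →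
      j < i → 0 ≤ (δ.map (Int.castRingHom ℝ) * n) i j ∧
        (δ.map (Int.castRingHom ℝ) * n) i j < 1 := by
    intro k
    induction k with
    | zero =>
      intro _
      refine ⟨1, Uni.one, fun i j hj _ => ?_⟩
      have := j.isLt
      omega
    | succ k ih =>
      intro hk
      obtain ⟨δ, hδ, hb⟩ := ih (by omega)
      have hq : m - (k + 1) < m := by omega
      let q : Fin m := ⟨m - (k + 1), hq⟩
      obtain ⟨M, hM⟩ : ∃ M, M = δ.map (Int.castRingHom ℝ) * n := ⟨_, rfl⟩
      have hMu : Uni M := by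
        rw [hM]
        exact (hδ.map (Int.castRingHom ℝ)).mul hn
      let E : Matrix (Fin m) (Fin m) ℤ := fun i j =>
        if i = j then 1 else if j = q ∧ q < i then -⌊M i q⌋ else 0
      have hE : Uni E := by
        refine ⟨fun i j hij => ?_, fun i => ?_⟩
        · simp only [E]
          rw [if_neg hij.ne, if_neg]
          rintro ⟨rfl, h2⟩
          exact lt_asymm hij h2
        · exact if_pos rfl
      have hEM : ∀ i j, (E.map (Int.castRingHom ℝ) * M) i j =
          M i j + if q < i then -(⌊M i q⌋ : ℝ) * M q j else 0 := by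
        intro i j
        rw [Matrix.mul_apply]
        have h1 : ∀ l, (E.map (Int.castRingHom ℝ)) i l * M l j =
            (if l = i then M i j else 0) +
              (if l = q then (if q < i then -(⌊M i q⌋ : ℝ) * M q j else 0) else 0) := by
          intro l
          rw [Matrix.map_apply]
          simp only [E]
          by_cases h2 : i = l
          · subst h2
            by_cases h3 : i = q
            · simp [h3]
            · simp [h3]
          · by_cases h3 : l = q
            · subst h3
              by_cases h4 : q < i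
              · have h5 : ¬ (q = i) := h4.ne
                simp [h4, h5, h2]
              · simp [h2, h4, Ne.symm h2]
            · simp [h2, h3, Ne.symm h2]
        rw [Finset.sum_congr rfl fun l _ => h1 l, Finset.sum_add_distrib, Finset.sum_ite_eq',
          Finset.sum_ite_eq', if_pos (Finset.mem_univ _), if_pos (Finset.mem_univ _)]
      refine ⟨E * δ, hE.mul hδ, fun i j hj hji => ?_⟩
      have h1 : (E * δ).map (Int.castRingHom ℝ) * n = E.map (Int.castRingHom ℝ) * M := by
        rw [hM, Matrix.map_mul, Matrix.mul_assoc]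
      rw [h1, hEM]
      by_cases hjq : j = q
      · rw [hjq] at hji ⊢
        rw [if_pos hji, hMu.2 q, mul_one]
        have h2 := Int.fract_nonneg (M i q)
        have h3 := Int.fract_lt_one (M i q)
        unfold Int.fract at h2 h3
        constructor <;> linarith
      · have hqj : q < j := by
          rw [Fin.lt_def]
          have h5 : j.val ≠ q.val := fun h => hjq (Fin.ext h)
          have h6 : q.val = m - (k + 1) := rfl
          omega
        have h2 : (if q < i then -(⌊M i q⌋ : ℝ) * M q j else 0) = 0 := by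
          rw [hMu.1 q j hqj, mul_zero, ite_self]
        rw [h2, add_zero]
        have h7 : m - k ≤ j.val := by
          have h5 : q.val < j.val := hqj
          have h6 : q.val = m - (k + 1) := rfl
          omega
        have h8 := hb i j h7 hji
        rw [← hM] at h8
        exact h8
  obtain ⟨δ, h1, h2⟩ := key m le_rfl
  exact ⟨δ, h1, fun i j hji => h2 i j (by omega) hji⟩

theorem finite_bounded (m : ℕ) (B : ℝ) :
    {δ : Matrix (Fin m) (Fin m) ℤ | ∀ i j, |(δ i j : ℝ)| ≤ B}.Finite := by
  have h1 : (Set.univ.pi fun _ : Fin m => Set.univ.pi fun _ : Fin m =>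
      Set.Icc (-⌈B⌉) ⌈B⌉).Finite :=
    Set.Finite.pi fun _ => Set.Finite.pi fun _ => Set.finite_Icc _ _
  refine Set.Finite.subset (s := (Set.univ.pi fun _ : Fin m => Set.univ.pi fun _ : Fin m =>
      Set.Icc (-⌈B⌉) ⌈B⌉)) h1 ?_
  intro δ hδ i _ j _
  have h2 := abs_le.mp (hδ i j)
  have h3 := Int.le_ceil B
  constructor
  · have : ((-⌈B⌉ : ℤ) : ℝ) ≤ (δ i j : ℝ) := by
      push_cast
      linarith
    exact_mod_cast this
  · have : (δ i j : ℝ) ≤ ((⌈B⌉ : ℤ) : ℝ) := by linarith
    exact_mod_cast this

end Pool.Agent.Helper58.AR
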